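import Pool.Agent.MP_b5e119_nt.G42.Defs

namespace Pool.Agent.G42

open Finset Pool.Agent.G60

lemma ind_bk {b v : ℕ} (hb : 0 < b) (hv : v ∈ BV b) : 1 ≤ v := by
  obtain ⟨q, hq, rfl⟩ := mem_image.1 hv
  have h1 := (mem_Ico.1 (mem_filter.1 hq).1).1
  have hq0 : q ≠ 0 := (mem_filter.1 hq).2.ne_zero
  have h2 : b ^ 2 ≤ Nat.log 2 q := Nat.le_log_of_pow_le (by norm_num) h1
  have h3 : b ≤ 2 ^ Nat.log 2 q := by
    have : b ≤ b ^ 2 := by nlinarith
    exact (Nat.lt_two_pow_self).le.trans (Nat.pow_le_pow_right two_pos (this.trans h2))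
  have h4 : 0 < 2 ^ Nat.log 2 q / b := Nat.div_pos h3 hb
  have h5 : 2 ^ Nat.log 2 q / b ≤ q := (Nat.div_le_self _ _).trans (Nat.pow_log_le_self 2 hq0)
  exact Nat.mul_pos h4 (Nat.div_pos h5 h4)

lemma ind_anti (p b : ℕ) [NeZero p] (hb : 0 < b) {α α' : ℝ} (h : α ≤ α') :
    Sm p b α' ⊆ Sm p b α := by
  intro χ hχ
  simp only [Sm, mem_filter, mem_univ, true_and] at hχ ⊢
  intro v hv
  refine (hχ v hv).trans (Real.rpow_le_rpow_of_exponent_le ?_ (by linarith))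
  exact_mod_cast ind_bk hb hv

lemma ind_two (c : ℕ) : 2 * c ≤ 2 ^ c := by
  rcases c with _ | c
  · simp
  · have : c < 2 ^ c := Nat.lt_two_pow_self
    rw [pow_succ]; omega

lemma ind_tw (b j : ℕ) : b ≤ tw b j := by
  induction j with
  | zero => exact le_rfl
  | succ j ih =>
    have := ind_two (tw b j)
    show b ≤ 2 ^ tw b j
    omega

variable [Sg]

theorem ind_row (hB : BASE_s) (hS : STEP_s) : IND_s := by
  classical
  intro α e hα he B
  obtain ⟨b₀, hb₀⟩ := hB (α / 2) (by linarith)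
  obtain ⟨c₀, hc₀⟩ := hS
  obtain ⟨n₁, hn₁⟩ := exists_nat_ge (12 / α)
  obtain ⟨n₂, hn₂⟩ := exists_nat_ge (400 / e)
  obtain ⟨b, hb⟩ : ∃ b : ℕ, b = B + b₀ + c₀ + n₁ + n₂ + 1 := ⟨_, rfl⟩
  have hmu : ∀ (p : ℕ) [NeZero p] (χ : Ch p), 0 ≤ mu p χ := fun p _ χ => by
    unfold mu; positivity
  have hal : ∀ c : ℕ, b ≤ c → 6 / (c : ℝ) ≤ α / 2 ∧ 200 / (c : ℝ) ≤ e / 2 := by
    intro c hc
    have h0 : (0 : ℝ) < c := by exact_mod_cast (by omega : 0 < c)
    have h1 : (n₁ : ℝ) ≤ c := by exact_mod_cast (by omega : n₁ ≤ c)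
    have h2 : (n₂ : ℝ) ≤ c := by exact_mod_cast (by omega : n₂ ≤ c)
    have h3 := (div_le_iff₀ hα).1 (hn₁.trans h1)
    have h4 := (div_le_iff₀ he).1 (hn₂.trans h2)
    constructor
    · rw [div_le_iff₀ h0]; linarith
    · rw [div_le_iff₀ h0]; linarith
  obtain ⟨K, hK⟩ : ∃ K : ℝ, K = 8 * 3 ^ 2 ^ b ^ 4 := ⟨_, rfl⟩
  have hK0 : 0 < K := by rw [hK]; positivity
  refine ⟨b, by omega, e / 2 / K, by positivity, fun p _ hod j hj => ?_⟩
  have hp0 : (0 : ℝ) < p := by exact_mod_cast (Fact.out : p.Prime).pos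
  have key : ∀ j : ℕ, 2 ^ tw b j ^ 4 < p →
      ∑ χ ∈ Sm p (tw b j) (α - 6 / (tw b j : ℝ)), mu p χ ≤ e - 200 / (tw b j : ℝ) := by
    intro j
    induction j with
    | zero =>
      intro hj
      have h1 := hb₀ p b (by omega) hj
      rw [← hK] at h1
      obtain ⟨h2, h3⟩ := hal b le_rfl
      have h4 : K * (od p : ℝ) / p ≤ e / 2 := by
        rw [div_le_iff₀ hp0]
        have := mul_le_mul_of_nonneg_left hod hK0.le
        have e1 : K * (e / 2 / K * p) = e / 2 * p := by field_simp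
        linarith
      have h5 : ∑ χ ∈ Sm p b (α - 6 / (b : ℝ)), mu p χ ≤ ∑ χ ∈ Sm p b (α / 2), mu p χ :=
        sum_le_sum_of_subset_of_nonneg (ind_anti p b (by omega) (by linarith))
          fun χ _ _ => hmu p χ
      show ∑ χ ∈ Sm p b (α - 6 / (b : ℝ)), mu p χ ≤ e - 200 / (b : ℝ)
      linarith
    | succ j ih =>
      intro hj
      obtain ⟨c, hc⟩ : ∃ c, c = tw b j := ⟨_, rfl⟩
      have hbc : b ≤ c := hc ▸ ind_tw b j
      have e1 : tw b (j + 1) = 2 ^ c := by rw [hc]; rfl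
      rw [e1] at hj ⊢
      rw [← hc] at ih
      have h2c := ind_two c
      have hj' : 2 ^ c ^ 4 < p :=
        lt_of_le_of_lt (Nat.pow_le_pow_right two_pos (Nat.pow_le_pow_left (by omega) 4)) hj
      have h0 : (0 : ℝ) < c := by exact_mod_cast (by omega : 0 < c)
      have h1 : 2 * (c : ℝ) ≤ ((2 ^ c : ℕ) : ℝ) := by exact_mod_cast h2c
      have h2 : 1 / ((2 ^ c : ℕ) : ℝ) ≤ 1 / (2 * (c : ℝ)) :=
        one_div_le_one_div_of_le (by positivity) h1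
      obtain ⟨h3, -⟩ := hal c hbc
      have e2 : 1 / (2 * (c : ℝ)) = 1 / 2 * (1 / (c : ℝ)) := by field_simp
      have e3 : ∀ (t y : ℝ), t / y = t * (1 / y) := fun t y => by ring
      have h4 := hc₀ p c (α - 6 / (c : ℝ)) (α - 6 / ((2 ^ c : ℕ) : ℝ)) (by omega) hj (by linarith)
        (by rw [e3 6 (c : ℝ), e3 3 (c : ℝ), e3 6 ((2 ^ c : ℕ) : ℝ)]; linarith)
      have h5 := ih hj'
      have h6 : ∑ χ ∈ Sm p (2 ^ c) (α - 6 / ((2 ^ c : ℕ) : ℝ)), mu p χ ≤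
          ∑ χ ∈ Sm p (2 ^ c) (α - 6 / ((2 ^ c : ℕ) : ℝ)) \ Sm p c (α - 6 / (c : ℝ)), mu p χ +
            ∑ χ ∈ Sm p c (α - 6 / (c : ℝ)), mu p χ := by
        rw [← sum_union sdiff_disjoint]
        refine sum_le_sum_of_subset_of_nonneg ?_ fun χ _ _ => hmu p χ
        rw [sdiff_union_self_eq_union]
        exact subset_union_left
      rw [e3 100 (c : ℝ)] at h4
      rw [e3 200 (c : ℝ)] at h5
      rw [e3 200 ((2 ^ c : ℕ) : ℝ)]
      refine h6.trans ?_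
      refine (add_le_add (le_of_eq_of_le ?_ h4) h5).trans (by linarith)
      congr
  have h0 : (0 : ℝ) ≤ tw b j := Nat.cast_nonneg _
  have h1 : 0 ≤ 6 / (tw b j : ℝ) := by positivity
  have h2 : 0 ≤ 200 / (tw b j : ℝ) := by positivity
  have h3 := ind_tw b j
  have h4 : ∑ χ ∈ Sm p (tw b j) α, mu p χ ≤
      ∑ χ ∈ Sm p (tw b j) (α - 6 / (tw b j : ℝ)), mu p χ :=
    sum_le_sum_of_subset_of_nonneg (ind_anti p _ (by omega) (by linarith)) fun χ _ _ => hmu p χ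
  have := key j hj
  linarith

end Pool.Agent.G42
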