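import Pool.Agent.MP_b5e119_nt.G60.Defs

/-! Statements of the rows of campaign h42w, first part: climbing through scales of primes. -/

namespace Pool.Agent.G42

open Finset Filter Topology Pool.Agent.G60

noncomputable section

/-- Primes of the scale `b`. -/
def RR (b : ℕ) : Finset ℕ := {q ∈ Ico (2 ^ b ^ 2) (2 ^ b ^ 4) | q.Prime}

/-- Left end of the short block that contains `q`. -/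
def bk (b q : ℕ) : ℕ := 2 ^ Nat.log 2 q / b * (q / (2 ^ Nat.log 2 q / b))

def BV (b : ℕ) : Finset ℕ := (RR b).image (bk b)

def BF (b v : ℕ) : Finset ℕ := {q ∈ RR b | bk b q = v}

def LR (b : ℕ) : ℝ := ∑ q ∈ RR b, 1 / (q : ℝ)

def QQ (p b v : ℕ) (χ : Ch p) : ℂ := ∑ q ∈ BF b v, χ (q : ZMod p)

open Classical in
/-- Characters all of whose block sums at scale `b` are small. -/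
def Sm (p b : ℕ) [NeZero p] (α : ℝ) : Finset (Ch p) :=
  {χ | ∀ v ∈ BV b, ‖QQ p b v χ‖ ≤ (v : ℝ) ^ (1 - α)}

def AA (p x : ℕ) (χ : Ch p) : ℂ :=
  (∑ a ∈ Icc 1 x, (lam a : ℂ) * (starRingEnd ℂ) (χ (a : ZMod p))) / ((p : ℂ) - 1)

def XV (p b v : ℕ) : ℕ := (b - 1) * (p - 1) / (b * v)

def HH (p b n : ℕ) : ℤ :=
  ∑ q ∈ RR b, if q ∣ n ∧ n / q ≤ XV p b (bk b q) then lam (n / q) else 0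

/-- The tower of scales. -/
def tw (b : ℕ) : ℕ → ℕ
  | 0 => b
  | j + 1 => 2 ^ tw b j

def BLK_s : Prop := ∀ b : ℕ, 4 ≤ b → #(BV b) ≤ 4 * b ^ 5 ∧
  ∀ q ∈ RR b, bk b q ≤ q ∧ (b - 1) * q ≤ b * bk b q ∧ 2 ^ b ^ 2 ≤ 2 * bk b q ∧ q < 2 * bk b q

def DYA_s : Prop := ∃ i₀ : ℕ, ∀ i : ℕ, i₀ ≤ i →
  2 ^ i ≤ i * #{q ∈ Ico (2 ^ i) (2 ^ (i + 1)) | q.Prime} ∧
    i * #{q ∈ Ico (2 ^ i) (2 ^ (i + 1)) | q.Prime} ≤ 2 * 2 ^ i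

def LRB_s : Prop := ∃ b₀ : ℕ, ∀ b : ℕ, b₀ ≤ b → Real.log b ≤ LR b ∧
  ∃ v ∈ BV b, v ≤ 8 * b ^ 7 * #(BF b v)

def TK_s : Prop := ∀ (R : Finset ℕ) (x : ℕ), (∀ q ∈ R, q.Prime) → #R ≤ x →
  ∑ n ∈ Icc 1 x, ((#{q ∈ R | q ∣ n} : ℝ) - ∑ q ∈ R, 1 / (q : ℝ)) ^ 2 ≤
    3 * x * ∑ q ∈ R, 1 / (q : ℝ)

def DECA_s : Prop := ∀ p b : ℕ, 4 ≤ b → 2 ^ b ^ 4 < p →
  ∑ n ∈ Icc 1 (p - 1), (LR b * (lam n : ℝ) + (HH p b n : ℝ)) ^ 2 ≤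
    ((p : ℝ) - 1) * (18 * LR b + 8 * LR b ^ 2 / b)

def DEC_s : Prop := ∀ (p : ℕ) [Fact p.Prime] (b : ℕ) (T : Finset (Ch p)), 4 ≤ b → 2 ^ b ^ 4 < p →
  0 < LR b → ∑ χ ∈ T, mu p χ ≤ 40 * (1 / LR b + 1 / b) + 2 * #(BV b) / LR b ^ 2 *
    ∑ v ∈ BV b, ∑ χ ∈ T, ‖QQ p b v χ‖ ^ 2 * ‖AA p (XV p b v) χ‖ ^ 2

def GCD_s : Prop := ∀ (S : Finset ℕ) (P k x : ℕ), (∀ q ∈ S, q.Prime ∧ P ≤ q ∧ q < 2 * P) →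
  #{z ∈ (Fintype.piFinset (fun _ : Fin k => S) ×ˢ Icc 1 x) ×ˢ
      (Fintype.piFinset (fun _ : Fin k => S) ×ˢ Icc 1 x) |
    (∏ i, z.1.1 i) * z.1.2 = (∏ i, z.2.1 i) * z.2.2} ≤ x * P ^ k * (k + 1) ^ k

def MOMK_s : Prop := ∀ (p : ℕ) [Fact p.Prime] (S : Finset ℕ) (P k x : ℕ),
  (∀ q ∈ S, q.Prime ∧ P ≤ q ∧ q < 2 * P) → (2 * P) ^ k * x < p →
    ∑ χ : Ch p, ‖∑ q ∈ S, χ (q : ZMod p)‖ ^ (2 * k) * ‖AA p x χ‖ ^ 2 ≤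
      x * (P : ℝ) ^ k * ((k : ℝ) + 1) ^ k / ((p : ℝ) - 1)

def STA_s : Prop := ∀ (c u v k : ℕ) (α α' : ℝ), 1 ≤ c → 2 ^ c ^ 2 ≤ 2 * u → (2 * u) ^ k ≤ v →
  v < (2 * u) ^ (k + 1) → v < 2 ^ (2 ^ c) ^ 4 → 0 ≤ α → α + 3 / c ≤ α' →
    (v : ℝ) ^ (2 - 2 * α') * (u : ℝ) ^ (-(2 * k * (1 - α))) *
      ((u : ℝ) ^ k * ((k : ℝ) + 1) ^ k / v) ≤ 2 * u * (v : ℝ) ^ (-(1 / (c : ℝ)))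

def STB_s : Prop := ∃ c₀ : ℕ, ∀ c v : ℕ, c₀ ≤ c → 2 ^ (2 ^ c) ^ 2 ≤ 2 * v →
  256 * ((2 : ℝ) ^ c) ^ 10 * (c : ℝ) ^ 6 * 2 ^ c ^ 4 * (v : ℝ) ^ (-(1 / (c : ℝ))) ≤ 1

open Classical in
def STEP_s : Prop := ∃ c₀ : ℕ, ∀ (p : ℕ) [Fact p.Prime] (c : ℕ) (α α' : ℝ), c₀ ≤ c →
  2 ^ (2 ^ c) ^ 4 < p → 0 ≤ α → α + 3 / c ≤ α' →
    ∑ χ ∈ Sm p (2 ^ c) α' \ Sm p c α, mu p χ ≤ 100 / c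

open Classical in
def CNT_s : Prop := ∀ (p : ℕ) [Fact p.Prime] (b : ℕ) (α : ℝ), 4 ≤ b → 0 < α → α ≤ 1 / 2 →
  (b : ℝ) ^ 4 ≤ α * Nat.log 2 p → (Nat.log 2 (Nat.log 2 p) : ℝ) + 3 ≤ α * (b : ℝ) ^ 2 →
    (#((Sm p b α)ᶜ) : ℝ) ≤ (p : ℝ) ^ (5 * α)

def TWR_s : Prop := ∀ α : ℝ, 0 < α → ∃ B : ℕ, ∀ b : ℕ, B ≤ b → ∃ l₀ : ℕ, ∀ l : ℕ, l₀ ≤ l →
  ∃ j : ℕ, 4 ≤ tw b j ∧ (tw b j : ℝ) ^ 4 ≤ α * l ∧ (Nat.log 2 l : ℝ) + 3 ≤ α * (tw b j : ℝ) ^ 2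

variable [Sg]

def BASE_s : Prop := ∀ α : ℝ, 0 < α → ∃ b₀ : ℕ, ∀ (p : ℕ) [Fact p.Prime] (b : ℕ), b₀ ≤ b →
  2 ^ b ^ 4 < p → ∑ χ ∈ Sm p b α, mu p χ ≤ 8 * 3 ^ 2 ^ b ^ 4 * (od p : ℝ) / p

def IND_s : Prop := ∀ α e : ℝ, 0 < α → 0 < e → ∀ B : ℕ, ∃ b : ℕ, B ≤ b ∧ ∃ δ : ℝ, 0 < δ ∧
  ∀ (p : ℕ) [Fact p.Prime], (od p : ℝ) ≤ δ * p → ∀ j : ℕ, 2 ^ tw b j ^ 4 < p →
    ∑ χ ∈ Sm p (tw b j) α, mu p χ ≤ e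

open Classical in
/-- Few odd (or even) exceptions put the spectral measure on few characters. -/
def FEWM_s : Prop := ∀ γ e : ℝ, 0 < γ → 0 < e → ∃ δ : ℝ, 0 < δ ∧ ∃ p₀ : ℕ,
  ∀ (p : ℕ) [Fact p.Prime], p₀ ≤ p → (od p : ℝ) ≤ δ * p →
    ∃ Λ : Finset (Ch p), (#Λ : ℝ) ≤ (p : ℝ) ^ γ ∧ ∑ χ ∈ Λᶜ, mu p χ ≤ e

end

end Pool.Agent.G42
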