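import Pool.Agent.MP_b5e119_nt.G42.Defs

namespace Pool.Agent.G42

open Finset Filter Topology Pool.Agent.G60

theorem base_ev (α : ℝ) (hα : 0 < α) :
    ∃ b₀ : ℕ, ∀ b : ℕ, b₀ ≤ b → 32 * (b : ℝ) ^ 7 ≤ ((2 : ℝ) ^ b) ^ α := by
  have hc : 0 < Real.log 2 * α := mul_pos (Real.log_pos one_lt_two) hα
  have h := (isLittleO_pow_exp_pos_mul_atTop 7 hc).bound (show (0 : ℝ) < 1 / 32 by norm_num)
  have h2 := tendsto_natCast_atTop_atTop.eventually h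
  obtain ⟨b₀, hb⟩ := eventually_atTop.1 h2
  refine ⟨b₀, fun b hb' => ?_⟩
  have h3 := hb b hb'
  rw [Real.norm_of_nonneg (by positivity), Real.norm_of_nonneg (by positivity)] at h3
  have e : ((2 : ℝ) ^ b) ^ α = Real.exp (Real.log 2 * α * b) := by
    rw [Real.rpow_def_of_pos (by positivity), Real.log_pow]
    ring_nf
  rw [e]
  linarith

theorem base_sq (z : ℂ) : 1 + 2 * z.re ≤ ‖z - ((-1 : ℤ) : ℂ)‖ ^ 2 := by
  rw [Complex.sq_norm, Complex.normSq_apply]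
  simp only [Int.reduceNeg, Int.cast_neg, Int.cast_one, sub_neg_eq_add, Complex.add_re,
    Complex.one_re, Complex.add_im, Complex.one_im, add_zero]
  nlinarith [sq_nonneg z.re, sq_nonneg z.im]

theorem base_row [Sg] (hLRB : LRB_s) (hBLK : BLK_s) (hDIR : DIR_s) (hMU : MU_s) : BASE_s := by
  intro α hα
  obtain ⟨b₁, h1⟩ := hLRB
  obtain ⟨b₂, h2⟩ := base_ev α hα
  refine ⟨max 4 (max b₁ b₂), fun p _ b hb hp => ?_⟩
  have hpp : p.Prime := Fact.out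
  have hb4 : 4 ≤ b := le_trans (le_max_left _ _) hb
  have hb1 : b₁ ≤ b := le_trans (le_trans (le_max_left _ _) (le_max_right _ _)) hb
  have hb2 : b₂ ≤ b := le_trans (le_trans (le_max_right _ _) (le_max_right _ _)) hb
  obtain ⟨-, v, hv, hvN⟩ := h1 b hb1
  obtain ⟨q₀, hq₀, hq₀v⟩ := mem_image.1 hv
  have hv2 : 2 ^ b ^ 2 ≤ 2 * v := by
    have := ((hBLK b hb4).2 q₀ hq₀).2.2.1
    rwa [hq₀v] at this
  have hv3 : 2 ^ b ≤ v := by
    have h : 2 ^ (b + 1) ≤ 2 ^ b ^ 2 := Nat.pow_le_pow_right (by norm_num) (by nlinarith)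
    rw [pow_succ] at h
    omega
  have hv3' : (2 : ℝ) ^ b ≤ v := by exact_mod_cast hv3
  have hv0 : (0 : ℝ) < v := lt_of_lt_of_le (by positivity) hv3'
  have hb0 : (0 : ℝ) < b := by exact_mod_cast (by omega : 0 < b)
  have hvN' : (v : ℝ) ≤ 8 * (b : ℝ) ^ 7 * #(BF b v) := by exact_mod_cast hvN
  have hpow : 32 * (b : ℝ) ^ 7 ≤ (v : ℝ) ^ α :=
    (h2 b hb2).trans (Real.rpow_le_rpow (by positivity) hv3' hα.le)
  have hsplit : (v : ℝ) ^ α * (v : ℝ) ^ (1 - α) = v := by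
    rw [← Real.rpow_add hv0]; simp
  have hw0 : 0 < (v : ℝ) ^ (1 - α) := Real.rpow_pos_of_pos hv0 _
  have hN : 4 * (v : ℝ) ^ (1 - α) ≤ #(BF b v) := by
    have h7 : 0 < 8 * (b : ℝ) ^ 7 := by positivity
    refine le_of_mul_le_mul_left ?_ h7
    have := mul_le_mul_of_nonneg_right hpow hw0.le
    linarith
  have hN0 : (0 : ℝ) < #(BF b v) := by linarith
  have hp2 : (2 : ℝ) ≤ p := by exact_mod_cast hpp.two_le
  have hq : ∀ q ∈ BF b v, q.Prime ∧ q < 2 ^ b ^ 4 := by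
    intro q hq
    have h := (mem_filter.1 hq).1
    have h' := mem_filter.1 h
    exact ⟨h'.2, (mem_Ico.1 h'.1).2⟩
  have hmu : ∀ χ : Ch p, 0 ≤ mu p χ := fun χ => by unfold mu; positivity
  have hA : ∀ χ ∈ Sm p b α, (#(BF b v) : ℝ) ≤
      2 * ∑ q ∈ BF b v, ‖χ (q : ZMod p) - (lam q : ℂ)‖ ^ 2 := by
    intro χ hχ
    have hχ' : ‖QQ p b v χ‖ ≤ (v : ℝ) ^ (1 - α) := by
      unfold Sm at hχ
      exact (mem_filter.1 hχ).2 v hv
    have hre : -‖QQ p b v χ‖ ≤ (QQ p b v χ).re := (abs_le.1 (Complex.abs_re_le_norm _)).1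
    have hs : ∑ q ∈ BF b v, (1 + 2 * (χ (q : ZMod p)).re) ≤
        ∑ q ∈ BF b v, ‖χ (q : ZMod p) - (lam q : ℂ)‖ ^ 2 := by
      refine sum_le_sum fun q hq' => ?_
      rw [lam_prime (hq q hq').1]
      exact base_sq _
    rw [sum_add_distrib, ← mul_sum, ← Complex.re_sum] at hs
    simp only [sum_const, nsmul_eq_mul, mul_one] at hs
    have hQ : QQ p b v χ = ∑ q ∈ BF b v, χ (q : ZMod p) := rfl
    rw [← hQ] at hs
    linarith
  have hB : ∀ q ∈ BF b v, ∑ χ : Ch p, mu p χ * ‖χ (q : ZMod p) - (lam q : ℂ)‖ ^ 2 ≤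
      4 * 3 ^ 2 ^ b ^ 4 * (od p : ℝ) / p := by
    intro q hq'
    obtain ⟨hqp, hql⟩ := hq q hq'
    have hqlt : q < p := hql.trans hp
    have hnd : ¬p ∣ q := Nat.not_dvd_of_pos_of_lt hqp.pos hqlt
    have hm := (hMU p).2 q hnd
    have hd := hDIR p q hqp.pos hqlt
    have h3 : 3 ^ (q - 1) * 3 ≤ 3 ^ 2 ^ b ^ 4 := by
      rw [← pow_succ]
      exact Nat.pow_le_pow_right (by norm_num) (by have := hqp.pos; omega)
    have h4 : 3 * bad p q ≤ 3 ^ 2 ^ b ^ 4 * od p := by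
      have := Nat.mul_le_mul_right (od p) h3
      nlinarith [Nat.zero_le (od p)]
    have h4' : 3 * (bad p q : ℝ) ≤ 3 ^ 2 ^ b ^ 4 * (od p : ℝ) := by exact_mod_cast h4
    have hS : 0 ≤ ∑ χ : Ch p, mu p χ * ‖χ (q : ZMod p) - (lam q : ℂ)‖ ^ 2 :=
      sum_nonneg fun χ _ => mul_nonneg (hmu χ) (by positivity)
    rw [le_div_iff₀ (by linarith)]
    have hbad : (0 : ℝ) ≤ bad p q := by positivity
    nlinarith
  refine le_of_mul_le_mul_left ?_ hN0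
  calc (#(BF b v) : ℝ) * ∑ χ ∈ Sm p b α, mu p χ
      = ∑ χ ∈ Sm p b α, mu p χ * #(BF b v) := by rw [mul_comm, sum_mul]
    _ ≤ ∑ χ ∈ Sm p b α, mu p χ * (2 * ∑ q ∈ BF b v, ‖χ (q : ZMod p) - (lam q : ℂ)‖ ^ 2) :=
        sum_le_sum fun χ hχ => mul_le_mul_of_nonneg_left (hA χ hχ) (hmu χ)
    _ ≤ ∑ χ : Ch p, mu p χ * (2 * ∑ q ∈ BF b v, ‖χ (q : ZMod p) - (lam q : ℂ)‖ ^ 2) :=
        sum_le_sum_of_subset_of_nonneg (subset_univ _) fun χ _ _ =>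
          mul_nonneg (hmu χ) (by positivity)
    _ = 2 * ∑ q ∈ BF b v, ∑ χ : Ch p, mu p χ * ‖χ (q : ZMod p) - (lam q : ℂ)‖ ^ 2 := by
        rw [sum_comm, mul_sum]
        refine sum_congr rfl fun χ _ => ?_
        rw [← mul_sum]
        ring
    _ ≤ 2 * ∑ q ∈ BF b v, 4 * 3 ^ 2 ^ b ^ 4 * (od p : ℝ) / p :=
        mul_le_mul_of_nonneg_left (sum_le_sum hB) (by norm_num)
    _ = (#(BF b v) : ℝ) * (8 * 3 ^ 2 ^ b ^ 4 * (od p : ℝ) / p) := by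
        rw [sum_const, nsmul_eq_mul]
        ring

end Pool.Agent.G42
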