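import Pool.Agent.MP_b5e119_nt.G42.Defs

namespace Pool.Agent.G42

open Finset Filter Topology Pool.Agent.G60

theorem dec_sum {M : Type} [AddCommMonoid M] (p : ℕ) [NeZero p] (F : ℕ → M) :
    ∑ a : ZMod p, (if a = 0 then 0 else F a.val) = ∑ n ∈ Icc 1 (p - 1), F n := by
  have e : ∑ a : ZMod p, (if a = 0 then 0 else F a.val) =
      ∑ a ∈ univ.filter (fun a : ZMod p => a ≠ 0), F a.val := by
    rw [sum_filter]
    exact sum_congr rfl fun a _ => by by_cases h : a = 0 <;> simp [h]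
  rw [e]
  have hp : 0 < p := Nat.pos_of_ne_zero (NeZero.ne p)
  refine sum_nbij' (fun a => a.val) (fun n => (n : ZMod p)) ?_ ?_ ?_ ?_ ?_
  · intro a ha
    have h0 : a ≠ 0 := (mem_filter.1 ha).2
    have h1 := ZMod.val_lt a
    have h2 : a.val ≠ 0 := fun h => h0 ((ZMod.val_eq_zero a).1 h)
    exact mem_Icc.2 ⟨by omega, by omega⟩
  · intro n hn
    have := mem_Icc.1 hn
    refine mem_filter.2 ⟨mem_univ _, ?_⟩
    rw [Ne, ZMod.natCast_eq_zero_iff]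
    exact Nat.not_dvd_of_pos_of_lt (by omega) (by omega)
  · intro a _
    exact ZMod.natCast_zmod_val a
  · intro n hn
    have := mem_Icc.1 hn
    exact ZMod.val_cast_of_lt (by omega)
  · intro a _
    rfl

theorem dec_inner (y q X : ℕ) (hq : 0 < q) (hX : q * X ≤ y) (G : ℕ → ℕ → ℂ) :
    ∑ n ∈ Icc 1 y, (if q ∣ n ∧ n / q ≤ X then G (n / q) n else 0) =
      ∑ a ∈ Icc 1 X, G a (q * a) := by
  rw [← sum_filter]
  refine sum_nbij' (fun n => n / q) (fun a => q * a) ?_ ?_ ?_ ?_ ?_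
  · intro n hn
    obtain ⟨h1, ⟨k, rfl⟩, h3⟩ := mem_filter.1 hn
    have h4 := (mem_Icc.1 h1).1
    refine mem_Icc.2 ⟨?_, h3⟩
    show 1 ≤ q * k / q
    rw [Nat.mul_div_cancel_left _ hq]
    exact Nat.pos_of_ne_zero fun h => by rw [h] at h4; omega
  · intro a ha
    obtain ⟨h1, h2⟩ := mem_Icc.1 ha
    refine mem_filter.2 ⟨mem_Icc.2 ⟨Nat.mul_pos hq h1, le_trans (Nat.mul_le_mul_left _ h2) hX⟩,
      Dvd.intro _ rfl, ?_⟩
    rw [Nat.mul_div_cancel_left _ hq]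
    exact h2
  · intro n hn
    exact Nat.mul_div_cancel' (mem_filter.1 hn).2.1
  · intro a _
    exact Nat.mul_div_cancel_left _ hq
  · intro n hn
    show G (n / q) n = G (n / q) (q * (n / q))
    rw [Nat.mul_div_cancel' (mem_filter.1 hn).2.1]

theorem dec_co (hBLK : BLK_s) (p : ℕ) [Fact p.Prime] (b : ℕ) (hb : 4 ≤ b) (χ : Ch p) :
    co p (fun a => if a = 0 then 0 else ((HH p b a.val : ℤ) : ℂ)) χ =
      ∑ v ∈ BV b, (starRingEnd ℂ) (QQ p b v χ) * AA p (XV p b v) χ := by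
  have e1 : ∑ a : ZMod p, (if a = 0 then 0 else ((HH p b a.val : ℤ) : ℂ)) * (starRingEnd ℂ) (χ a) =
      ∑ n ∈ Icc 1 (p - 1), ((HH p b n : ℤ) : ℂ) * (starRingEnd ℂ) (χ (n : ZMod p)) := by
    rw [← dec_sum p fun n => ((HH p b n : ℤ) : ℂ) * (starRingEnd ℂ) (χ (n : ZMod p))]
    refine sum_congr rfl fun a _ => ?_
    by_cases h : a = 0
    · rw [if_pos h, if_pos h, zero_mul]
    · rw [if_neg h, if_neg h, ZMod.natCast_zmod_val]
  have e2 : ∀ q ∈ RR b, ∑ n ∈ Icc 1 (p - 1), (if q ∣ n ∧ n / q ≤ XV p b (bk b q) then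
      (lam (n / q) : ℂ) * (starRingEnd ℂ) (χ (n : ZMod p)) else 0) =
      (starRingEnd ℂ) (χ (q : ZMod p)) *
        ∑ a ∈ Icc 1 (XV p b (bk b q)), (lam a : ℂ) * (starRingEnd ℂ) (χ (a : ZMod p)) := by
    intro q hq
    have hq0 : 0 < q := (mem_filter.1 hq).2.pos
    have h1 := ((hBLK b hb).2 q hq).2.1
    have hX : q * XV p b (bk b q) ≤ p - 1 := by
      have h2 : XV p b (bk b q) * (b * bk b q) ≤ (b - 1) * (p - 1) := Nat.div_mul_le_self _ _
      have h3 : (b - 1) * (q * XV p b (bk b q)) ≤ (b - 1) * (p - 1) := by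
        calc (b - 1) * (q * XV p b (bk b q)) = XV p b (bk b q) * ((b - 1) * q) := by ring
          _ ≤ XV p b (bk b q) * (b * bk b q) := Nat.mul_le_mul_left _ h1
          _ ≤ _ := h2
      exact Nat.le_of_mul_le_mul_left h3 (by omega)
    rw [dec_inner (p - 1) q _ hq0 hX
      fun a n => (lam a : ℂ) * (starRingEnd ℂ) (χ (n : ZMod p)), mul_sum]
    refine sum_congr rfl fun a _ => ?_
    rw [Nat.cast_mul, map_mul, map_mul]
    ring
  have e3 : ∑ n ∈ Icc 1 (p - 1), ((HH p b n : ℤ) : ℂ) * (starRingEnd ℂ) (χ (n : ZMod p)) =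
      ∑ q ∈ RR b, (starRingEnd ℂ) (χ (q : ZMod p)) *
        ∑ a ∈ Icc 1 (XV p b (bk b q)), (lam a : ℂ) * (starRingEnd ℂ) (χ (a : ZMod p)) := by
    rw [← sum_congr rfl e2, sum_comm]
    refine sum_congr rfl fun n _ => ?_
    unfold HH
    rw [Int.cast_sum, sum_mul]
    refine sum_congr rfl fun q _ => ?_
    split_ifs
    · rfl
    · rw [Int.cast_zero, zero_mul]
  unfold co
  rw [e1, e3, ← sum_fiberwise_of_maps_to (s := RR b) (t := BV b) (g := bk b)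
    (fun q hq => mem_image_of_mem _ hq), sum_div]
  refine sum_congr rfl fun v _ => ?_
  unfold QQ AA BF
  rw [map_sum, sum_mul, sum_div]
  refine sum_congr rfl fun q hq => ?_
  rw [(mem_filter.1 hq).2, mul_div_assoc]

theorem dec_row (hPAR : PAR_s) (hBLK : BLK_s) (hDECA : DECA_s) : DEC_s := by
  intro p _ b T hb hp hL
  have hp1 : (0 : ℝ) < (p : ℝ) - 1 := by
    have : (2 : ℝ) ≤ p := by exact_mod_cast (Fact.out : p.Prime).two_le
    linarith
  have hb0 : (0 : ℝ) < b := by exact_mod_cast (by omega : 0 < b)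
  have hA := hDECA p b hb hp
  set L : ℝ := LR b with hLdef
  set h : ZMod p → ℂ := fun a => if a = 0 then 0 else ((HH p b a.val : ℤ) : ℂ) with hh
  set g : ZMod p → ℂ := fun a => (L : ℂ) * (ff p a : ℂ) + h a with hg
  have hg0 : g 0 = 0 := by simp [hg, hh, ff]
  have hpar : ((p : ℝ) - 1) * ∑ χ : Ch p, ‖co p g χ‖ ^ 2 =
      ∑ n ∈ Icc 1 (p - 1), (L * (lam n : ℝ) + (HH p b n : ℝ)) ^ 2 := by
    rw [← (hPAR p).2 (co p g), ← dec_sum p fun n => (L * (lam n : ℝ) + (HH p b n : ℝ)) ^ 2]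
    refine sum_congr rfl fun a _ => ?_
    rw [← (hPAR p).1 g hg0 a]
    by_cases h0 : a = 0
    · rw [if_pos h0, h0, hg0]; simp
    · have e : g a = ((L * (lam a.val : ℝ) + (HH p b a.val : ℝ) : ℝ) : ℂ) := by
        simp only [hg, hh, ff, if_neg h0]
        push_cast
        rfl
      rw [if_neg h0, e, Complex.norm_real, Real.norm_eq_abs, sq_abs]
  have hG : ∑ χ : Ch p, ‖co p g χ‖ ^ 2 ≤ 18 * L + 8 * L ^ 2 / b :=
    le_of_mul_le_mul_left (by rw [hpar]; exact hA) hp1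
  have hlin : ∀ χ : Ch p, (L : ℂ) * co p (fun a => (ff p a : ℂ)) χ = co p g χ - co p h χ := by
    intro χ
    unfold co
    rw [← sub_div, ← sum_sub_distrib, ← mul_div_assoc, mul_sum]
    refine congrArg (fun z => z / ((p : ℂ) - 1)) (sum_congr rfl fun a _ => ?_)
    simp only [hg]
    ring
  have hpt : ∀ χ : Ch p, L ^ 2 * mu p χ ≤ 2 * ‖co p g χ‖ ^ 2 + 2 * #(BV b) *
      ∑ v ∈ BV b, ‖QQ p b v χ‖ ^ 2 * ‖AA p (XV p b v) χ‖ ^ 2 := by
    intro χ
    have a1 : L ^ 2 * mu p χ = ‖co p g χ - co p h χ‖ ^ 2 := by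
      rw [← hlin χ, norm_mul, mul_pow, Complex.norm_real, Real.norm_eq_abs, sq_abs, mu]
    have a2 : ‖co p g χ - co p h χ‖ ^ 2 ≤ (‖co p g χ‖ + ‖co p h χ‖) ^ 2 :=
      pow_le_pow_left₀ (norm_nonneg _) (norm_sub_le _ _) 2
    have a3 : ‖co p h χ‖ ≤ ∑ v ∈ BV b, ‖QQ p b v χ‖ * ‖AA p (XV p b v) χ‖ := by
      rw [hh, dec_co hBLK p b hb χ]
      refine le_trans (norm_sum_le _ _) (le_of_eq (sum_congr rfl fun v _ => ?_))
      rw [norm_mul, RCLike.norm_conj]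
    have a4 : ‖co p h χ‖ ^ 2 ≤ #(BV b) *
        ∑ v ∈ BV b, ‖QQ p b v χ‖ ^ 2 * ‖AA p (XV p b v) χ‖ ^ 2 := by
      refine le_trans (pow_le_pow_left₀ (norm_nonneg _) a3 2)
        (le_trans sq_sum_le_card_mul_sum_sq (le_of_eq ?_))
      exact congrArg _ (sum_congr rfl fun v _ => mul_pow _ _ _)
    nlinarith [sq_nonneg (‖co p g χ‖ - ‖co p h χ‖)]
  have hs := sum_le_sum fun χ (_ : χ ∈ T) => hpt χ
  rw [← mul_sum, sum_add_distrib, ← mul_sum, ← mul_sum, sum_comm] at hs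
  have hT : ∑ χ ∈ T, ‖co p g χ‖ ^ 2 ≤ ∑ χ : Ch p, ‖co p g χ‖ ^ 2 :=
    sum_le_sum_of_subset_of_nonneg (subset_univ _) fun χ _ _ => by positivity
  set W : ℝ := ∑ v ∈ BV b, ∑ χ ∈ T, ‖QQ p b v χ‖ ^ 2 * ‖AA p (XV p b v) χ‖ ^ 2 with hW
  have hL2 : 0 < L ^ 2 := by positivity
  refine le_of_mul_le_mul_left ?_ hL2
  have e : L ^ 2 * (40 * (1 / L + 1 / b) + 2 * #(BV b) / L ^ 2 * W) =
      40 * L + 40 * (L ^ 2 / b) + 2 * #(BV b) * W := by
    field_simp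
  have c1 : 0 ≤ L ^ 2 / b := by positivity
  have c2 : 8 * L ^ 2 / b = 8 * (L ^ 2 / b) := by ring
  rw [e]
  linarith

end Pool.Agent.G42
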