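import Pool.Agent.MP_b5e119_nt.G42.ZDefs

/-! Row HEC of campaign h42w: Hecke's lower bound for `L(1, χ)` from the sign of `L(β, χ)`. -/

namespace Pool.Agent.G42

open Finset Filter Topology Pool.Agent.G60

theorem hec_abs (p : ℕ) [Fact p.Prime] (n : ℕ) : |(leg p n : ℝ)| ≤ 1 := by
  have h : |leg p n| ≤ 1 := by
    unfold leg
    rcases eq_or_ne (((n : ℤ) : ZMod p)) 0 with h | h
    · rw [(legendreSym.eq_zero_iff p _).2 h]; simp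
    · rcases legendreSym.eq_one_or_neg_one p h with e | e <;> rw [e] <;> simp
  exact_mod_cast h

theorem hec_tail (hT : TLB_s) (p : ℕ) [Fact p.Prime] (β L : ℝ) (U : ℕ) (h2 : 2 < p) (hβ : 0 < β)
    (hU : 0 < U) (h : Tendsto (fun N : ℕ => ∑ n ∈ Icc 1 N, (leg p n : ℝ) * (n : ℝ) ^ (-β))
      atTop (𝓝 L)) :
    |L - ∑ n ∈ Icc 1 U, (leg p n : ℝ) * (n : ℝ) ^ (-β)| ≤ 2 * p * (U : ℝ) ^ (-β) :=
  le_of_tendsto ((h.sub_const _).abs)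
    ((eventually_ge_atTop U).mono fun V hV => hT p β U V h2 hβ hU hV)

theorem hec_small (K : ℝ) : ∃ p₀ : ℕ, ∀ p : ℕ, p₀ ≤ p →
    K * ((Real.log p + 1) / p) ≤ 1 / 2 ∧ K ≤ Real.log p := by
  have t1 : Tendsto (fun x : ℝ => K * (Real.log x / x + x⁻¹)) atTop (𝓝 (K * (0 + 0))) :=
    (Real.isLittleO_log_id_atTop.tendsto_div_nhds_zero.add tendsto_inv_atTop_zero).const_mul K
  have t2 := (t1.comp tendsto_natCast_atTop_atTop).eventually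
    (ge_mem_nhds (show K * (0 + 0) < 1 / 2 by norm_num))
  have t3 := (Real.tendsto_log_atTop.comp tendsto_natCast_atTop_atTop).eventually_ge_atTop K
  obtain ⟨p₀, h⟩ := eventually_atTop.1 (t2.and t3)
  refine ⟨p₀, fun p hp => ⟨le_of_eq_of_le ?_ (h p hp).1, (h p hp).2⟩⟩
  simp only [Function.comp]
  ring

theorem hec_sum (hH : HYP_s) (hT : TLB_s) (p : ℕ) [Fact p.Prime] (β c : ℝ) (x U : ℕ) (h2 : 2 < p)
    (hβ : 0 < β) (hU : 0 < U) (hx : U ≤ x)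
    (hc : ∀ y : ℝ, 1 ≤ y →
      |∑ m ∈ Icc 1 ⌊y⌋₊, (m : ℝ) ^ (-β) - y ^ (1 - β) / (1 - β) - c| ≤ 2 * y ^ (-β)) :
    ∑ n ∈ Icc 1 x, rr p n * (n : ℝ) ^ (-β) ≤
      (x : ℝ) ^ (1 - β) / (1 - β) * ∑ n ∈ Icc 1 U, (leg p n : ℝ) * (n : ℝ) ^ (-(1 : ℝ)) +
      c * ∑ n ∈ Icc 1 U, (leg p n : ℝ) * (n : ℝ) ^ (-β) + U * (2 * (x : ℝ) ^ (-β)) +
      (∑ m ∈ Icc 1 (x / U), (m : ℝ) ^ (-β)) * (2 * p * (U : ℝ) ^ (-β)) := by
  have x0 : (0 : ℝ) < x := Nat.cast_pos.2 (by omega)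
  have e := hH (fun d => (leg p d : ℝ) * (d : ℝ) ^ (-β)) (fun m => (m : ℝ) ^ (-β)) x U hU hx
  have e1 : ∑ n ∈ Icc 1 x, rr p n * (n : ℝ) ^ (-β) = ∑ n ∈ Icc 1 x, ∑ y ∈ n.divisorsAntidiagonal,
      ((leg p y.1 : ℝ) * (y.1 : ℝ) ^ (-β)) * (y.2 : ℝ) ^ (-β) := by
    refine sum_congr rfl fun n _ => ?_
    rw [rr, sum_mul, ← Nat.sum_divisorsAntidiagonal (fun d _ => (leg p d : ℝ) * (n : ℝ) ^ (-β))]
    refine sum_congr rfl fun y hy => ?_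
    rw [← (Nat.mem_divisorsAntidiagonal.1 hy).1, Nat.cast_mul,
      Real.mul_rpow (Nat.cast_nonneg _) (Nat.cast_nonneg _), mul_assoc]
  rw [e1, e]
  refine add_le_add ?_ ?_
  · have hd : ∀ d ∈ Icc 1 U, (leg p d : ℝ) * (d : ℝ) ^ (-β) * ∑ m ∈ Icc 1 (x / d), (m : ℝ) ^ (-β) ≤
        (x : ℝ) ^ (1 - β) / (1 - β) * ((leg p d : ℝ) * (d : ℝ) ^ (-(1 : ℝ))) +
        c * ((leg p d : ℝ) * (d : ℝ) ^ (-β)) + 2 * (x : ℝ) ^ (-β) := by
      intro d hd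
      obtain ⟨d1, d2⟩ := mem_Icc.1 hd
      have d0 : (0 : ℝ) < d := Nat.cast_pos.2 d1
      have y1 : (1 : ℝ) ≤ (x : ℝ) / d := (one_le_div d0).2 (Nat.cast_le.2 (d2.trans hx))
      have k := hc _ y1
      rw [Nat.floor_div_eq_div] at k
      set B := ∑ m ∈ Icc 1 (x / d), (m : ℝ) ^ (-β)
      have a1 : (d : ℝ) ^ (-β) * ((x : ℝ) / d) ^ (1 - β) = (x : ℝ) ^ (1 - β) * (d : ℝ) ^ (-(1 : ℝ)) := by
        rw [Real.div_rpow x0.le d0.le, div_eq_mul_inv, ← Real.rpow_neg d0.le, mul_left_comm,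
          ← Real.rpow_add d0]
        congr 2
        ring
      have a2 : (d : ℝ) ^ (-β) * ((x : ℝ) / d) ^ (-β) ≤ (x : ℝ) ^ (-β) * 1 := by
        rw [Real.div_rpow x0.le d0.le, mul_div_assoc', mul_comm, mul_div_assoc,
          div_self (Real.rpow_pos_of_pos d0 _).ne']
      have dp : 0 < (d : ℝ) ^ (-β) := Real.rpow_pos_of_pos d0 _
      have a3 : (leg p d : ℝ) * (d : ℝ) ^ (-β) * (B - ((x : ℝ) / d) ^ (1 - β) / (1 - β) - c) ≤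
          2 * (x : ℝ) ^ (-β) := by
        refine (le_abs_self _).trans ?_
        rw [abs_mul, abs_mul, abs_of_pos dp]
        have := mul_le_mul (mul_le_mul_of_nonneg_right (hec_abs p d) dp.le) k (abs_nonneg _)
          (by positivity)
        linarith
      have a4 : (leg p d : ℝ) * (d : ℝ) ^ (-β) * (((x : ℝ) / d) ^ (1 - β) / (1 - β)) =
          (x : ℝ) ^ (1 - β) / (1 - β) * ((leg p d : ℝ) * (d : ℝ) ^ (-(1 : ℝ))) := by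
        rw [mul_assoc, ← mul_div_assoc, a1]; ring
      linarith
    refine (sum_le_sum hd).trans (le_of_eq ?_)
    rw [sum_add_distrib, sum_add_distrib, ← mul_sum, ← mul_sum, sum_const, Nat.card_Icc,
      nsmul_eq_mul]
    simp
  · rw [sum_mul]
    refine sum_le_sum fun m hm => mul_le_mul_of_nonneg_left ((le_abs_self _).trans ?_) (by positivity)
    obtain ⟨m1, m2⟩ := mem_Icc.1 hm
    refine hT p β U (x / m) h2 hβ hU ?_
    rw [Nat.le_div_iff_mul_le m1, mul_comm]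
    exact (Nat.le_div_iff_mul_le hU).1 m2

theorem hec_row (hH : HYP_s) (hL : LID_s) (hZ : ZB_s) (hT : TLB_s) : HEC_s := by
  intro η hη
  obtain ⟨E, hE⟩ : ∃ E, E = Real.exp η := ⟨_, rfl⟩
  have E1 : 1 ≤ E := hE ▸ Real.one_le_exp hη.le
  obtain ⟨p₀, h₀⟩ := hec_small (6 * E ^ 4 / η + 6 * E ^ 4 + 2 * η)
  refine ⟨2 * (E ^ 4 / η), by positivity, max p₀ 3, fun p hp hp₀ L L' hL1 hL2 hL' => ?_⟩
  obtain ⟨k1, k2⟩ := h₀ p (le_of_max_le_left hp₀)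
  have h2 : 2 < p := le_of_max_le_right hp₀
  have P1 : (1 : ℝ) ≤ p := Nat.one_le_cast.2 (by omega)
  have P0 : (0 : ℝ) < p := by linarith
  obtain ⟨w, hw⟩ : ∃ w, w = Real.log p := ⟨_, rfl⟩
  rw [← hw] at k1 k2 hL2 ⊢
  have w2 : 2 * η ≤ w := by
    have : 0 ≤ 6 * E ^ 4 / η + 6 * E ^ 4 := by positivity
    linarith
  have w0 : 0 < w := by linarith
  obtain ⟨β, hβ⟩ : ∃ β, β = 1 - η / w := ⟨_, rfl⟩
  rw [← hβ] at hL2
  have d0 : 0 < η / w := by positivity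
  have d1 : η / w ≤ 1 / 2 := by rw [div_le_iff₀ w0]; linarith
  have b1 : 1 - β = η / w := by linarith
  have β0 : 0 < β := by linarith
  obtain ⟨c, c1, c2, hc⟩ := hZ β (by linarith) (by linarith)
  have pw : ∀ k : ℕ, ((p ^ k : ℕ) : ℝ) ^ (1 - β) = E ^ k := fun k => by
    rw [Nat.cast_pow, Real.rpow_def_of_pos (pow_pos P0 k), Real.log_pow, ← hw, b1, hE,
      ← Real.exp_nat_mul]
    congr 1
    field_simp
  have pw' : ∀ k : ℕ, ((p ^ k : ℕ) : ℝ) ^ (-β) = E ^ k / (p : ℝ) ^ k := fun k => by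
    have q0 : (0 : ℝ) < ((p ^ k : ℕ) : ℝ) := by positivity
    rw [show -β = (1 - β) - 1 by ring, Real.rpow_sub q0, pw k, Real.rpow_one, Nat.cast_pow]
  have U0 : 0 < p ^ 2 := by positivity
  have hx : p ^ 2 ≤ p ^ 4 := Nat.pow_le_pow_right (by omega) (by norm_num)
  have S := hec_sum hH hT p β c (p ^ 4) (p ^ 2) h2 β0 U0 hx hc
  have hL1' : Tendsto (fun N : ℕ => ∑ n ∈ Icc 1 N, (leg p n : ℝ) * (n : ℝ) ^ (-(1 : ℝ)))
      atTop (𝓝 L) := by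
    refine hL1.congr fun N => sum_congr rfl fun n _ => ?_
    rw [Real.rpow_neg_one, div_eq_mul_inv]
  have T1 := hec_tail hT p 1 L (p ^ 2) h2 one_pos U0 hL1'
  have T2 := hec_tail hT p β L' (p ^ 2) h2 β0 U0 hL2
  have B := hc ((p ^ 2 : ℕ) : ℝ) (Nat.one_le_cast.2 U0)
  rw [Nat.floor_natCast] at B
  have dv : p ^ 4 / p ^ 2 = p ^ 2 := by
    rw [show p ^ 4 = p ^ 2 * p ^ 2 by ring, Nat.mul_div_cancel _ U0]
  have B1 : ((p ^ 2 : ℕ) : ℝ) ^ (-β) ≤ 1 :=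
    Real.rpow_le_one_of_one_le_of_nonpos (Nat.one_le_cast.2 U0) (by linarith)
  have hB : ∑ m ∈ Icc 1 (p ^ 2), (m : ℝ) ^ (-β) ≤ E ^ 2 * (w / η) + 2 := by
    have := (abs_le.1 B).2
    rw [pw 2, b1, div_div_eq_mul_div, mul_div_assoc] at this
    linarith
  rw [dv, pw 4, pw' 4, pw' 2, b1, div_div_eq_mul_div, mul_div_assoc] at S
  rw [pw' 2] at T2
  rw [Real.rpow_neg_one] at T1
  rw [b1, one_div_div] at c1
  have Z1 : 1 ≤ ZZ p p := by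
    have := single_le_sum (f := fun n : ℕ => rr p n / n)
      (fun n _ => div_nonneg ((hL p).1 n) (Nat.cast_nonneg n)) (mem_Icc.2 ⟨le_rfl, (by omega : 1 ≤ p)⟩)
    rw [(hL p).2.1] at this
    simpa [ZZ] using this
  have Z2 : ZZ p p ≤ ∑ n ∈ Icc 1 (p ^ 4), rr p n * (n : ℝ) ^ (-β) := by
    refine le_trans (sum_le_sum fun n hn => ?_) (sum_le_sum_of_subset_of_nonneg
      (Icc_subset_Icc_right (Nat.le_self_pow (by norm_num) p))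
      fun n _ _ => mul_nonneg ((hL p).1 n) (by positivity))
    rw [div_eq_mul_inv, ← Real.rpow_neg_one]
    exact mul_le_mul_of_nonneg_left (Real.rpow_le_rpow_of_exponent_le
      (Nat.one_le_cast.2 (mem_Icc.1 hn).1) (by linarith)) ((hL p).1 n)
  set A₁ := ∑ n ∈ Icc 1 (p ^ 2), (leg p n : ℝ) * (n : ℝ) ^ (-(1 : ℝ))
  set A₂ := ∑ n ∈ Icc 1 (p ^ 2), (leg p n : ℝ) * (n : ℝ) ^ (-β)
  obtain ⟨u, hu⟩ : ∃ u : ℝ, u = (p : ℝ)⁻¹ := ⟨_, rfl⟩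
  have u0 : 0 < u := hu ▸ inv_pos.2 P0
  have u1 : u ≤ 1 := hu ▸ inv_le_one_of_one_le₀ P1
  obtain ⟨t, ht⟩ : ∃ t : ℝ, t = w / η := ⟨_, rfl⟩
  have t0 : 0 < t := ht ▸ div_pos w0 hη
  have f1 : 2 * (p : ℝ) * ((p ^ 2 : ℕ) : ℝ)⁻¹ = 2 * u := by rw [hu]; push_cast; field_simp
  have f2 : 2 * (p : ℝ) * (E ^ 2 / (p : ℝ) ^ 2) = 2 * E ^ 2 * u := by rw [hu]; field_simp
  have f3 : ((p ^ 2 : ℕ) : ℝ) * (2 * (E ^ 4 / (p : ℝ) ^ 4)) = 2 * E ^ 4 * u * u := by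
    rw [hu]; push_cast; field_simp
  rw [f1] at T1
  rw [f2] at T2
  rw [f2, f3, ← ht] at S
  rw [← ht] at hB c1
  have E2 : E ^ 2 ≤ E ^ 4 := pow_le_pow_right₀ E1 (by norm_num)
  have g1 : E ^ 4 * t * A₁ ≤ E ^ 4 * t * (L + 2 * u) :=
    mul_le_mul_of_nonneg_left (by linarith [(abs_le.1 T1).1]) (by positivity)
  have g2 : c * A₂ ≤ t * (2 * E ^ 4 * u) := by
    have a : -(2 * E ^ 2 * u) ≤ A₂ := by linarith [(abs_le.1 T2).2]
    have b : 0 ≤ 2 * E ^ 2 * u := by positivity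
    have e : 2 * E ^ 2 * u ≤ 2 * E ^ 4 * u := by gcongr
    nlinarith
  have g3 : (∑ m ∈ Icc 1 (p ^ 2), (m : ℝ) ^ (-β)) * (2 * E ^ 2 * u) ≤
      (E ^ 2 * t + 2) * (2 * E ^ 2 * u) := mul_le_mul_of_nonneg_right hB (by positivity)
  have g4 : 2 * E ^ 4 * u * u ≤ 2 * E ^ 4 * u := mul_le_of_le_one_right (by positivity) u1
  have g5 : E ^ 2 * u ≤ E ^ 4 * u := by gcongr
  have g6 : 6 * E ^ 4 * t * u + 6 * E ^ 4 * u ≤ 1 / 2 := by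
    refine le_trans ?_ k1
    rw [div_eq_mul_inv (w + 1), ← hu, ht]
    have a : (6 * E ^ 4 / η + 6 * E ^ 4 + 2 * η) * ((w + 1) * u) =
      6 * E ^ 4 * (w / η) * u + 6 * E ^ 4 * u +
        (6 * E ^ 4 / η + 6 * E ^ 4 * w + 2 * η * (w + 1)) * u := by ring
    have b : 0 ≤ (6 * E ^ 4 / η + 6 * E ^ 4 * w + 2 * η * (w + 1)) * u := by positivity
    linarith
  have g7 : 2 * (E ^ 4 / η) * L * w = 2 * (E ^ 4 * t * L) := by rw [ht]; ring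
  rw [g7]
  nlinarith

end Pool.Agent.G42
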