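import Pool.Agent.MP_b5e119_nt.G42.ZDefs
import Pool.Agent.MP_48b1c3_nt.H54.LBound

/-! Row LFN of campaign h42w: the value of `L(σ, χ)` as the limit of its real partial sums. -/

namespace Pool.Agent.G42

open Finset Filter Topology Pool.Agent.G60 Pool.Agent.MP_48b1c3_nt.H54

theorem lfn_exp (x σ : ℝ) (hx : 0 < x) :
    Complex.exp (-(σ : ℂ) * (Real.log x : ℂ)) = ((x ^ (-σ) : ℝ) : ℂ) := by
  rw [Real.rpow_def_of_pos hx, Complex.ofReal_exp]
  congr 1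
  push_cast
  ring

theorem lfn_d (n : ℕ) (σ : ℝ) : lbound_d n σ =
    ((((n : ℝ) + 1) ^ (-σ) : ℝ) : ℂ) - ((((n : ℝ) + 1 + 1) ^ (-σ) : ℝ) : ℂ) := by
  unfold lbound_d
  rw [lfn_exp _ _ (by positivity), lfn_exp _ _ (by positivity)]

theorem lfn_tend {a : ℕ → ℂ} {Q : ℝ} (hQ : ∀ N, ‖∑ m ∈ range N, a (m + 1)‖ ≤ Q) {σ : ℝ}
    (hσ : 0 < σ) : Tendsto (fun N : ℕ => ∑ n ∈ Icc 1 N, a n * (((n : ℝ) ^ (-σ) : ℝ) : ℂ)) atTop
      (𝓝 (lbound_G a σ)) := by
  have hz : Summable fun n => (∑ m ∈ range (n + 1), a (m + 1)) * lbound_d n σ :=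
    ((lbound_summable hσ).mul_left (Q * ‖(σ : ℂ)‖)).of_norm_bounded
      fun n => lbound_term_le hQ hσ (by simp) n
  have t1 := hz.hasSum.tendsto_sum_nat
  have t3 : Tendsto (fun N : ℕ => (∑ m ∈ range N, a (m + 1)) * ((((N : ℝ) + 1) ^ (-σ) : ℝ) : ℂ))
      atTop (𝓝 0) := by
    rw [tendsto_zero_iff_norm_tendsto_zero]
    have h0 : Tendsto (fun N : ℕ => ((N : ℝ) + 1) ^ (-σ)) atTop (𝓝 0) :=
      (tendsto_rpow_neg_atTop hσ).comp
        (tendsto_atTop_add_const_right _ 1 tendsto_natCast_atTop_atTop)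
    have := h0.const_mul Q
    rw [mul_zero] at this
    refine squeeze_zero (fun _ => norm_nonneg _) (fun n => ?_) this
    rw [norm_mul, Complex.norm_real, Real.norm_of_nonneg (by positivity)]
    exact mul_le_mul_of_nonneg_right (hQ n) (by positivity)
  have e : ∀ N : ℕ, ∑ n ∈ range N, (∑ m ∈ range (n + 1), a (m + 1)) * lbound_d n σ +
      (∑ m ∈ range N, a (m + 1)) * ((((N : ℝ) + 1) ^ (-σ) : ℝ) : ℂ) =
        ∑ n ∈ Icc 1 N, a n * (((n : ℝ) ^ (-σ) : ℝ) : ℂ) := fun N => by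
    induction N with
    | zero => simp
    | succ N ih =>
      rw [sum_Icc_succ_top (by omega), ← ih, sum_range_succ _ N, lfn_d,
        sum_range_succ (fun m => a (m + 1)) N, Nat.cast_succ N]
      ring
  have t4 := t1.add t3
  rw [add_zero] at t4
  exact t4.congr e

theorem lfn_row : LFN_s := by
  intro p _ χ σ h1 hv hσ _
  have h0 : 0 < σ := by linarith
  rw [lbound_LFunction_eq χ h1 (by simpa using h0)]
  have t := lfn_tend (a := fun n => χ n) (lbound_char_shift χ h1) h0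
  obtain ⟨G, hG⟩ : ∃ G, G = lbound_G (fun n : ℕ => χ n) σ := ⟨_, rfl⟩
  rw [← hG] at t ⊢
  have t' : Tendsto (fun N : ℕ => ((∑ n ∈ Icc 1 N, (leg p n : ℝ) * (n : ℝ) ^ (-σ) : ℝ) : ℂ))
      atTop (𝓝 G) := by
    refine t.congr fun N => ?_
    rw [Complex.ofReal_sum]
    exact sum_congr rfl fun n _ => by rw [hv, Complex.ofReal_mul, Complex.ofReal_intCast]
  have tr : Tendsto (fun N : ℕ => ∑ n ∈ Icc 1 N, (leg p n : ℝ) * (n : ℝ) ^ (-σ)) atTop
      (𝓝 G.re) := by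
    simpa only [Function.comp_def, Complex.ofReal_re] using
      (Complex.continuous_re.tendsto G).comp t'
  have tc : Tendsto (fun N : ℕ => ((∑ n ∈ Icc 1 N, (leg p n : ℝ) * (n : ℝ) ^ (-σ) : ℝ) : ℂ))
      atTop (𝓝 (G.re : ℂ)) := (Complex.continuous_ofReal.tendsto _).comp tr
  exact ⟨G.re, tendsto_nhds_unique t' tc, tr⟩

end Pool.Agent.G42
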