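import Pool.Agent.MP_b5e119_nt.G42.ZDefs

/-! Row POL of campaign h42w: without a real zero on `[β, 1)` the value `L(β, χ)` is `≥ 0`. -/

namespace Pool.Agent.G42

open Finset Filter Topology Pool.Agent.G60

theorem pol_two {g : ℕ → ℝ} (h1 : g 1 = 1) (hg : ∀ n, -1 ≤ g n) (N : ℕ) :
    1 / ((N : ℝ) + 1) ≤ ∑ n ∈ Icc 1 (N + 1), g n * (n : ℝ) ^ (-(2 : ℝ)) := by
  induction N with
  | zero => simp [h1]
  | succ N ih =>
    rw [sum_Icc_succ_top (by omega)]
    have hN : (0 : ℝ) ≤ N := N.cast_nonneg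
    have e : ((N + 1 + 1 : ℕ) : ℝ) ^ (-(2 : ℝ)) = 1 / ((N : ℝ) + 2) ^ 2 := by
      rw [Real.rpow_neg (by positivity), Real.rpow_two, one_div]
      push_cast
      ring
    have a1 : -1 * (1 / ((N : ℝ) + 2) ^ 2) ≤ g (N + 1 + 1) * (1 / ((N : ℝ) + 2) ^ 2) :=
      mul_le_mul_of_nonneg_right (hg _) (by positivity)
    have a2 : 1 / (((N + 1 : ℕ) : ℝ) + 1) + 1 / ((N : ℝ) + 2) ^ 2 ≤ 1 / ((N : ℝ) + 1) := by
      push_cast
      rw [div_add_div _ _ (by positivity) (by positivity),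
        div_le_div_iff₀ (by positivity) (by positivity)]
      nlinarith [mul_nonneg hN hN, mul_nonneg hN (mul_nonneg hN hN)]
    rw [e]
    linarith

theorem pol_row (hLFN : LFN_s) : POL_s := by
  intro p _ χ β h1 hv hβ hβ1 hz
  by_contra hneg
  have hneg : (DirichletCharacter.LFunction χ β).re < 0 := not_le.1 hneg
  have hc : Continuous fun σ : ℝ => (DirichletCharacter.LFunction χ σ).re :=
    Complex.continuous_re.comp
      ((DirichletCharacter.differentiable_LFunction h1).continuous.comp Complex.continuous_ofReal)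
  have h2 : 0 ≤ (DirichletCharacter.LFunction χ ((2 : ℝ) : ℂ)).re := by
    obtain ⟨L, hL, t⟩ := hLFN p χ 2 h1 hv (by norm_num) le_rfl
    rw [hL, Complex.ofReal_re]
    have g1 : ((leg p 1 : ℤ) : ℝ) = 1 := by simp [leg]
    have gg : ∀ n : ℕ, (-1 : ℝ) ≤ (leg p n : ℝ) := fun n => by
      have := χ.norm_le_one (n : ZMod p)
      rw [hv, Complex.norm_intCast] at this
      exact (abs_le.1 this).1
    refine ge_of_tendsto' (t.comp (tendsto_add_atTop_nat 1)) fun N => ?_
    exact le_trans (by positivity) (pol_two (g := fun n => (leg p n : ℝ)) g1 gg N)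
  obtain ⟨σ, ⟨a1, a2⟩, hσ⟩ := intermediate_value_Icc (show β ≤ 2 by linarith) hc.continuousOn
    (show (0 : ℝ) ∈ Set.Icc _ _ from ⟨hneg.le, h2⟩)
  obtain ⟨L, hL, -⟩ := hLFN p χ σ h1 hv (by linarith) a2
  have h0 : DirichletCharacter.LFunction χ σ = 0 := by
    have : L = 0 := by simpa only [hL, Complex.ofReal_re] using hσ
    rw [hL, this, Complex.ofReal_zero]
  rcases lt_or_ge σ 1 with h | h
  · exact hz σ a1 h h0
  · exact DirichletCharacter.LFunction_ne_zero_of_one_le_re χ (Or.inl h1) (by simpa using h) h0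

end Pool.Agent.G42
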