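import Pool.Agent.MP_b5e119_nt.G42.ZDefs

/-! Row RAA: the mean value of `1 * χ` on short ranges. -/

namespace Pool.Agent.G42

open Finset Filter Topology Pool.Agent.G60

theorem raa_abs (p : ℕ) [Fact p.Prime] (n : ℕ) : |(leg p n : ℝ)| ≤ 1 := by
  have h : leg p n = 0 ∨ leg p n = 1 ∨ leg p n = -1 := by
    unfold leg
    by_cases h0 : ((n : ℤ) : ZMod p) = 0
    · exact Or.inl ((legendreSym.eq_zero_iff p _).2 h0)
    · exact Or.inr (legendreSym.eq_one_or_neg_one p h0)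
  rcases h with h | h | h <;> simp [h]

theorem raa_harm (n : ℕ) : ∑ m ∈ Icc 1 n, (1 / (m : ℝ)) ≤ 1 + Real.log n := by
  have h := harmonic_le_one_add_log n
  rw [harmonic_eq_sum_Icc] at h
  simpa using h

theorem raa_hyp (hH : HYP_s) (a : ℕ → ℝ) (x U : ℕ) (δ : ℝ) (hU : 0 < U) (hUx : U ≤ x)
    (hδ : 0 ≤ δ) (ha : ∀ n, |a n| ≤ 1) (hS : ∀ N, U ≤ N → |∑ n ∈ Icc 1 N, a n| ≤ δ * N) :
    |∑ n ∈ Icc 1 x, ∑ d ∈ n.divisors, a d - x * ∑ n ∈ Icc 1 U, a n / n| ≤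
      U + 2 * δ * x * (1 + Real.log x) := by
  have h := hH a (fun _ => 1) x U hU hUx
  have e0 : ∀ n : ℕ, ∑ y ∈ n.divisorsAntidiagonal, a y.1 * (1 : ℝ) = ∑ d ∈ n.divisors, a d := by
    intro n
    rw [Nat.sum_divisorsAntidiagonal (fun i _ => a i * (1 : ℝ))]
    simp
  simp only [e0] at h
  simp only [sum_const, Nat.card_Icc, Nat.add_sub_cancel, nsmul_eq_mul, mul_one, one_mul] at h
  have hx0 : (0 : ℝ) < x := by exact_mod_cast hU.trans_le hUx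
  have h2 : |∑ m ∈ Icc 1 (x / U), (∑ d ∈ Icc 1 (x / m), a d - ∑ d ∈ Icc 1 U, a d)| ≤
      2 * δ * x * (1 + Real.log x) := by
    refine (abs_sum_le_sum_abs _ _).trans ?_
    have hb : ∀ m ∈ Icc 1 (x / U), |∑ d ∈ Icc 1 (x / m), a d - ∑ d ∈ Icc 1 U, a d| ≤
        2 * δ * x * (1 / (m : ℝ)) := by
      intro m hm
      rw [mem_Icc] at hm
      have hmU : m * U ≤ x := (Nat.le_div_iff_mul_le hU).1 hm.2
      have hUm : U ≤ x / m := (Nat.le_div_iff_mul_le hm.1).2 (by rw [mul_comm]; exact hmU)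
      have h3 := hS _ hUm
      have h4 := hS _ le_rfl
      have h5 : ((x / m : ℕ) : ℝ) ≤ x / m := Nat.cast_div_le
      have h6 : (U : ℝ) ≤ ((x / m : ℕ) : ℝ) := by exact_mod_cast hUm
      have h7 := abs_sub (∑ d ∈ Icc 1 (x / m), a d) (∑ d ∈ Icc 1 U, a d)
      have h8 : δ * ((x / m : ℕ) : ℝ) ≤ δ * (x / m) := mul_le_mul_of_nonneg_left h5 hδ
      have h9 : δ * (U : ℝ) ≤ δ * ((x / m : ℕ) : ℝ) := mul_le_mul_of_nonneg_left h6 hδ
      have e : 2 * δ * x * (1 / (m : ℝ)) = 2 * (δ * (x / m)) := by ring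
      rw [e]; linarith
    refine (sum_le_sum hb).trans ?_
    rw [← mul_sum]
    refine mul_le_mul_of_nonneg_left ?_ (by positivity)
    refine le_trans ?_ (raa_harm x)
    refine sum_le_sum_of_subset_of_nonneg (Icc_subset_Icc le_rfl (Nat.div_le_self _ _)) ?_
    intro i _ _; positivity
  have h1 : |x * ∑ n ∈ Icc 1 U, a n / n - ∑ d ∈ Icc 1 U, a d * ((x / d : ℕ) : ℝ)| ≤ U := by
    rw [mul_sum, ← sum_sub_distrib]
    refine (abs_sum_le_sum_abs _ _).trans ?_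
    have hb : ∀ d ∈ Icc 1 U, |x * (a d / d) - a d * ((x / d : ℕ) : ℝ)| ≤ 1 := by
      intro d hd
      rw [mem_Icc] at hd
      have hd0 : (0 : ℝ) < d := by exact_mod_cast hd.1
      have h5 : ((x / d : ℕ) : ℝ) ≤ x / d := Nat.cast_div_le
      have h6 : (x : ℝ) / d ≤ ((x / d : ℕ) : ℝ) + 1 := by
        rw [div_le_iff₀ hd0]
        have := (Nat.lt_div_mul_add (a := x) hd.1).le
        have h7 : (x : ℝ) ≤ ((x / d * d + d : ℕ) : ℝ) := by exact_mod_cast this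
        push_cast at h7
        linarith
      have e : x * (a d / d) - a d * ((x / d : ℕ) : ℝ) = a d * (x / d - ((x / d : ℕ) : ℝ)) := by
        ring
      rw [e, abs_mul]
      have h8 : |(x : ℝ) / d - ((x / d : ℕ) : ℝ)| ≤ 1 := abs_le.2 ⟨by linarith, by linarith⟩
      exact mul_le_one₀ (ha d) (abs_nonneg _) h8
    refine (sum_le_sum hb).trans ?_
    simp
  rw [abs_le] at h1 h2 ⊢
  constructor <;> linarith [h1.1, h1.2, h2.1, h2.2]

theorem raa_row (hH : HYP_s) (hB : BURG_s) (hT : TAIL_s) (hB2 : BUR2_s) : RAA_s := by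
  obtain ⟨κ, hκ, hκ1, p₁, hB⟩ := hB
  have ev1 : ∀ᶠ p : ℕ in atTop, (2 : ℝ) ≤ (p : ℝ) ^ (1 / 200 : ℝ) :=
    ((tendsto_rpow_atTop (by norm_num)).comp tendsto_natCast_atTop_atTop).eventually_ge_atTop _
  have ev2 : ∀ᶠ p : ℕ in atTop, (11 + 3 / (κ / 4) : ℝ) ≤ (p : ℝ) ^ (κ / 4) :=
    ((tendsto_rpow_atTop (by positivity)).comp tendsto_natCast_atTop_atTop).eventually_ge_atTop _
  obtain ⟨p₀, hp₀⟩ := eventually_atTop.1 (ev1.and (ev2.and
    ((eventually_ge_atTop p₁).and (eventually_ge_atTop 3))))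
  refine ⟨κ / 2, by positivity, p₀, fun p _ hp L hlim x hx1 hxp => ?_⟩
  obtain ⟨h1, h2, h3, h4⟩ := hp₀ p hp
  have hp1 : (1 : ℝ) ≤ p := by exact_mod_cast (by omega : 1 ≤ p)
  have hp0 : (0 : ℝ) < p := by linarith
  obtain ⟨t, ht⟩ : ∃ t : ℝ, t = (p : ℝ) ^ (1 / 200 : ℝ) := ⟨_, rfl⟩
  rw [← ht] at h1
  have ht0 : 0 < t := by linarith
  have ht1 : 1 ≤ t := by linarith
  have h64 : (p : ℝ) ^ (0.32 : ℝ) = t ^ 64 := by
    rw [ht, ← Real.rpow_natCast, ← Real.rpow_mul hp0.le]; norm_num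
  have h66 : (p : ℝ) ^ (0.33 : ℝ) = t ^ 66 := by
    rw [ht, ← Real.rpow_natCast, ← Real.rpow_mul hp0.le]; norm_num
  rw [h66] at hx1
  obtain ⟨δ, hδ⟩ : ∃ δ : ℝ, δ = (p : ℝ) ^ (-κ) := ⟨_, rfl⟩
  have hδ0 : 0 < δ := by rw [hδ]; positivity
  have hδt : 1 ≤ δ * t := by
    rw [hδ, ht, ← Real.rpow_add hp0]
    exact Real.one_le_rpow hp1 (by linarith)
  have hδ3 : 5 * (p : ℝ) ^ (2 / 3 : ℝ) / p ≤ 5 * δ := by
    rw [div_le_iff₀ hp0, mul_assoc]
    refine mul_le_mul_of_nonneg_left ?_ (by norm_num)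
    have e : δ * p = (p : ℝ) ^ (-κ + 1) := by rw [hδ, Real.rpow_add hp0, Real.rpow_one]
    rw [e]
    exact Real.rpow_le_rpow_of_exponent_le hp1 (by linarith)
  obtain ⟨U, hU⟩ : ∃ U : ℕ, U = ⌈t ^ 65⌉₊ := ⟨_, rfl⟩
  have h65 : 1 ≤ t ^ 65 := one_le_pow₀ ht1
  have hU1 : t ^ 65 ≤ U := by rw [hU]; exact Nat.le_ceil _
  have hU2 : (U : ℝ) < t ^ 65 + 1 := by rw [hU]; exact Nat.ceil_lt_add_one (by positivity)
  have e66 : t ^ 66 = t ^ 65 * t := by ring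
  have h66' : 2 * t ^ 65 ≤ t ^ 66 := by rw [e66]; nlinarith
  have hUx' : (U : ℝ) ≤ x := by linarith
  have hUx : U ≤ x := by exact_mod_cast hUx'
  have hU0' : (0 : ℝ) < U := by linarith
  have hU0 : 0 < U := by exact_mod_cast hU0'
  have hx0 : (0 : ℝ) < x := by linarith
  have hxp' : (x : ℝ) ≤ p := by exact_mod_cast hxp
  have hsum : ∀ N, U ≤ N → |∑ n ∈ Icc 1 N, (leg p n : ℝ)| ≤ δ * N := by
    intro N hN
    have c1 : (U : ℝ) ≤ N := by exact_mod_cast hN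
    have c2 : t ^ 64 ≤ t ^ 65 := pow_le_pow_right₀ ht1 (by norm_num)
    have := hB p h3 N (by rw [h64]; linarith)
    rw [hδ, mul_comm]; exact this
  have hh := raa_hyp hH (fun n => (leg p n : ℝ)) x U δ hU0 hUx hδ0.le (raa_abs p) hsum
  have htail := hT (fun n => (leg p n : ℝ)) L δ (5 * (p : ℝ) ^ (2 / 3 : ℝ)) U p hU0 (by omega)
    hδ0.le hsum (fun N => hB2 p N (by omega)) hlim
  have hU4 : (U : ℝ) ≤ 2 * δ * x := by
    have d2 : t ^ 65 ≤ δ * t ^ 66 := by rw [e66]; nlinarith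
    have d3 : δ * t ^ 66 ≤ δ * x := mul_le_mul_of_nonneg_left hx1 hδ0.le
    linarith
  have hlog : Real.log x ≤ Real.log p := Real.log_le_log hx0 hxp'
  obtain ⟨T, hTe⟩ : ∃ T : ℝ, T = ∑ n ∈ Icc 1 U, (leg p n : ℝ) / n := ⟨_, rfl⟩
  simp only [← hTe] at hh htail
  obtain ⟨s, hs⟩ : ∃ s : ℝ, s = (p : ℝ) ^ (κ / 4) := ⟨_, rfl⟩
  have hs1 : 1 ≤ s := by rw [hs]; exact Real.one_le_rpow hp1 (by positivity)
  have hls : Real.log p ≤ s / (κ / 4) := by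
    rw [hs]; exact Real.log_le_rpow_div hp0.le (by positivity)
  rw [← hs] at h2
  have hss : 11 + 3 * Real.log p ≤ s * s := by
    have d1 : (11 + 3 / (κ / 4)) * s ≤ s * s := mul_le_mul_of_nonneg_right h2 (by linarith)
    have d2 : (11 + 3 / (κ / 4)) * s = 11 * s + 3 * (s / (κ / 4)) := by ring
    linarith
  have hfin : δ * (s * s) = (p : ℝ) ^ (-(κ / 2)) := by
    rw [hδ, hs, ← Real.rpow_add hp0, ← Real.rpow_add hp0]
    congr 1
    ring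
  have d1 : 2 * δ * x * (1 + Real.log x) ≤ 2 * δ * x * (1 + Real.log p) :=
    mul_le_mul_of_nonneg_left (by linarith) (by positivity)
  have d2 : |x * T - x * L| ≤ x * (δ * (2 + Real.log p) + 5 * δ) := by
    rw [← mul_sub, abs_mul, abs_of_pos hx0, abs_sub_comm]
    exact mul_le_mul_of_nonneg_left (by linarith) hx0.le
  have d3 : x * (δ * (11 + 3 * Real.log p)) ≤ x * (δ * (s * s)) :=
    mul_le_mul_of_nonneg_left (mul_le_mul_of_nonneg_left hss hδ0.le) hx0.le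
  have d4 := abs_sub_le (∑ n ∈ Icc 1 x, ∑ d ∈ n.divisors, (leg p d : ℝ)) (x * T) (x * L)
  have e : x * (δ * (11 + 3 * Real.log p)) =
      2 * δ * x + 2 * δ * x * (1 + Real.log p) + x * (δ * (2 + Real.log p) + 5 * δ) := by ring
  rw [← hfin]
  unfold rr
  linarith

end Pool.Agent.G42
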