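import Pool.Agent.MP_b5e119_nt.G42.ZDefs

namespace Pool.Agent.G42

open Finset Filter Topology Pool.Agent.G60

theorem ras_abel (r : ℕ → ℝ) (L δ : ℝ) (y P : ℕ) (hy : 0 < y) (hδ : 0 ≤ δ)
    (h : ∀ n, y ≤ n → n ≤ P → |∑ m ∈ Icc 1 n, r m - n * L| ≤ n * δ) (n : ℕ) (hn : y ≤ n) :
    n ≤ P → |∑ m ∈ Icc 1 n, r m / m - ∑ m ∈ Icc 1 y, r m / m - L * (Real.log n - Real.log y) -
      (∑ m ∈ Icc 1 n, r m - n * L) / n + (∑ m ∈ Icc 1 y, r m - y * L) / y| ≤
      δ * (Real.log n - Real.log y) + |L| * (1 / y - 1 / n) := by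
  induction n, hn using Nat.le_induction with
  | base => intro _; simp
  | succ n hn ih =>
    intro hP
    have ih := ih (by omega)
    have hE := h n hn (by omega)
    have n0 : (0 : ℝ) < n := by exact_mod_cast lt_of_lt_of_le hy hn
    have l1 : Real.log ((n : ℝ) + 1) - Real.log n ≤ 1 / n := by
      rw [← Real.log_div (by positivity) n0.ne']
      refine (Real.log_le_sub_one_of_pos (by positivity)).trans (le_of_eq ?_)
      field_simp
      ring
    have l2 : 1 / ((n : ℝ) + 1) ≤ Real.log ((n : ℝ) + 1) - Real.log n := by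
      have := Real.log_le_sub_one_of_pos (x := (n : ℝ) / (n + 1)) (by positivity)
      rw [Real.log_div n0.ne' (by positivity)] at this
      have e : (n : ℝ) / (n + 1) - 1 = -(1 / (n + 1)) := by
        field_simp
        ring
      linarith
    rw [sum_Icc_succ_top (by omega), sum_Icc_succ_top (by omega)]
    push_cast
    generalize ∑ m ∈ Icc 1 n, r m = R at *
    generalize ∑ m ∈ Icc 1 n, r m / m = Z at *
    generalize ∑ m ∈ Icc 1 y, r m / m = Z0 at *
    generalize (∑ m ∈ Icc 1 y, r m - y * L) / y = E0 at *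
    have e : Z + r (n + 1) / (n + 1) - Z0 - L * (Real.log (n + 1) - Real.log y) -
        (R + r (n + 1) - (n + 1) * L) / (n + 1) + E0 =
        (Z - Z0 - L * (Real.log n - Real.log y) - (R - n * L) / n + E0) +
          ((R - n * L) / (n * (n + 1)) +
            L * (1 / (n + 1) - (Real.log (n + 1) - Real.log n))) := by
      field_simp
      ring
    have b1 : |(R - n * L) / (n * (n + 1))| ≤ δ * (Real.log (n + 1) - Real.log n) := by
      rw [abs_div, abs_of_pos (by positivity : (0 : ℝ) < n * (n + 1))]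
      refine le_trans ?_ (mul_le_mul_of_nonneg_left l2 hδ)
      refine (div_le_div_of_nonneg_right hE (by positivity)).trans (le_of_eq ?_)
      field_simp
    have b2 : |L * (1 / ((n : ℝ) + 1) - (Real.log (n + 1) - Real.log n))| ≤
        |L| * (1 / n - 1 / (n + 1)) := by
      rw [abs_mul]
      refine mul_le_mul_of_nonneg_left (abs_le.2 ⟨by linarith, ?_⟩) (abs_nonneg _)
      linarith
    rw [e]
    refine (abs_add_le _ _).trans ((add_le_add ih ((abs_add_le _ _).trans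
      (add_le_add b1 b2))).trans (le_of_eq ?_))
    ring

theorem ras_div (p : ℕ) [Fact p.Prime] (y : ℕ) :
    |∑ n ∈ Icc 1 y, rr p n| ≤ y * (1 + Real.log y) := by
  have h1 : ∀ n ∈ Icc 1 y, |rr p n| ≤ ∑ d ∈ Icc 1 y, if d ∣ n then (1 : ℝ) else 0 := by
    intro n hn
    rw [mem_Icc] at hn
    refine (abs_sum_le_sum_abs _ _).trans ?_
    rw [← sum_filter]
    refine (sum_le_sum (g := fun _ => (1 : ℝ)) fun d _ => ?_).trans
      (sum_le_sum_of_subset_of_nonneg (fun d hd => ?_) fun _ _ _ => zero_le_one)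
    · rcases (quadraticChar_isQuadratic (ZMod p)) ((d : ℤ) : ZMod p) with h | h | h <;>
        simp only [leg, legendreSym, h] <;> simp
    · have := Nat.dvd_of_mem_divisors hd
      exact mem_filter.2 ⟨mem_Icc.2 ⟨Nat.pos_of_mem_divisors hd,
        (Nat.le_of_dvd (by omega) this).trans hn.2⟩, this⟩
  refine (abs_sum_le_sum_abs _ _).trans ((sum_le_sum h1).trans ?_)
  rw [sum_comm]
  have h2 : ∀ d ∈ Icc 1 y, (∑ n ∈ Icc 1 y, if d ∣ n then (1 : ℝ) else 0) ≤ y * ((d : ℝ))⁻¹ := by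
    intro d _
    have e : Icc 1 y = Ioc 0 y := by ext; simp [Nat.succ_le_iff]
    rw [sum_boole, e, Nat.Ioc_filter_dvd_card_eq_div, ← div_eq_mul_inv]
    exact Nat.cast_div_le
  refine (sum_le_sum h2).trans ?_
  rw [← mul_sum]
  refine mul_le_mul_of_nonneg_left ?_ (Nat.cast_nonneg _)
  have h3 := harmonic_le_one_add_log y
  rw [harmonic_eq_sum_Icc] at h3
  simpa using h3

theorem ras_ev (k : ℝ) (hk : 0 < k) :
    ∃ p₀ : ℕ, ∀ p : ℕ, p₀ ≤ p → 4 + 2 * Real.log p ≤ (p : ℝ) ^ (k / 2) := by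
  have h := ((tendsto_rpow_atTop (y := k / 4) (by positivity)).comp
    tendsto_natCast_atTop_atTop).eventually_ge_atTop (4 + 8 / k)
  obtain ⟨p₀, hp⟩ := eventually_atTop.1 h
  refine ⟨p₀ + 1, fun p h0 => ?_⟩
  have h1 : 4 + 8 / k ≤ (p : ℝ) ^ (k / 4) := hp p (by omega)
  have p1 : (1 : ℝ) ≤ p := by exact_mod_cast (by omega : 1 ≤ p)
  have h2 := Real.log_le_rpow_div (x := (p : ℝ)) (by linarith) (by positivity : 0 < k / 4)
  have h3 : 1 ≤ (p : ℝ) ^ (k / 4) := Real.one_le_rpow p1 (by positivity)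
  have e : (p : ℝ) ^ (k / 2) = (p : ℝ) ^ (k / 4) * (p : ℝ) ^ (k / 4) := by
    rw [← Real.rpow_add (by linarith)]; congr 1; ring
  have e2 : (p : ℝ) ^ (k / 4) / (k / 4) = (p : ℝ) ^ (k / 4) * (8 / k) / 2 := by
    field_simp
    ring
  rw [e]
  rw [e2] at h2
  nlinarith [mul_le_mul_of_nonneg_left h1 (le_trans zero_le_one h3)]

theorem ras_row (hR : RAA_s) : RAS_s := by
  obtain ⟨κ, hκ, p₀, h⟩ := hR
  have hk : 0 < min κ 0.33 := lt_min hκ (by norm_num)
  obtain ⟨p₁, h1⟩ := ras_ev _ hk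
  refine ⟨min κ 0.33 / 2, by positivity, max p₀ p₁, fun p hp h0 L hL y y' hy hyy hy' => ?_⟩
  have h := h p (le_of_max_le_left h0) L hL
  have h1 := h1 p (le_of_max_le_right h0)
  have p1 : (1 : ℝ) ≤ p := by exact_mod_cast hp.out.one_le
  have y1 : (1 : ℝ) ≤ y := (Real.one_le_rpow p1 (by norm_num)).trans hy
  have y0 : 0 < y := by exact_mod_cast lt_of_lt_of_le zero_lt_one y1
  have yy : (y : ℝ) ≤ y' := by exact_mod_cast hyy
  have yp : (y' : ℝ) ≤ p := by exact_mod_cast hy'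
  have hδ : 0 ≤ (p : ℝ) ^ (-κ) := by positivity
  have hh : ∀ n, y ≤ n → n ≤ p → |∑ m ∈ Icc 1 n, rr p m - n * L| ≤ n * (p : ℝ) ^ (-κ) :=
    fun n a b => h n (hy.trans (by exact_mod_cast a)) b
  have ha := ras_abel (rr p) L _ y p y0 hδ hh y' hyy hy'
  have e1 := hh y le_rfl (hyy.trans hy')
  have e2 := hh y' hyy hy'
  have hd := ras_div p y
  have d1 : (p : ℝ) ^ (-κ) ≤ (p : ℝ) ^ (-min κ 0.33) :=
    Real.rpow_le_rpow_of_exponent_le p1 (neg_le_neg (min_le_left _ _))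
  have d2 : 1 / (y : ℝ) ≤ (p : ℝ) ^ (-min κ 0.33) := by
    refine le_trans ?_ (Real.rpow_le_rpow_of_exponent_le p1 (neg_le_neg (min_le_right _ _)))
    rw [Real.rpow_neg (by linarith), ← one_div]
    exact one_div_le_one_div_of_le (by positivity) hy
  have d3 : (p : ℝ) ^ (-κ) ≤ 1 := Real.rpow_le_one_of_one_le_of_nonpos p1 (by linarith)
  have ly : 0 ≤ Real.log y := Real.log_nonneg y1
  have l1 : Real.log y ≤ Real.log y' := Real.log_le_log (by linarith) yy
  have l2 : Real.log y' ≤ Real.log p := Real.log_le_log (by linarith) yp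
  have hLb : |L| ≤ 2 + Real.log p := by
    have a1 : |(y : ℝ) * L| ≤ |∑ n ∈ Icc 1 y, rr p n| + |∑ m ∈ Icc 1 y, rr p m - y * L| := by
      have := abs_sub (∑ n ∈ Icc 1 y, rr p n) (∑ m ∈ Icc 1 y, rr p m - y * L)
      rwa [sub_sub_cancel] at this
    rw [abs_mul, abs_of_pos (by linarith : (0 : ℝ) < y)] at a1
    refine le_of_mul_le_mul_left ?_ (by linarith : (0 : ℝ) < y)
    nlinarith
  have f1 : |(∑ m ∈ Icc 1 y, rr p m - y * L) / y| ≤ (p : ℝ) ^ (-κ) := by
    rw [abs_div, abs_of_pos (by linarith : (0 : ℝ) < y), div_le_iff₀ (by linarith)]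
    exact e1.trans_eq (mul_comm _ _)
  have f2 : |(∑ m ∈ Icc 1 y', rr p m - y' * L) / y'| ≤ (p : ℝ) ^ (-κ) := by
    rw [abs_div, abs_of_pos (by linarith : (0 : ℝ) < y'), div_le_iff₀ (by linarith)]
    exact e2.trans_eq (mul_comm _ _)
  have f3 : |L| * (1 / (y : ℝ) - 1 / y') ≤ (2 + Real.log p) * (p : ℝ) ^ (-min κ 0.33) := by
    have : (0 : ℝ) ≤ 1 / y' := by positivity
    refine (mul_le_mul_of_nonneg_left (by linarith : _ ≤ (p : ℝ) ^ (-min κ 0.33))
      (abs_nonneg _)).trans (mul_le_mul_of_nonneg_right hLb (by positivity))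
  have f4 : (p : ℝ) ^ (-κ) * (Real.log y' - Real.log y) ≤
      (p : ℝ) ^ (-min κ 0.33) * Real.log p :=
    mul_le_mul d1 (by linarith) (by linarith) (by positivity)
  have f5 : (4 + 2 * Real.log p) * (p : ℝ) ^ (-min κ 0.33) ≤ (p : ℝ) ^ (-(min κ 0.33 / 2)) := by
    refine (mul_le_mul_of_nonneg_right h1 (by positivity)).trans (le_of_eq ?_)
    rw [← Real.rpow_add (by linarith)]; congr 1; ring
  rw [Real.log_div (by linarith) (by linarith)]
  unfold ZZ
  have g1 := abs_le.1 ha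
  have g2 := abs_le.1 f1
  have g3 := abs_le.1 f2
  refine abs_le.2 ⟨?_, ?_⟩ <;> linarith

end Pool.Agent.G42
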