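import Pool.Agent.MP_b5e119_nt.G42.ZDefs

namespace Pool.Agent.G42

open Finset Filter Topology Pool.Agent.G60

theorem znd_leg (p : ℕ) [hp : Fact p.Prime] {n : ℕ} (h0 : 0 < n) (h1 : n < p) :
    leg p n = 1 ∨ leg p n = -1 := by
  unfold leg
  refine legendreSym.eq_one_or_neg_one p ?_
  rw [Int.cast_natCast, Ne, ZMod.natCast_eq_zero_iff]
  exact fun h => absurd (Nat.le_of_dvd h0 h) (by omega)

theorem znd_cm (p : ℕ) [Fact p.Prime] : CM (fun n => lam n * leg p n) p := by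
  refine ⟨fun n h0 h1 => ?_, fun a b ha hb _ => ?_⟩
  · rcases lam_cases n with e | e <;> rcases znd_leg p h0 h1 with e' | e' <;> simp [e, e']
  · simp only [lam_mul ha.ne' hb.ne', leg_mul]; ring

theorem znd_ex (p : ℕ) [hp : Fact p.Prime] (s : ℤ) :
    #{u ∈ Icc 1 (p - 1) | lam u * leg p u ≠ s} ≤ Ex p s := by
  unfold Ex
  refine card_le_card fun u hu => ?_
  rw [mem_filter, mem_Icc] at hu
  have h2 := hp.out.two_le
  have h1 : u < p := by omega
  rw [mem_filter, mem_Ico]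
  refine ⟨⟨hu.1.1, h1⟩, fun h => hu.2 ?_⟩
  rcases znd_leg p hu.1.1 h1 with e | e <;> rw [h, e] <;> ring

theorem znd_mono (p : ℕ) [Fact p.Prime] (h : ∀ n, 0 ≤ rr p n) {x y : ℕ} (hxy : x ≤ y) :
    ZZ p x ≤ ZZ p y :=
  sum_le_sum_of_subset_of_nonneg (Icc_subset_Icc_right hxy) fun n _ _ =>
    div_nonneg (h n) (Nat.cast_nonneg n)

theorem znd_one (p : ℕ) [Fact p.Prime] (h : rr p 1 = 1) : ZZ p 1 = 1 := by
  simp [ZZ, h]

theorem znd_ev (C κ : ℝ) (hC : 0 < C) (hκ : 0 < κ) :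
    ∀ᶠ p : ℕ in atTop, C * Real.log p ≤ (p : ℝ) ^ κ := by
  have h := (isLittleO_log_rpow_atTop hκ).bound (show 0 < 1 / C by positivity)
  filter_upwards [tendsto_natCast_atTop_atTop.eventually h] with p hp
  rw [Real.norm_eq_abs, Real.norm_eq_abs, abs_of_nonneg (Real.log_natCast_nonneg p),
    abs_of_nonneg (by positivity)] at hp
  calc C * Real.log p ≤ C * (1 / C * (p : ℝ) ^ κ) := by gcongr
    _ = _ := by field_simp

theorem znd_num (t C H L A B S W Z D : ℝ) (hL : 0 < L) (hC : 0 < C) (ht : 1 ≤ t)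
    (ht2 : 72 + 17 * C + 400 * (C * H) ≤ t) (h : 70 * t * D ≤ A * B + S * Z)
    (hD : L * (15 * t) - L ≤ D) (hA : A ≤ 2 * t + C) (hB0 : 0 ≤ B) (hB : B ≤ L * (16 * t) + L)
    (hS : S ≤ C + W) (hW0 : 0 ≤ W) (hW : W * H = t / 4) (hZ0 : 0 ≤ Z)
    (hZ : Z ≤ H * L * (400 * t)) : False := by
  have e1 : A * B ≤ (2 * t + C) * (L * (16 * t) + L) :=
    (mul_le_mul_of_nonneg_right hA hB0).trans (mul_le_mul_of_nonneg_left hB (by positivity))
  have e2 : S * Z ≤ (C + W) * (H * L * (400 * t)) :=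
    (mul_le_mul_of_nonneg_right hS hZ0).trans (mul_le_mul_of_nonneg_left hZ (by positivity))
  have e3 : 70 * t * (L * (15 * t) - L) ≤ 70 * t * D := mul_le_mul_of_nonneg_left hD (by positivity)
  have e4 : (C + W) * (H * L * (400 * t)) = L * (400 * (C * H) * t + 100 * t ^ 2) := by
    have : (C + W) * (H * L * (400 * t)) = L * (400 * (C * H) * t + 400 * (W * H) * t) := by ring
    rw [this, hW]; ring
  have e5 : L * (918 * t ^ 2) ≤ L * ((72 + 16 * C + 400 * (C * H)) * t + C) := by nlinarith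
  have e6 := le_of_mul_le_mul_left e5 hL
  have e7 : (72 + 17 * C + 400 * (C * H)) * t ≤ t * t := by gcongr
  have e8 : C ≤ C * t := by nlinarith
  nlinarith

theorem znd_real (a g P η K : ℝ) (hg : 0.69 < g) (ha : 22 ≤ a) (hη : 0 < η) (hK : 0 ≤ K)
    (h : 2 * K + η + 22 ≤ a) (c1 : 200 * a * g ≤ P) (c2 : P ≤ 200 * (a + 1) * g) :
    2 * η ≤ P ∧ 0.33 * P ≤ 69 * a * g ∧ P ≤ 400 * (a * g) ∧ 1 ≤ a * g ∧ K ≤ a * g := by
  have e : 0.69 * a ≤ a * g := by nlinarith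
  have e' : 22 * g ≤ a * g := by nlinarith
  refine ⟨by nlinarith, by nlinarith, by nlinarith, by nlinarith, by nlinarith⟩

theorem znd_row (hSPT : SPT_s) (hLID : LID_s) (hMER : MER_s) (hRAS : RAS_s) (hHEC : HEC_s)
    (hLFN : LFN_s) (hPOL : POL_s) : ZND_s := by
  intro η hη
  obtain ⟨C, hC, hM⟩ := hMER
  obtain ⟨κ, hκ, p₁, hR⟩ := hRAS
  obtain ⟨H, hH, p₂, hE⟩ := hHEC η hη
  have l1 := Real.log_two_gt_d9
  obtain ⟨ε, hε, p₃, hS⟩ := hSPT (Real.log 2 / (8 * H)) (by positivity)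
  obtain ⟨p₄, h4⟩ := eventually_atTop.mp (znd_ev H κ hH hκ)
  obtain ⟨A₀, hA₀⟩ := exists_nat_ge (2 * (72 + 17 * C + 400 * (C * H)) + η + 22)
  refine ⟨ε, hε, max (max p₁ p₂) (max (max p₃ p₄) (2 ^ (200 * A₀))), ?_⟩
  intro p hp hp0 χ s hχ hleg hs hEx
  simp only [max_le_iff] at hp0
  obtain ⟨⟨q1, q2⟩, ⟨q3, q4⟩, q5⟩ := hp0
  by_contra hno
  push Not at hno
  have hpp := hp.out.two_le
  obtain ⟨r0, r1, rl⟩ := hLID p
  set a := aa p with ha
  have a1 : 200 * A₀ ≤ Nat.log 2 p := (Nat.le_log_iff_pow_le one_lt_two (by omega)).mpr q5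
  have a2 : A₀ ≤ a := by rw [ha, aa]; omega
  have a3 : 200 * a ≤ Nat.log 2 p := by rw [ha, aa]; omega
  have a4 : Nat.log 2 p + 1 ≤ 200 * (a + 1) := by rw [ha, aa]; omega
  have a5 : (A₀ : ℝ) ≤ a := by exact_mod_cast a2
  have cH : 0 < C * H := by positivity
  have a6 : (22 : ℝ) ≤ a := by linarith
  have a7 : 22 ≤ a := by exact_mod_cast a6
  have b1 : 2 ^ (200 * a) ≤ p :=
    (Nat.pow_le_pow_right two_pos a3).trans (Nat.pow_log_le_self 2 (by omega))
  have b2 : p < 2 ^ (200 * (a + 1)) :=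
    (Nat.lt_pow_succ_log_self one_lt_two p).trans_le (Nat.pow_le_pow_right two_pos a4)
  have b3 : 2 ^ (85 * a) < p := (Nat.pow_lt_pow_right one_lt_two (by omega)).trans_le b1
  have p0 : (0 : ℝ) < p := by exact_mod_cast (by omega : 0 < p)
  have c1 : 200 * (a : ℝ) * Real.log 2 ≤ Real.log p := by
    have := Real.log_le_log (by positivity) (show ((2 : ℝ) ^ (200 * a)) ≤ p by exact_mod_cast b1)
    rw [Real.log_pow] at this
    push_cast at this
    exact this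
  have c2 : Real.log p ≤ 200 * ((a : ℝ) + 1) * Real.log 2 := by
    have := Real.log_le_log p0 (show (p : ℝ) ≤ (2 : ℝ) ^ (200 * (a + 1)) by exact_mod_cast b2.le)
    rw [Real.log_pow] at this
    push_cast at this
    exact this
  obtain ⟨c3, c5, c6, c7, c8⟩ := znd_real a (Real.log 2) (Real.log p) η
    (72 + 17 * C + 400 * (C * H)) (by linarith) a6 hη (by positivity) (hA₀.trans a5) c1 c2
  have c4 : 0 < Real.log p := by linarith
  have β1 : 1 / 2 ≤ 1 - η / Real.log p := by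
    have : η / Real.log p ≤ 1 / 2 := by rw [div_le_iff₀ c4]; linarith
    linarith
  have β2 : 1 - η / Real.log p < 1 := by
    have : 0 < η / Real.log p := by positivity
    linarith
  obtain ⟨L', e1, t1⟩ := hLFN p χ _ hχ hleg β1 (by linarith)
  have d1 := hPOL p χ _ hχ hleg β1 β2 hno
  rw [e1, Complex.ofReal_re] at d1
  obtain ⟨L, -, t2⟩ := hLFN p χ 1 hχ hleg (by norm_num) (by norm_num)
  simp only [Real.rpow_neg_one, ← div_eq_mul_inv] at t2
  have d2 := hE p q2 L L' t2 t1 d1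
  have d3 : 1 ≤ ZZ p p := (znd_one p r1).ge.trans (znd_mono p r0 (by omega))
  have L0 : 0 < L := by
    by_contra h
    push Not at h
    have : H * L * Real.log p ≤ 0 :=
      mul_nonpos_of_nonpos_of_nonneg (mul_nonpos_of_nonneg_of_nonpos hH.le h) c4.le
    linarith
  have d4 : (p : ℝ) ^ (-κ) ≤ L := by
    have k0 : 0 < (p : ℝ) ^ κ := by positivity
    rw [Real.rpow_neg p0.le, inv_le_iff_one_le_mul₀ k0]
    have := mul_le_mul_of_nonneg_left (h4 p q4) L0.le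
    linarith
  have g1 : (p : ℝ) ^ (0.33 : ℝ) ≤ ((2 ^ (69 * a) : ℕ) : ℝ) := by
    rw [← Real.log_le_log_iff (by positivity) (by positivity), Real.log_rpow p0]
    push_cast
    rw [Real.log_pow]
    push_cast
    exact c5
  have g2 : 2 ^ (69 * a) ≤ 2 ^ (70 * a) := Nat.pow_le_pow_right two_pos (by omega)
  have g3 : 2 ^ (70 * a) ≤ 2 ^ (85 * a) := Nat.pow_le_pow_right two_pos (by omega)
  have g4 : 2 ^ (70 * a) / 2 ^ a = 2 ^ (69 * a) := by
    rw [Nat.pow_div (by omega) two_pos]; congr 1; omega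
  have lg : ∀ m n k : ℕ, m = n + k →
      Real.log (((2 ^ m : ℕ) : ℝ) / ((2 ^ n : ℕ) : ℝ)) = k * Real.log 2 := by
    rintro m n k rfl
    push_cast
    rw [pow_add, mul_div_cancel_left₀ _ (by positivity), Real.log_pow]
  have i1 := abs_le.mp (hR p q1 L t2 _ _ (g1.trans (by exact_mod_cast g2)) g3 b3.le)
  have i2 := abs_le.mp (hR p q1 L t2 _ _ g1 (g2.trans g3) b3.le)
  rw [lg _ _ (15 * a) (by omega)] at i1
  rw [lg _ _ (16 * a) (by omega)] at i2
  have j1 := rl (2 ^ a) (2 ^ (70 * a)) (2 ^ (85 * a)) (by positivity)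
    (Nat.pow_le_pow_right two_pos (by omega)) g3
  rw [g4] at j1
  obtain ⟨m1, m2⟩ := hM p (2 ^ a) (by positivity)
  have m3 := m2 _ b3
  have s1 := hS _ p s q3 (znd_cm p) hs ((Nat.cast_le.mpr (znd_ex p s)).trans hEx)
  have s2 : ∑ q ∈ Icc (2 ^ a) (2 ^ (85 * a)) with (q.Prime ∧ leg p q = 1), Real.log q / q ≤
      Real.log 2 / (8 * H) * a := by
    refine le_trans (sum_le_sum_of_subset_of_nonneg (fun q hq => ?_) fun q _ _ =>
      div_nonneg (Real.log_natCast_nonneg q) (Nat.cast_nonneg q)) s1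
    rw [mem_filter, mem_Icc] at hq
    rw [mem_filter, mem_Ico]
    refine ⟨⟨hq.1.1, lt_of_le_of_ne hq.1.2 fun h => ?_⟩, hq.2.1, ?_⟩
    · have := (h ▸ hq.2.1).eq_one_of_pow
      omega
    · rw [lam_prime hq.2.1, hq.2.2]; norm_num
  have n1 : Real.log ((2 ^ a : ℕ) : ℝ) = a * Real.log 2 := by
    push_cast; rw [Real.log_pow]
  have n2 : Real.log ((2 ^ (70 * a) : ℕ) : ℝ) = 70 * (a * Real.log 2) := by
    push_cast; rw [Real.log_pow]; push_cast; ring
  rw [n1] at m1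
  rw [n2] at j1
  push_cast at i1 i2
  have z0 : 0 ≤ ZZ p (2 ^ (85 * a)) :=
    sum_nonneg fun n _ => div_nonneg (r0 n) (Nat.cast_nonneg n)
  have z1 : ZZ p (2 ^ (85 * a)) ≤ H * L * (400 * (a * Real.log 2)) := by
    refine (znd_mono p r0 b3.le).trans (d2.trans ?_)
    exact mul_le_mul_of_nonneg_left c6 (by positivity)
  refine znd_num (a * Real.log 2) C H L _ _ _ (2 * (Real.log 2 / (8 * H) * a)) _ _ L0 hC
    c7 c8 j1 (by linarith [i1.1]) m1
    (sub_nonneg.mpr (znd_mono p r0 (g2.trans g3))) (by linarith [i2.2]) (by linarith)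
    (by positivity) (by field_simp; ring) z0 z1

end Pool.Agent.G42
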