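import Pool.Agent.MP_b5e119_nt.G42.ZDefs

/-! Row MAJ of campaign h42w: the majority sign. -/

namespace Pool.Agent.G42

open Finset

theorem maj_split (s : Finset ℕ) (G : ℕ → ℤ) (τ : ℤ) :
    #{n ∈ s | G n = τ} + #{n ∈ s | G n ≠ τ} = #s :=
  Finset.card_filter_add_card_filter_not (fun n => G n = τ)

theorem maj_row : MAJ_s := by
  intro s G
  have h0 : mj s G = 1 ∨ mj s G = -1 := by
    unfold mj
    split_ifs
    · exact Or.inl rfl
    · exact Or.inr rfl
  refine ⟨h0, fun hG => ?_⟩
  have h1 : #{n ∈ s | G n ≠ 1} = #{n ∈ s | G n = -1} := by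
    refine congrArg Finset.card (Finset.filter_congr fun n hn => ?_)
    rcases hG n hn with h | h <;> simp [h]
  have h2 := maj_split s G 1
  have h3 : #s ≤ 2 * #{n ∈ s | G n = mj s G} := by
    by_cases h : #s ≤ 2 * #{n ∈ s | G n = 1}
    · have h4 : mj s G = 1 := by unfold mj; rw [if_pos h]
      rw [h4]
      exact h
    · have h4 : mj s G = -1 := by unfold mj; rw [if_neg h]
      rw [h4]
      omega
  refine ⟨h3, fun τ => ?_⟩
  by_cases h : τ = mj s G
  · rw [h]
  · have h4 : #{n ∈ s | G n = mj s G} ≤ #{n ∈ s | G n ≠ τ} := by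
      refine Finset.card_le_card fun n hn => ?_
      rw [Finset.mem_filter] at hn ⊢
      exact ⟨hn.1, fun h5 => h (h5.symm.trans hn.2)⟩
    have h5 := maj_split s G (mj s G)
    omega

end Pool.Agent.G42
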