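import Pool.Agent.MP_b5e119_nt.G42.ZDefs

namespace Pool.Agent.G42

open Finset Filter Topology Pool.Agent.G60

theorem zb_tan {β a b : ℝ} (h0 : 0 ≤ β) (h1 : β < 1) (ha : 0 < a) (hb : 0 ≤ b) :
    b ^ (1 - β) / (1 - β) ≤ a ^ (1 - β) / (1 - β) + a ^ (-β) * (b - a) := by
  have g : 0 < 1 - β := by linarith
  have s : -1 ≤ (b - a) / a := by rw [le_div_iff₀ ha]; linarith
  have k := rpow_one_add_le_one_add_mul_self s g.le (by linarith)
  have e : b = a * (1 + (b - a) / a) := by field_simp; ring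
  have e1 : a ^ (1 - β) = a * a ^ (-β) := by
    rw [sub_eq_add_neg, Real.rpow_add ha, Real.rpow_one]
  have p0 : 0 < a ^ (-β) := Real.rpow_pos_of_pos ha _
  have e2 : b ^ (1 - β) = a ^ (1 - β) * (1 + (b - a) / a) ^ (1 - β) := by
    rw [← Real.mul_rpow ha.le (by linarith), ← e]
  rw [e2, div_le_iff₀ g]
  refine (mul_le_mul_of_nonneg_left k (Real.rpow_nonneg ha.le _)).trans (le_of_eq ?_)
  rw [e1]
  field_simp

theorem zb_row : ZB_s := by
  intro β h0 h1
  have g : 0 < 1 - β := by linarith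
  have b0 : 0 ≤ β := by linarith
  obtain ⟨G, hG⟩ : ∃ G : ℕ → ℝ, ∀ M, G M =
    ∑ m ∈ Icc 1 M, (m : ℝ) ^ (-β) - ((M : ℝ) + 1) ^ (1 - β) / (1 - β) := ⟨_, fun _ => rfl⟩
  have st : ∀ M : ℕ, ∑ m ∈ Icc 1 (M + 1), (m : ℝ) ^ (-β) =
      ∑ m ∈ Icc 1 M, (m : ℝ) ^ (-β) + ((M : ℝ) + 1) ^ (-β) := fun M => by
    rw [sum_Icc_succ_top (by omega), Nat.cast_succ]
  have m1 : Monotone G := monotone_nat_of_le_succ fun M => by
    have := zb_tan (a := (M : ℝ) + 1) (b := (M : ℝ) + 1 + 1) b0 h1 (by positivity) (by positivity)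
    rw [hG, hG, st, Nat.cast_succ]
    linarith
  have m2 : Antitone fun M : ℕ => G M + ((M : ℝ) + 1) ^ (-β) := antitone_nat_of_succ_le fun M => by
    have := zb_tan (a := (M : ℝ) + 1 + 1) (b := (M : ℝ) + 1) b0 h1 (by positivity) (by positivity)
    rw [hG, hG, st, Nat.cast_succ]
    linarith
  have le : ∀ M K : ℕ, G M ≤ G K + ((K : ℝ) + 1) ^ (-β) := fun M K => by
    have a1 := m1 (le_max_left M K)
    have a2 := m2 (le_max_right M K)
    have : 0 ≤ (((max M K : ℕ) : ℝ) + 1) ^ (-β) := by positivity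
    simp only at a2
    linarith
  have bd : BddAbove (Set.range G) := ⟨_, by rintro _ ⟨M, rfl⟩; exact le M 0⟩
  have c1 : ∀ M, G M ≤ ⨆ M, G M := le_ciSup bd
  have c2 : ∀ K : ℕ, ⨆ M, G M ≤ G K + ((K : ℝ) + 1) ^ (-β) := fun K => ciSup_le fun M => le M K
  have G0 : G 0 = -(1 / (1 - β)) := by simp [hG]
  refine ⟨⨆ M, G M, G0 ▸ c1 0, ?_, fun y hy => ?_⟩
  · have := c2 0
    have k : 1 ≤ 1 / (1 - β) := by rw [le_div_iff₀ g]; linarith
    rw [G0] at this
    simp only [Nat.cast_zero, zero_add, Real.one_rpow] at this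
    linarith
  · obtain ⟨K, hK⟩ : ∃ K, ⌊y⌋₊ = K + 1 := ⟨⌊y⌋₊ - 1, by have := Nat.floor_pos.2 hy; omega⟩
    have y1 : (K : ℝ) + 1 ≤ y := by
      have := Nat.floor_le (show 0 ≤ y by linarith)
      rwa [hK, Nat.cast_succ] at this
    have y2 : y ≤ (K : ℝ) + 1 + 1 := by
      have := (Nat.lt_floor_add_one y).le
      rwa [hK, Nat.cast_succ] at this
    have K0 : (0 : ℝ) ≤ K := K.cast_nonneg
    have f1 := div_le_div_of_nonneg_right (Real.rpow_le_rpow (by positivity) y1 g.le) g.le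
    have f2 := div_le_div_of_nonneg_right (Real.rpow_le_rpow (by linarith) y2 g.le) g.le
    have f3 : ((K : ℝ) + 1 + 1) ^ (-β) ≤ y ^ (-β) :=
      Real.rpow_le_rpow_of_nonpos (by linarith) y2 (by linarith)
    have f4 : ((K : ℝ) + 1) ^ (-β) ≤ 2 * y ^ (-β) := by
      have a : ((K : ℝ) + 1) ^ (-β) ≤ (y / 2) ^ (-β) :=
        Real.rpow_le_rpow_of_nonpos (by linarith) (by linarith) (by linarith)
      have b : (2 : ℝ) ^ β ≤ 2 ^ (1 : ℝ) := Real.rpow_le_rpow_of_exponent_le (by norm_num) h1.le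
      rw [Real.div_rpow (by linarith) (by norm_num), Real.rpow_neg (by norm_num : (0 : ℝ) ≤ 2),
        div_inv_eq_mul] at a
      rw [Real.rpow_one] at b
      have : 0 ≤ y ^ (-β) := by positivity
      nlinarith
    have a1 := c1 K
    have a2 := c2 (K + 1)
    have y0 : 0 ≤ y ^ (-β) := by positivity
    rw [hG] at a1 a2
    rw [Nat.cast_succ] at a2
    have s := st K
    rw [hK, abs_le]
    constructor <;> linarith

end Pool.Agent.G42
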