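import Pool.Agent.MP_b5e119_nt.G42.Defs

/-! Row BLK: geometry of the short blocks. -/

namespace Pool.Agent.G42

open Finset

theorem blk_core (b q : ℕ) (hb : 4 ≤ b) (hq : q ∈ RR b) :
    Nat.log 2 q < b ^ 4 ∧ 2 ^ b ^ 2 ≤ 2 ^ Nat.log 2 q ∧ 0 < 2 ^ Nat.log 2 q / b ∧
      b ≤ q / (2 ^ Nat.log 2 q / b) ∧ q / (2 ^ Nat.log 2 q / b) < 4 * b ∧
      2 ^ Nat.log 2 q ≤ 2 * (b * (2 ^ Nat.log 2 q / b)) := by
  simp only [RR, mem_filter, mem_Ico] at hq
  obtain ⟨⟨h1, h2⟩, hp⟩ := hq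
  have hq0 : q ≠ 0 := hp.ne_zero
  have hi1 : b ^ 2 ≤ Nat.log 2 q := Nat.le_log_of_pow_le (by norm_num) h1
  have hi2 : Nat.log 2 q < b ^ 4 := Nat.log_lt_of_lt_pow hq0 h2
  have hE1 : 2 ^ Nat.log 2 q ≤ q := Nat.pow_log_le_self 2 hq0
  have hE2 : q < 2 ^ (Nat.log 2 q + 1) := Nat.lt_pow_succ_log_self (by norm_num) q
  have hE3 : 2 ^ b ^ 2 ≤ 2 ^ Nat.log 2 q := Nat.pow_le_pow_right (by norm_num) hi1
  have hb2 : b ≤ 2 ^ b ^ 2 := by
    have h3 : b ^ 2 < 2 ^ b ^ 2 := Nat.lt_two_pow_self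
    nlinarith
  rw [pow_succ] at hE2
  generalize 2 ^ Nat.log 2 q = E at *
  have hb0 : 0 < b := by omega
  have hw : 0 < E / b := Nat.div_pos (hb2.trans hE3) hb0
  have h4 : b * (E / b) ≤ E := Nat.mul_div_le E b
  have h5 : E < b * (E / b + 1) := Nat.lt_mul_div_succ E hb0
  generalize E / b = w at *
  have h6 : b ≤ b * w := Nat.le_mul_of_pos_right b hw
  have h7 : E ≤ 2 * (b * w) := by nlinarith
  refine ⟨hi2, hE3, hw, ?_, ?_, h7⟩
  · exact (Nat.le_div_iff_mul_le hw).2 (h4.trans hE1)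
  · rw [Nat.div_lt_iff_lt_mul hw]
    nlinarith

theorem blk_row : BLK_s := by
  intro b hb
  constructor
  · have hs : BV b ⊆ (range (b ^ 4) ×ˢ range (4 * b)).image (fun z : ℕ × ℕ => 2 ^ z.1 / b * z.2) := by
      intro v hv
      obtain ⟨q, hq, rfl⟩ := mem_image.1 hv
      obtain ⟨h1, -, -, -, h5, -⟩ := blk_core b q hb hq
      exact mem_image.2 ⟨(Nat.log 2 q, q / (2 ^ Nat.log 2 q / b)),
        mem_product.2 ⟨mem_range.2 h1, mem_range.2 h5⟩, rfl⟩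
    refine (card_le_card hs).trans (card_image_le.trans ?_)
    rw [card_product, card_range, card_range]
    exact le_of_eq (by ring)
  · intro q hq
    obtain ⟨-, h2, h3, h4, -, h6⟩ := blk_core b q hb hq
    unfold bk
    generalize 2 ^ Nat.log 2 q / b = w at *
    have h7 : w * (q / w) ≤ q := Nat.mul_div_le q w
    have h8 : q < w * (q / w + 1) := Nat.lt_mul_div_succ q h3
    generalize q / w = t at *
    have h9 : b * w ≤ w * t := by rw [mul_comm b w]; exact Nat.mul_le_mul_left w h4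
    have h10 : w ≤ b * w := Nat.le_mul_of_pos_left w (by omega)
    obtain ⟨c, rfl⟩ : ∃ c, b = c + 1 := ⟨b - 1, by omega⟩
    rw [mul_add, mul_one] at h8
    refine ⟨h7, ?_, by omega, by omega⟩
    rw [Nat.add_sub_cancel]
    have h11 : c * q ≤ c * (w * t + w) := Nat.mul_le_mul_left c h8.le
    nlinarith

end Pool.Agent.G42
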