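import Pool.Agent.MP_b5e119_nt.G42.Defs

namespace Pool.Agent.G42

open Finset Filter Topology Pool.Agent.G60

theorem deca_hh (p b n : ℕ) (hn : n ≠ 0) : (HH p b n : ℝ) =
    -(lam n : ℝ) * #{q ∈ RR b | q ∣ n ∧ n / q ≤ XV p b (bk b q)} := by
  have : HH p b n = -lam n * #{q ∈ RR b | q ∣ n ∧ n / q ≤ XV p b (bk b q)} := by
    rw [HH, ← sum_filter, mul_comm, ← nsmul_eq_mul, ← sum_const]
    refine sum_congr rfl fun q hq => ?_
    obtain ⟨h1, ⟨m, rfl⟩, -⟩ := mem_filter.1 hq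
    have hp := (mem_filter.1 h1).2
    rw [Nat.mul_div_cancel_left _ hp.pos, lam_mul hp.ne_zero (right_ne_zero_of_mul hn),
      lam_prime hp]
    ring
  rw [this]
  push_cast
  rfl

theorem deca_pt (hB : BLK_s) (p b n : ℕ) (hb : 4 ≤ b) (hn : n ≠ 0) :
    (LR b * (lam n : ℝ) + (HH p b n : ℝ)) ^ 2 ≤ 6 * ((#{q ∈ RR b | q ∣ n} : ℝ) - LR b) ^ 2 +
      if (b - 1) * (p - 1) < n * b then 4 * LR b ^ 2 else 0 := by
  have hl : (lam n : ℝ) ^ 2 = 1 := by rcases lam_cases n with h | h <;> simp [h]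
  rw [deca_hh p b n hn]
  have hs : ({q ∈ RR b | q ∣ n ∧ n / q ≤ XV p b (bk b q)} : Finset ℕ) ⊆ {q ∈ RR b | q ∣ n} :=
    fun q hq => mem_filter.2 ⟨(mem_filter.1 hq).1, (mem_filter.1 hq).2.1⟩
  have e : ∀ s : ℝ, (LR b * (lam n : ℝ) + -(lam n : ℝ) * s) ^ 2 = (LR b - s) ^ 2 := fun s => by
    linear_combination (LR b - s) ^ 2 * hl
  rw [e]
  split_ifs with h
  · have h1 : (#{q ∈ RR b | q ∣ n ∧ n / q ≤ XV p b (bk b q)} : ℝ) ≤ #{q ∈ RR b | q ∣ n} := by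
      exact_mod_cast card_le_card hs
    have h0 : (0 : ℝ) ≤ #{q ∈ RR b | q ∣ n ∧ n / q ≤ XV p b (bk b q)} := Nat.cast_nonneg _
    generalize (#{q ∈ RR b | q ∣ n ∧ n / q ≤ XV p b (bk b q)} : ℝ) = s at h0 h1
    generalize (#{q ∈ RR b | q ∣ n} : ℝ) = w at h1
    have h2 : (w - s) ^ 2 ≤ w ^ 2 := by nlinarith
    nlinarith [sq_nonneg (LR b - w - (w - s)), sq_nonneg (w - LR b - LR b)]
  · have : ({q ∈ RR b | q ∣ n ∧ n / q ≤ XV p b (bk b q)} : Finset ℕ) = {q ∈ RR b | q ∣ n} := by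
      refine filter_congr fun q hq => ⟨fun k => k.1, fun k => ⟨k, ?_⟩⟩
      obtain ⟨m, rfl⟩ := k
      obtain ⟨q1, -, q3, -⟩ := (hB b hb).2 q hq
      have hp := (mem_filter.1 hq).2
      have v0 : 0 < bk b q := by
        have : 0 < 2 ^ b ^ 2 := by positivity
        omega
      rw [Nat.mul_div_cancel_left _ hp.pos, XV, Nat.le_div_iff_mul_le (by positivity)]
      refine le_trans ?_ (not_lt.1 h)
      calc m * (b * bk b q) ≤ m * (b * q) := by gcongr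
        _ = q * m * b := by ring
    rw [this]
    nlinarith [sq_nonneg ((#{q ∈ RR b | q ∣ n} : ℝ) - LR b)]

theorem deca_cnt (x b : ℕ) (hb : 1 ≤ b) (hx : b ≤ x) :
    (#{n ∈ Icc 1 x | (b - 1) * x < n * b} : ℝ) ≤ 2 * x / b := by
  have h1 : ({n ∈ Icc 1 x | (b - 1) * x < n * b} : Finset ℕ) ⊆ Ioc ((b - 1) * x / b) x :=
    fun n hn => mem_Ioc.2 ⟨(Nat.div_lt_iff_lt_mul hb).2 (mem_filter.1 hn).2,
      (mem_Icc.1 (mem_filter.1 hn).1).2⟩
  have h2 := card_le_card h1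
  rw [Nat.card_Ioc] at h2
  have h3 := Nat.lt_div_mul_add (a := (b - 1) * x) hb
  obtain ⟨c, rfl⟩ := Nat.exists_eq_add_of_le' hb
  rw [Nat.add_sub_cancel] at h2 h3 ⊢
  have h4 : c * x / (c + 1) ≤ x := Nat.div_le_of_le_mul (by nlinarith)
  generalize c * x / (c + 1) = y at h2 h3 h4
  generalize #{n ∈ Icc 1 x | c * x < n * (c + 1)} = N at h2
  have h5 : N + y ≤ x := by omega
  rw [le_div_iff₀ (by positivity)]
  have h6 : N * (c + 1) ≤ 2 * x := by nlinarith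
  exact_mod_cast h6

theorem deca_row (hT : TK_s) (hB : BLK_s) : DECA_s := by
  intro p b hb hp
  have h1 : b < 2 ^ b ^ 4 := (Nat.le_self_pow (by norm_num) b).trans_lt Nat.lt_two_pow_self
  have h2 : #(RR b) ≤ p - 1 := by
    refine (card_filter_le _ _).trans ?_
    rw [Nat.card_Ico]
    exact (Nat.sub_le _ _).trans (Nat.le_sub_one_of_lt hp)
  have h3 := hT (RR b) (p - 1) (fun q hq => (mem_filter.1 hq).2) h2
  have h4 := deca_cnt (p - 1) b (by omega) (by omega)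
  rw [Nat.cast_pred (by omega)] at h3 h4
  refine (sum_le_sum fun n hn => deca_pt hB p b n hb (by have := mem_Icc.1 hn; omega)).trans ?_
  rw [sum_add_distrib, ← mul_sum, ← sum_filter, sum_const, nsmul_eq_mul]
  have h5 := mul_le_mul_of_nonneg_right h4 (by positivity : 0 ≤ 4 * LR b ^ 2)
  have e : ((p : ℝ) - 1) * (18 * LR b + 8 * LR b ^ 2 / b) =
      6 * (3 * ((p : ℝ) - 1) * LR b) + 2 * ((p : ℝ) - 1) / b * (4 * LR b ^ 2) := by ring
  rw [e]
  exact add_le_add (mul_le_mul_of_nonneg_left h3 (by norm_num)) h5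

end Pool.Agent.G42
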