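import Pool.Agent.MP_b5e119_nt.G42.Defs
import Pool.Agent.MP_5d10af_nt.Mg.Q2_Rem

namespace Pool.Agent.G42

open Finset Filter Topology Pool.Agent.G60

theorem dya_theta (i : ℕ) (hi : 2 ≤ i) :
    Chebyshev.theta ((2 ^ (i + 1) : ℕ) : ℝ) - Chebyshev.theta ((2 ^ i : ℕ) : ℝ) =
      ∑ q ∈ Ico (2 ^ i) (2 ^ (i + 1)) with q.Prime, Real.log (q : ℕ) := by
  have hle : 2 ^ i ≤ 2 ^ (i + 1) := Nat.pow_le_pow_right (by norm_num) (by omega)
  have h1 : ¬(2 ^ i).Prime := Nat.Prime.not_prime_pow hi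
  have h2 : ¬(2 ^ (i + 1)).Prime := Nat.Prime.not_prime_pow (by omega)
  rw [Chebyshev.theta, Chebyshev.theta, Nat.floor_natCast, Nat.floor_natCast, sum_filter, sum_filter,
    ← sum_Ioc_consecutive _ (Nat.zero_le (2 ^ i)) hle, add_sub_cancel_left, ← sum_filter]
  refine sum_congr ?_ fun _ _ => rfl
  ext q
  simp only [mem_filter, mem_Ioc, mem_Ico]
  constructor
  · rintro ⟨⟨a, b⟩, c⟩
    exact ⟨⟨a.le, lt_of_le_of_ne b (fun h => h2 (h ▸ c))⟩, c⟩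
  · rintro ⟨⟨a, b⟩, c⟩
    exact ⟨⟨lt_of_le_of_ne a (fun h => h1 (h ▸ c)), b.le⟩, c⟩

theorem dya_row : DYA_s := by
  obtain ⟨y, hy, hy1⟩ := ((MP_5d10af_nt.Q2.theta_pnt 1).and (eventually_ge_atTop (Real.exp 30))).exists
  obtain ⟨N, hN⟩ := exists_nat_ge y
  refine ⟨N + 4, fun i hi => ?_⟩
  have hl : 30 ≤ Real.log y := (Real.le_log_iff_exp_le ((Real.exp_pos _).trans_le hy1)).2 hy1
  have hz : ∀ z : ℝ, y ≤ z → |Chebyshev.theta z - z| ≤ z / 30 := fun z h => by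
    refine (hy z h).trans ?_
    have : 0 ≤ z := ((Real.exp_pos _).le.trans hy1).trans h
    rw [pow_one]
    gcongr
  have hi2 : i < 2 ^ i := Nat.lt_two_pow_self
  have ha : y ≤ ((2 ^ i : ℕ) : ℝ) := hN.trans (by exact_mod_cast (by omega : N ≤ 2 ^ i))
  have hb : y ≤ ((2 ^ (i + 1) : ℕ) : ℝ) :=
    hN.trans (by exact_mod_cast (by rw [pow_succ]; omega : N ≤ 2 ^ (i + 1)))
  have h1 := abs_le.1 (hz _ ha)
  have h2 := abs_le.1 (hz _ hb)
  have h3 := dya_theta i (by omega)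
  set D := ({q ∈ Ico (2 ^ i) (2 ^ (i + 1)) | q.Prime} : Finset ℕ) with hD
  have hup : ∑ q ∈ D, Real.log (q : ℕ) ≤ #D * ((i + 1) * Real.log 2) := by
    rw [← nsmul_eq_mul]
    refine sum_le_card_nsmul _ _ _ fun q hq => ?_
    obtain ⟨hq1, hq2⟩ := mem_filter.1 hq
    have h4 : ((q : ℕ) : ℝ) ≤ 2 ^ (i + 1) := by exact_mod_cast (mem_Ico.1 hq1).2.le
    have h5 := Real.log_le_log (by exact_mod_cast hq2.pos) h4
    rw [Real.log_pow] at h5
    push_cast at h5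
    exact h5
  have hlo : #D * (i * Real.log 2) ≤ ∑ q ∈ D, Real.log (q : ℕ) := by
    rw [← nsmul_eq_mul]
    refine card_nsmul_le_sum _ _ _ fun q hq => ?_
    obtain ⟨hq1, -⟩ := mem_filter.1 hq
    have h4 : (2 : ℝ) ^ i ≤ ((q : ℕ) : ℝ) := by exact_mod_cast (mem_Ico.1 hq1).1
    have h5 := Real.log_le_log (by positivity) h4
    rwa [Real.log_pow] at h5
  have hL1 := Real.log_two_gt_d9
  have hL2 := Real.log_two_lt_d9
  have hi4 : (4 : ℝ) ≤ i := by exact_mod_cast (by omega : 4 ≤ i)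
  have hD0 : (0 : ℝ) ≤ #D := Nat.cast_nonneg _
  have hc : ((2 ^ (i + 1) : ℕ) : ℝ) = 2 * ((2 ^ i : ℕ) : ℝ) := by push_cast; ring
  have hX : (0 : ℝ) ≤ ((2 ^ i : ℕ) : ℝ) := Nat.cast_nonneg _
  have hiD : (0 : ℝ) ≤ i * #D := by positivity
  constructor
  · have : ((2 ^ i : ℕ) : ℝ) ≤ i * #D := by
      have e1 : ((i : ℝ) + 1) * Real.log 2 ≤ i * (9 / 10) := by nlinarith
      have e2 : (#D : ℝ) * ((i + 1) * Real.log 2) ≤ #D * (i * (9 / 10)) := by gcongr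
      nlinarith
    exact_mod_cast this
  · have : (i : ℝ) * #D ≤ 2 * ((2 ^ i : ℕ) : ℝ) := by
      have e2 : (i : ℝ) * #D * (6 / 10) ≤ i * #D * Real.log 2 := by gcongr; linarith
      nlinarith
    exact_mod_cast this

end Pool.Agent.G42
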