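import Pool.Agent.MP_b5e119_nt.G42.Defs

namespace Pool.Agent.G42

open Finset Filter Topology Pool.Agent.G60

theorem fewm_row [Sg] (hI : IND_s) (hC : CNT_s) (hT : TWR_s) : FEWM_s := by
  classical
  intro γ e hγ he
  set α : ℝ := min (γ / 5) (1 / 2) with hα
  have hα0 : 0 < α := lt_min (by linarith) (by norm_num)
  have hα1 : α ≤ γ / 5 := min_le_left _ _
  have hα2 : α ≤ 1 / 2 := min_le_right _ _
  obtain ⟨B, hB⟩ := hT α hα0
  obtain ⟨b, hb, δ, hδ, h⟩ := hI α e hα0 he B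
  obtain ⟨l₀, hl₀⟩ := hB b hb
  refine ⟨δ, hδ, 2 ^ l₀, fun p _ hp hod => ?_⟩
  have pp : p.Prime := Fact.out
  obtain ⟨j, h4, h5, h6⟩ := hl₀ (Nat.log 2 p) (Nat.le_log_of_pow_le Nat.one_lt_two hp)
  have h7 : tw b j ^ 4 < Nat.log 2 p := by
    have a1 : (4 : ℝ) ≤ tw b j := by exact_mod_cast h4
    have a2 : (0 : ℝ) < (tw b j : ℝ) ^ 4 := by positivity
    have a3 : (0 : ℝ) ≤ Nat.log 2 p := Nat.cast_nonneg _
    have a4 : α * Nat.log 2 p ≤ 1 / 2 * Nat.log 2 p := mul_le_mul_of_nonneg_right hα2 a3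
    have a5 : (tw b j : ℝ) ^ 4 < Nat.log 2 p := by linarith
    exact_mod_cast a5
  have h8 : 2 ^ tw b j ^ 4 < p :=
    (Nat.pow_lt_pow_right Nat.one_lt_two h7).trans_le (Nat.pow_log_le_self 2 pp.ne_zero)
  refine ⟨(Sm p (tw b j) α)ᶜ, (hC p _ α h4 hα0 hα2 h5 h6).trans ?_, ?_⟩
  · exact Real.rpow_le_rpow_of_exponent_le (by exact_mod_cast pp.one_lt.le) (by linarith)
  · rw [compl_compl]
    exact h p hod j h8

end Pool.Agent.G42
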