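import Pool.Agent.MP_b5e119_nt.G42.Defs

namespace Pool.Agent.G42

open Finset Filter Topology Pool.Agent.G60

theorem lrb_split (a n : ℕ) (f : ℕ → ℝ) :
    ∑ q ∈ Ico (2 ^ a) (2 ^ (a + n)), f q =
      ∑ i ∈ range n, ∑ q ∈ Ico (2 ^ (a + i)) (2 ^ (a + i + 1)), f q := by
  induction n with
  | zero => simp
  | succ n ih =>
    rw [sum_range_succ, ← ih, sum_Ico_consecutive _ (Nat.pow_le_pow_right (by norm_num) (by omega))
      (Nat.pow_le_pow_right (by norm_num) (by omega)), add_assoc]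

theorem lrb_log (a n : ℕ) (ha : 0 < a) :
    Real.log ((a + n : ℕ) : ℝ) - Real.log a ≤ ∑ i ∈ range n, 1 / ((a + i : ℕ) : ℝ) := by
  induction n with
  | zero => simp
  | succ n ih =>
    rw [sum_range_succ]
    have h0 : (0 : ℝ) < ((a + n : ℕ) : ℝ) := by exact_mod_cast (by omega : 0 < a + n)
    have h1 : ((a + (n + 1) : ℕ) : ℝ) = ((a + n : ℕ) : ℝ) * (1 + 1 / ((a + n : ℕ) : ℝ)) := by
      field_simp
      push_cast
      ring
    have h2 : (0 : ℝ) < 1 + 1 / ((a + n : ℕ) : ℝ) := by positivity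
    have h3 := Real.log_le_sub_one_of_pos h2
    rw [h1, Real.log_mul h0.ne' h2.ne']
    linarith

theorem lrb_row (hD : DYA_s) (hB : BLK_s) : LRB_s := by
  obtain ⟨i₀, hD⟩ := hD
  refine ⟨i₀ + 4, fun b hb => ?_⟩
  have hb4 : 4 ≤ b := by omega
  have hb2 : b ≤ b ^ 2 := Nat.le_self_pow (by norm_num) b
  have h24 : b ^ 2 + 1 ≤ b ^ 4 := Nat.pow_lt_pow_right (by omega) (by norm_num)
  obtain ⟨hB1, hB2⟩ := hB b hb4
  constructor
  · obtain ⟨n, hn⟩ := Nat.exists_eq_add_of_le (show b ^ 2 ≤ b ^ 4 by omega)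
    have h1 := lrb_log (b ^ 2) n (by omega)
    rw [← hn] at h1
    push_cast at h1
    rw [Real.log_pow, Real.log_pow] at h1
    push_cast at h1
    rw [LR, RR, sum_filter, hn, lrb_split]
    have h2 : ∀ i ∈ range n, 1 / 2 * (1 / ((b : ℝ) ^ 2 + i)) ≤
        ∑ q ∈ Ico (2 ^ (b ^ 2 + i)) (2 ^ (b ^ 2 + i + 1)), if q.Prime then 1 / ((q : ℕ) : ℝ) else 0 := by
      intro i _
      rw [← sum_filter]
      have h3 := (hD (b ^ 2 + i) (by omega)).1
      set D := ({q ∈ Ico (2 ^ (b ^ 2 + i)) (2 ^ (b ^ 2 + i + 1)) | q.Prime} : Finset ℕ) with hDD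
      have h4 : (#D : ℝ) * (1 / 2 ^ (b ^ 2 + i + 1)) ≤ ∑ q ∈ D, 1 / ((q : ℕ) : ℝ) := by
        rw [← nsmul_eq_mul]
        refine card_nsmul_le_sum _ _ _ fun q hq => ?_
        obtain ⟨hq1, hq2⟩ := mem_filter.1 hq
        have h5 : ((q : ℕ) : ℝ) ≤ 2 ^ (b ^ 2 + i + 1) := by exact_mod_cast (mem_Ico.1 hq1).2.le
        exact one_div_le_one_div_of_le (by exact_mod_cast hq2.pos) h5
      refine le_trans ?_ h4
      have h6 : (2 : ℝ) ^ (b ^ 2 + i) ≤ ((b : ℝ) ^ 2 + i) * #D := by exact_mod_cast h3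
      have h7 : (0 : ℝ) < (b : ℝ) ^ 2 + i := by
        have : (0 : ℝ) < b := by exact_mod_cast (by omega : 0 < b)
        positivity
      rw [pow_succ (2 : ℝ), one_div_mul_one_div, mul_one_div,
        div_le_div_iff₀ (by positivity) (by positivity)]
      nlinarith
    have h8 := sum_le_sum h2
    rw [← mul_sum] at h8
    linarith
  · have h3 := (hD (b ^ 2) (by omega)).1
    set D := ({q ∈ Ico (2 ^ b ^ 2) (2 ^ (b ^ 2 + 1)) | q.Prime} : Finset ℕ) with hDD
    have hsub : D ⊆ RR b := filter_subset_filter _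
      (Ico_subset_Ico_right (Nat.pow_le_pow_right (by norm_num) h24))
    have hne : D.Nonempty := by
      rw [← card_pos]
      rcases Nat.eq_zero_or_pos #D with h | h
      · rw [h, mul_zero] at h3
        exact absurd h3 (not_le.2 (by positivity))
      · exact h
    obtain ⟨v, hv, hmax⟩ := exists_max_image (D.image (bk b)) (fun v => #(BF b v)) (hne.image _)
    have hI : D.image (bk b) ⊆ BV b := image_subset_image hsub
    refine ⟨v, hI hv, ?_⟩
    have h4 : #D ≤ #(BF b v) * #(D.image (bk b)) := card_le_mul_card_image _ _ fun w hw =>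
      (card_le_card (filter_subset_filter _ hsub)).trans (hmax w hw)
    have h5 : #(D.image (bk b)) ≤ 4 * b ^ 5 := (card_le_card hI).trans hB1
    obtain ⟨q, hq, rfl⟩ := mem_image.1 hv
    have h6 := (hB2 q (hsub hq)).1
    have h7 := (mem_Ico.1 (mem_filter.1 hq).1).2
    calc bk b q ≤ 2 * 2 ^ b ^ 2 := by rw [pow_succ] at h7; omega
      _ ≤ 2 * (b ^ 2 * (#(BF b (bk b q)) * (4 * b ^ 5))) := by
        gcongr
        exact h3.trans (Nat.mul_le_mul_left _ (h4.trans (Nat.mul_le_mul_left _ h5)))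
      _ = 8 * b ^ 7 * #(BF b (bk b q)) := by ring

end Pool.Agent.G42
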