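import Pool.Agent.MP_b5e119_nt.G42.Defs

namespace Pool.Agent.G42

open Finset Filter Topology Pool.Agent.G60

theorem sta_row : STA_s := by
  intro c u v k α α' hc hu hk1 hk2 hv h0 h1
  have u1 : 1 ≤ u := by
    have := Nat.two_pow_pos (c ^ 2)
    omega
  have v1 : 1 ≤ v := (Nat.pow_pos (by omega)).trans_le hk1
  have hck : 2 ^ (c ^ 2 * k) ≤ v := by
    rw [pow_mul]; exact (Nat.pow_le_pow_left hu k).trans hk1
  have hk4 : k + 1 ≤ 2 ^ (4 * c) := by
    have h2 : c ^ 2 * k < (2 ^ c) ^ 4 :=
      (Nat.pow_lt_pow_iff_right (by norm_num : 1 < 2)).1 (hck.trans_lt hv)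
    have h3 : k ≤ c ^ 2 * k := Nat.le_mul_of_pos_left _ (by positivity)
    rw [← pow_mul, mul_comm c 4] at h2
    omega
  have u0 : (0 : ℝ) < u := by exact_mod_cast u1
  have v0 : (0 : ℝ) < v := by exact_mod_cast v1
  have c1 : (1 : ℝ) ≤ c := by exact_mod_cast hc
  have c0 : (0 : ℝ) < c := by linarith
  have k0 : (0 : ℝ) ≤ k := Nat.cast_nonneg k
  have t0 : 0 < Real.log 2 := Real.log_pos one_lt_two
  have a0 : 0 ≤ Real.log u := Real.log_nonneg (by exact_mod_cast u1)
  have w0 : 0 ≤ Real.log v := Real.log_nonneg (by exact_mod_cast v1)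
  have e1 : (k : ℝ) * (Real.log 2 + Real.log u) ≤ Real.log v := by
    rw [← Real.log_mul two_ne_zero u0.ne', ← Real.log_pow]
    exact Real.log_le_log (by positivity) (by exact_mod_cast hk1)
  have e2 : Real.log v ≤ ((k : ℝ) + 1) * (Real.log 2 + Real.log u) := by
    rw [← Real.log_mul two_ne_zero u0.ne', ← Nat.cast_succ, ← Real.log_pow]
    exact Real.log_le_log v0 (by exact_mod_cast hk2.le)
  have e3 : (c : ℝ) ^ 2 * k * Real.log 2 ≤ Real.log v := by
    have := Real.log_le_log (by positivity) (show (2 : ℝ) ^ (c ^ 2 * k) ≤ v by exact_mod_cast hck)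
    rw [Real.log_pow] at this
    push_cast at this
    exact this
  have e4 : Real.log ((k : ℝ) + 1) ≤ 4 * c * Real.log 2 := by
    have := Real.log_le_log (by positivity)
      (show (k : ℝ) + 1 ≤ (2 : ℝ) ^ (4 * c) by exact_mod_cast hk4)
    rw [Real.log_pow] at this
    push_cast at this
    exact this
  rw [← Real.log_le_log_iff (by positivity) (by positivity),
    Real.log_mul (by positivity) (by positivity), Real.log_mul (by positivity) (by positivity),
    Real.log_div (by positivity) v0.ne', Real.log_mul (by positivity) (by positivity),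
    Real.log_mul (by positivity) (by positivity), Real.log_mul two_ne_zero u0.ne',
    Real.log_rpow v0, Real.log_rpow v0, Real.log_rpow u0, Real.log_pow, Real.log_pow]
  generalize Real.log ((k : ℝ) + 1) = s at e4 ⊢
  generalize Real.log u = a at *
  generalize Real.log v = w at *
  generalize Real.log 2 = t at *
  have f1 : (c : ℝ) * k * t ≤ w / c := by
    rw [le_div_iff₀ c0]; nlinarith
  have f2 : α * (k * a) ≤ α * w := mul_le_mul_of_nonneg_left (by nlinarith) h0
  have f3 : (α + 3 / c) * w ≤ α' * w := mul_le_mul_of_nonneg_right h1 w0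
  have f4 : (k : ℝ) * s ≤ k * (4 * c * t) := mul_le_mul_of_nonneg_left e4 k0
  have f5 : 1 * (k * t) ≤ (c : ℝ) * (k * t) := mul_le_mul_of_nonneg_right c1 (by positivity)
  have f6 : 3 / (c : ℝ) * w = 3 * (w / c) := by ring
  have f7 : -(1 / (c : ℝ)) * w = -(w / c) := by ring
  rw [f7]
  rw [add_mul, f6] at f3
  generalize w / c = z at *
  nlinarith

end Pool.Agent.G42
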