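import Pool.Agent.MP_b5e119_nt.G42.Defs

namespace Pool.Agent.G42

open Finset Filter Topology Pool.Agent.G60

lemma stb_pow (c : ℕ) (hc : 10 ≤ c) : 2 * c ^ 5 ≤ 4 ^ c := by
  induction c, hc using Nat.le_induction with
  | base => norm_num
  | succ c hc ih =>
    have h1 : (10 * (c + 1)) ^ 5 ≤ (11 * c) ^ 5 := Nat.pow_le_pow_left (by omega) 5
    rw [mul_pow, mul_pow] at h1
    rw [pow_succ 4 c]
    generalize (c + 1) ^ 5 = x at h1 ⊢
    generalize c ^ 5 = y at h1 ih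
    generalize 4 ^ c = z at ih ⊢
    norm_num at h1
    omega

lemma stb_exp (c : ℕ) (hc : 10 ≤ c) : (8 + 16 * c + c ^ 4) * c + 1 ≤ (2 ^ c) ^ 2 := by
  have h1 := stb_pow c hc
  have e : (2 ^ c) ^ 2 = 4 ^ c := by rw [← pow_mul, mul_comm, pow_mul]; norm_num
  have h2 : 10 ^ 3 ≤ c ^ 3 := Nat.pow_le_pow_left hc 3
  have h3 : c ^ 5 = c ^ 3 * (c * c) := by ring
  have h4 : 1000 * (c * c) ≤ c ^ 5 := by
    rw [h3]; exact Nat.mul_le_mul_right _ (by simpa using h2)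
  have h5 : (8 + 16 * c + c ^ 4) * c = 8 * c + 16 * (c * c) + c ^ 5 := by ring
  have h6 : 10 * c ≤ c * c := Nat.mul_le_mul_right _ hc
  rw [e, h5]
  omega

theorem stb_row : STB_s := by
  refine ⟨10, fun c v hc hv => ?_⟩
  obtain ⟨M, hM⟩ : ∃ M : ℕ, M = 8 + 16 * c + c ^ 4 := ⟨_, rfl⟩
  have h1 : (2 ^ M) ^ c ≤ v := by
    have h2 : 2 ^ (M * c + 1) ≤ 2 ^ (2 ^ c) ^ 2 :=
      Nat.pow_le_pow_right (by norm_num) (by rw [hM]; exact stb_exp c hc)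
    rw [pow_succ, pow_mul] at h2
    omega
  have hc0 : c ≠ 0 := by omega
  have h2 : ((2 : ℝ) ^ M) ≤ (v : ℝ) ^ (1 / (c : ℝ)) := by
    have h3 : (((2 : ℝ) ^ M) ^ c) ≤ v := by exact_mod_cast h1
    have h4 := Real.rpow_le_rpow (by positivity) h3 (show (0 : ℝ) ≤ 1 / (c : ℝ) by positivity)
    rwa [one_div, Real.pow_rpow_inv_natCast (by positivity) hc0, ← one_div] at h4
  have h3 : 256 * ((2 : ℝ) ^ c) ^ 10 * (c : ℝ) ^ 6 * 2 ^ c ^ 4 ≤ 2 ^ M := by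
    have h4 : (c : ℝ) ≤ 2 ^ c := by exact_mod_cast (Nat.lt_two_pow_self (n := c)).le
    have h5 : (c : ℝ) ^ 6 ≤ (2 ^ c) ^ 6 := pow_le_pow_left₀ (Nat.cast_nonneg c) h4 6
    have e : (2 : ℝ) ^ M = 256 * ((2 : ℝ) ^ c) ^ 10 * (2 ^ c) ^ 6 * 2 ^ c ^ 4 := by
      rw [hM, pow_add, pow_add, mul_comm 16 c, pow_mul]
      generalize (2 : ℝ) ^ c ^ 4 = y
      generalize (2 : ℝ) ^ c = x
      ring
    rw [e]
    exact mul_le_mul_of_nonneg_right (mul_le_mul_of_nonneg_left h5 (by positivity)) (by positivity)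
  rw [Real.rpow_neg (Nat.cast_nonneg v), ← div_eq_mul_inv,
    div_le_one (lt_of_lt_of_le (by positivity) h2)]
  exact h3.trans h2

end Pool.Agent.G42
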