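import Pool.Agent.MP_b5e119_nt.G42.Defs

/-! Row TK of campaign h42w: the Turán–Kubilius inequality for a set of primes. -/

namespace Pool.Agent.G42

open Finset

theorem tk_sum (x d : ℕ) :
    ∑ n ∈ Icc 1 x, (if d ∣ n then (1 : ℝ) else 0) = ((x / d : ℕ) : ℝ) := by
  have h : Icc 1 x = Ioc 0 x := by
    ext n
    simp only [mem_Icc, mem_Ioc]
    omega
  rw [Finset.sum_boole, h, Nat.Ioc_filter_dvd_card_eq_div]

theorem tk_le (x d : ℕ) :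
    ∑ n ∈ Icc 1 x, (if d ∣ n then (1 : ℝ) else 0) ≤ (x : ℝ) * (1 / (d : ℝ)) := by
  rw [tk_sum, mul_one_div]
  exact Nat.cast_div_le

theorem tk_ge (x d : ℕ) (hd : 0 < d) :
    (x : ℝ) * (1 / (d : ℝ)) - 1 ≤ ∑ n ∈ Icc 1 x, (if d ∣ n then (1 : ℝ) else 0) := by
  rw [tk_sum, mul_one_div]
  have hd' : (0 : ℝ) < d := by exact_mod_cast hd
  have h1 : x < d * (x / d + 1) := Nat.lt_mul_div_succ x hd
  have h2 : (x : ℝ) < (d : ℝ) * (((x / d : ℕ) : ℝ) + 1) := by exact_mod_cast h1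
  rw [sub_le_iff_le_add, div_le_iff₀ hd']
  linarith

theorem tk_pair (x q r : ℕ) (hq : q.Prime) (hr : r.Prime) :
    ∑ n ∈ Icc 1 x, (if q ∣ n then (1 : ℝ) else 0) * (if r ∣ n then (1 : ℝ) else 0) ≤
      (x : ℝ) * (1 / (q : ℝ) * (1 / (r : ℝ))) + if q = r then (x : ℝ) * (1 / (q : ℝ)) else 0 := by
  by_cases h : q = r
  · subst h
    rw [if_pos rfl]
    have h1 : ∀ n ∈ Icc 1 x, (if q ∣ n then (1 : ℝ) else 0) * (if q ∣ n then (1 : ℝ) else 0) =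
        if q ∣ n then (1 : ℝ) else 0 := by
      intro n _
      by_cases hn : q ∣ n <;> simp [hn]
    rw [Finset.sum_congr rfl h1]
    have h2 := tk_le x q
    have h3 : (0 : ℝ) ≤ (x : ℝ) * (1 / (q : ℝ) * (1 / (q : ℝ))) := by positivity
    linarith
  · rw [if_neg h, add_zero]
    have hc : Nat.Coprime q r := (Nat.coprime_primes hq hr).2 h
    have h1 : ∀ n ∈ Icc 1 x, (if q ∣ n then (1 : ℝ) else 0) * (if r ∣ n then (1 : ℝ) else 0) =
        if q * r ∣ n then (1 : ℝ) else 0 := by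
      intro n _
      by_cases hn : q * r ∣ n
      · rw [if_pos hn, if_pos (Dvd.dvd.trans (Dvd.intro r rfl) hn),
          if_pos (Dvd.dvd.trans (Dvd.intro_left q rfl) hn), mul_one]
      · rw [if_neg hn]
        by_cases h1 : q ∣ n
        · rw [if_neg (fun h2 : r ∣ n => hn (hc.mul_dvd_of_dvd_of_dvd h1 h2)), mul_zero]
        · rw [if_neg h1, zero_mul]
    rw [Finset.sum_congr rfl h1]
    have h2 := tk_le x (q * r)
    rw [Nat.cast_mul, one_div, mul_inv] at h2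
    rw [one_div, one_div]
    exact h2

theorem tk_row : TK_s := by
  intro R x hR hx
  have hL : (0 : ℝ) ≤ ∑ q ∈ R, 1 / (q : ℝ) := Finset.sum_nonneg fun q _ => by positivity
  have hw : ∀ n : ℕ, (#{q ∈ R | q ∣ n} : ℝ) = ∑ q ∈ R, (if q ∣ n then (1 : ℝ) else 0) := by
    intro n
    rw [Finset.sum_boole]
  have h1 : (x : ℝ) * (∑ q ∈ R, 1 / (q : ℝ)) - #R ≤ ∑ n ∈ Icc 1 x, (#{q ∈ R | q ∣ n} : ℝ) := by
    simp only [hw]
    rw [Finset.sum_comm, Finset.mul_sum]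
    calc ∑ q ∈ R, (x : ℝ) * (1 / (q : ℝ)) - #R = ∑ q ∈ R, ((x : ℝ) * (1 / (q : ℝ)) - 1) := by
          rw [Finset.sum_sub_distrib]
          simp
      _ ≤ _ := Finset.sum_le_sum fun q hq => tk_ge x q (hR q hq).pos
  have h2 : ∑ n ∈ Icc 1 x, (#{q ∈ R | q ∣ n} : ℝ) ^ 2 ≤
      (x : ℝ) * (∑ q ∈ R, 1 / (q : ℝ)) ^ 2 + (x : ℝ) * ∑ q ∈ R, 1 / (q : ℝ) := by
    simp only [hw, sq, Finset.sum_mul_sum]
    rw [Finset.sum_comm, Finset.mul_sum, Finset.mul_sum, ← Finset.sum_add_distrib]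
    refine Finset.sum_le_sum fun q hq => ?_
    rw [Finset.sum_comm, Finset.mul_sum]
    calc ∑ r ∈ R, ∑ n ∈ Icc 1 x,
          (if q ∣ n then (1 : ℝ) else 0) * (if r ∣ n then (1 : ℝ) else 0)
        ≤ ∑ r ∈ R, ((x : ℝ) * (1 / (q : ℝ) * (1 / (r : ℝ))) +
            if q = r then (x : ℝ) * (1 / (q : ℝ)) else 0) :=
          Finset.sum_le_sum fun r hr => tk_pair x q r (hR q hq) (hR r hr)
      _ = _ := by rw [Finset.sum_add_distrib, Finset.sum_ite_eq, if_pos hq]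
  have hx' : (#R : ℝ) ≤ x := by exact_mod_cast hx
  generalize (∑ q ∈ R, 1 / (q : ℝ)) = L at hL h1 h2 ⊢
  have h3 : ∑ n ∈ Icc 1 x, ((#{q ∈ R | q ∣ n} : ℝ) - L) ^ 2 =
      ∑ n ∈ Icc 1 x, (#{q ∈ R | q ∣ n} : ℝ) ^ 2 -
        2 * L * ∑ n ∈ Icc 1 x, (#{q ∈ R | q ∣ n} : ℝ) + x * L ^ 2 := by
    have h4 : (x : ℝ) * L ^ 2 = ∑ _n ∈ Icc 1 x, L ^ 2 := by simp
    rw [h4, Finset.mul_sum, ← Finset.sum_sub_distrib, ← Finset.sum_add_distrib]
    exact Finset.sum_congr rfl fun n _ => by ring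
  rw [h3]
  have h5 := mul_le_mul_of_nonneg_left h1 hL
  have h6 := mul_le_mul_of_nonneg_left hx' hL
  nlinarith

end Pool.Agent.G42
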