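import Pool.Agent.MP_b5e119_nt.G42.Defs

/-! Row TWR: the last scale of the tower below a given height. -/

namespace Pool.Agent.G42

open Finset

theorem twr_ge (b j : ℕ) : b + j ≤ tw b j := by
  induction j with
  | zero => exact le_rfl
  | succ j ih =>
    have h : tw b j < 2 ^ tw b j := Nat.lt_two_pow_self
    show b + (j + 1) ≤ 2 ^ tw b j
    omega

theorem twr_row : TWR_s := by
  intro α hα
  obtain ⟨A, hA⟩ : ∃ A : ℕ, 1 / α ≤ A := exists_nat_ge _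
  have hA1 : 1 ≤ α * A := by
    rw [div_le_iff₀ hα] at hA
    linarith
  refine ⟨4 + A * (7 + A), fun b hb => ⟨A * b ^ 4, fun l hl => ?_⟩⟩
  have hex : ∃ j : ℕ, α * l < (tw b j : ℝ) ^ 4 := by
    obtain ⟨j, hj⟩ : ∃ j : ℕ, α * l < j := exists_nat_gt _
    refine ⟨j, hj.trans_le ?_⟩
    have h1 : j ≤ tw b j ^ 4 :=
      ((Nat.le_add_left j b).trans (twr_ge b j)).trans (Nat.le_self_pow (by norm_num) _)
    exact_mod_cast h1
  classical
  have h0 : ¬α * l < (tw b 0 : ℝ) ^ 4 := by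
    rw [not_lt]
    have h1 : ((A * b ^ 4 : ℕ) : ℝ) ≤ l := by exact_mod_cast hl
    push_cast at h1
    have h2 : (0 : ℝ) ≤ (b : ℝ) ^ 4 := by positivity
    show (b : ℝ) ^ 4 ≤ α * l
    calc (b : ℝ) ^ 4 = 1 * (b : ℝ) ^ 4 := (one_mul _).symm
      _ ≤ α * A * (b : ℝ) ^ 4 := mul_le_mul_of_nonneg_right hA1 h2
      _ = α * (A * (b : ℝ) ^ 4) := by ring
      _ ≤ α * l := mul_le_mul_of_nonneg_left h1 hα.le
  have hs := Nat.find_spec hex
  have hne : Nat.find hex ≠ 0 := fun h => h0 (h ▸ hs)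
  obtain ⟨j, hj⟩ := Nat.exists_eq_succ_of_ne_zero hne
  have hm : ¬α * l < (tw b j : ℝ) ^ 4 := Nat.find_min hex (by omega)
  rw [hj] at hs
  have ht : b ≤ tw b j := (Nat.le_add_right b j).trans (twr_ge b j)
  refine ⟨j, by omega, not_lt.1 hm, ?_⟩
  have hs2 : α * l < ((2 ^ tw b j : ℕ) : ℝ) ^ 4 := hs
  generalize tw b j = t at *
  have hl2 : l < 2 ^ (A + 4 * t) := by
    have h1 : (l : ℝ) < (A : ℝ) * ((2 ^ t : ℕ) : ℝ) ^ 4 + 1 := by
      have h2 : (0 : ℝ) ≤ l := Nat.cast_nonneg l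
      have h3 : (0 : ℝ) ≤ A := Nat.cast_nonneg A
      have h4 : (l : ℝ) ≤ A * (α * l) := by nlinarith
      have h5 : (A : ℝ) * (α * l) ≤ A * ((2 ^ t : ℕ) : ℝ) ^ 4 := mul_le_mul_of_nonneg_left hs2.le h3
      linarith
    have h6 : l < A * (2 ^ t) ^ 4 + 1 := by exact_mod_cast h1
    have h7 : A < 2 ^ A := Nat.lt_two_pow_self
    have h8 : 0 < (2 ^ t) ^ 4 := by positivity
    have h9 : 2 ^ (A + 4 * t) = 2 ^ A * (2 ^ t) ^ 4 := by rw [pow_add, ← pow_mul, mul_comm 4 t]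
    rw [h9]
    nlinarith
  have hl3 : Nat.log 2 l ≤ A + 4 * t := by
    rcases Nat.eq_zero_or_pos l with h | h
    · simp [h]
    · exact (Nat.log_lt_of_lt_pow h.ne' hl2).le
  have h1 : (Nat.log 2 l : ℝ) ≤ A + 4 * t := by exact_mod_cast hl3
  have h2 : ((4 + A * (7 + A) : ℕ) : ℝ) ≤ t := by exact_mod_cast hb.trans ht
  push_cast at h2
  have h3 : (0 : ℝ) ≤ A := Nat.cast_nonneg A
  have h4 : (7 + A : ℝ) ≤ α * t := by
    have h5 : α * (A * (7 + A)) ≤ α * t := mul_le_mul_of_nonneg_left (by linarith) hα.le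
    nlinarith
  have h5 : (1 : ℝ) ≤ t := by nlinarith
  have h6 : (7 + A : ℝ) * t ≤ α * t * t := mul_le_mul_of_nonneg_right h4 (by linarith)
  nlinarith

end Pool.Agent.G42
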