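import Pool.Agent.MP_b5e119_nt.G60.DIR
import Pool.Agent.MP_b5e119_nt.G60.MU
import Pool.Agent.MP_b5e119_nt.G60.PAR
import Pool.Agent.MP_b5e119_nt.G60.SUB
import Pool.Agent.MP_b5e119_nt.G60.TR
import Pool.Agent.MP_b5e119_nt.G42.BASE
import Pool.Agent.MP_b5e119_nt.G42.BLK
import Pool.Agent.MP_b5e119_nt.G42.CNT
import Pool.Agent.MP_b5e119_nt.G42.DEC
import Pool.Agent.MP_b5e119_nt.G42.DECA
import Pool.Agent.MP_b5e119_nt.G42.DYA
import Pool.Agent.MP_b5e119_nt.G42.FEWM
import Pool.Agent.MP_b5e119_nt.G42.GCD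
import Pool.Agent.MP_b5e119_nt.G42.IND
import Pool.Agent.MP_b5e119_nt.G42.LRB
import Pool.Agent.MP_b5e119_nt.G42.MOMK
import Pool.Agent.MP_b5e119_nt.G42.STA
import Pool.Agent.MP_b5e119_nt.G42.STB
import Pool.Agent.MP_b5e119_nt.G42.STEP
import Pool.Agent.MP_b5e119_nt.G42.TK
import Pool.Agent.MP_b5e119_nt.G42.TWR

/-! Assembly of the climb. -/

namespace Pool.Agent.G42

open Pool.Agent.G60

theorem lrb : LRB_s := lrb_row dya_row blk_row

theorem momk : MOMK_s := momk_row gcd_row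

theorem step : STEP_s :=
  step_row blk_row lrb (dec_row par_row blk_row (deca_row tk_row blk_row)) momk sta_row stb_row

theorem fewm [Sg] : FEWM_s :=
  fewm_row (ind_row (base_row lrb blk_row (dir_row sub_row tr_row) (mu_row par_row)) step)
    (cnt_row blk_row momk) twr_row

end Pool.Agent.G42
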