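import Pool.Agent.MP_b5e119_nt.G42.ZDefs

namespace Pool.Agent.G42

open Finset

theorem blr_split (a : ℕ) (f g : ℕ → ℤ) :
    (#{k ∈ Ico a (2 * a) | f k = g k} : ℝ) = a - #{k ∈ Ico a (2 * a) | f k ≠ g k} := by
  have h := card_filter_add_card_filter_not (s := Ico a (2 * a)) (fun k => f k = g k)
  rw [Nat.card_Ico, show 2 * a - a = a by omega] at h
  have h2 : (#{k ∈ Ico a (2 * a) | f k = g k} : ℝ) + #{k ∈ Ico a (2 * a) | f k ≠ g k} = a := by
    exact_mod_cast h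
  linarith

theorem blr_xor (T θ : ℕ → ℤ) (a H h : ℕ) (hT : ∀ k, T k = 1 ∨ T k = -1)
    (hθ : ∀ j, θ j = 1 ∨ θ j = -1) (hh : h ≤ H) :
    #{k ∈ Ico a (2 * a) | T (k + h) ≠ T k} * #{j ∈ Ico a (2 * a) | θ (j + h) = θ j} +
      #{k ∈ Ico a (2 * a) | T (k + h) = T k} * #{j ∈ Ico a (2 * a) | θ (j + h) ≠ θ j} ≤
      2 * #{z ∈ Ico a (H + 2 * a) ×ˢ Ico a (H + 2 * a) | T (z.1 + z.2 + 1) ≠ T z.1 * θ z.2} := by
  have hX : #{z ∈ Ico a (2 * a) ×ˢ Ico a (2 * a) | T (z.1 + h + z.2 + 1) ≠ T (z.1 + h) * θ z.2} ≤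
      #{z ∈ Ico a (H + 2 * a) ×ˢ Ico a (H + 2 * a) | T (z.1 + z.2 + 1) ≠ T z.1 * θ z.2} := by
    refine card_le_card_of_injOn (fun z => (z.1 + h, z.2)) (fun z hz => ?_) (fun z _ z' _ e => ?_)
    · simp only [coe_filter, mem_product, mem_Ico, Set.mem_ofPred_eq] at hz ⊢
      exact ⟨⟨by omega, by omega⟩, hz.2⟩
    · simp only [Prod.mk.injEq] at e
      exact Prod.ext (by omega) e.2
  have hY : #{z ∈ Ico a (2 * a) ×ˢ Ico a (2 * a) |
        T (z.1 + (z.2 + h) + 1) ≠ T z.1 * θ (z.2 + h)} ≤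
      #{z ∈ Ico a (H + 2 * a) ×ˢ Ico a (H + 2 * a) | T (z.1 + z.2 + 1) ≠ T z.1 * θ z.2} := by
    refine card_le_card_of_injOn (fun z => (z.1, z.2 + h)) (fun z hz => ?_) (fun z _ z' _ e => ?_)
    · simp only [coe_filter, mem_product, mem_Ico, Set.mem_ofPred_eq] at hz ⊢
      exact ⟨⟨by omega, by omega⟩, hz.2⟩
    · simp only [Prod.mk.injEq] at e
      exact Prod.ext e.1 (by omega)
  rw [← card_product, ← card_product, ← card_union_of_disjoint]
  · refine le_trans (card_le_card ?_)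
      ((card_union_le _ _).trans ((add_le_add hX hY).trans (two_mul _).ge))
    intro z hz
    simp only [mem_union, mem_product, mem_filter] at hz ⊢
    have e : z.1 + (z.2 + h) + 1 = z.1 + h + z.2 + 1 := by omega
    rw [e]
    have hm : z.1 ∈ Ico a (2 * a) ∧ z.2 ∈ Ico a (2 * a) := by
      rcases hz with hz | hz <;> exact ⟨hz.1.1, hz.2.1⟩
    by_contra hc
    simp only [hm.1, hm.2, and_self, true_and, not_or, not_not] at hc hz
    have e2 : T (z.1 + h) * θ z.2 = T z.1 * θ (z.2 + h) := hc.1.symm.trans hc.2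
    rcases hT (z.1 + h) with h1 | h1 <;> rcases hT z.1 with h2 | h2 <;>
      rcases hθ z.2 with h3 | h3 <;> rcases hθ (z.2 + h) with h4 | h4 <;>
      simp [h1, h2, h3, h4] at e2 hz
  · rw [disjoint_left]
    intro z h1 h2
    simp only [mem_product, mem_filter] at h1 h2
    exact h1.1.2 h2.1.2

theorem blr_step (T : ℕ → ℤ) (a H h : ℕ) (hh : h ≤ H) :
    #{k ∈ Ico a (2 * a) | T (k + (h + 1)) ≠ T k} ≤ #{k ∈ Ico a (2 * a) | T (k + h) ≠ T k} +
      #{k ∈ Ico a (H + 2 * a) | T (k + 1) ≠ T k} := by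
  have hX : #{k ∈ Ico a (2 * a) | T (k + h + 1) ≠ T (k + h)} ≤
      #{k ∈ Ico a (H + 2 * a) | T (k + 1) ≠ T k} := by
    refine card_le_card_of_injOn (fun k => k + h) (fun z hz => ?_) (fun z _ z' _ e => ?_)
    · simp only [coe_filter, mem_Ico, Set.mem_ofPred_eq] at hz ⊢
      exact ⟨by omega, hz.2⟩
    · simp only at e
      omega
  refine le_trans (card_le_card ?_) ((card_union_le _ _).trans (add_le_add le_rfl hX))
  intro k hk
  simp only [mem_union, mem_filter] at hk ⊢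
  by_cases e : T (k + h) = T k
  · exact Or.inr ⟨hk.1, by rw [e]; exact hk.2⟩
  · exact Or.inl ⟨hk.1, e⟩

theorem blr_row : BLR_s := by
  intro T θ a H δ hT hθ ha hδ hδ' hF hC
  have ha' : (0 : ℝ) < a := by exact_mod_cast ha
  have hu : ∀ h, h ≤ H → (#{k ∈ Ico a (2 * a) | T (k + h) ≠ T k} : ℝ) ≤ 2 * δ * a := by
    intro h
    induction h with
    | zero => intro _; simp only [add_zero, ne_eq, not_true_eq_false, filter_false, card_empty,
        Nat.cast_zero]; positivity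
    | succ h ih =>
      intro hh
      have h1 := ih (by omega)
      have h2 : (#{k ∈ Ico a (2 * a) | T (k + (h + 1)) ≠ T k} : ℝ) ≤
          #{k ∈ Ico a (2 * a) | T (k + h) ≠ T k} +
            #{k ∈ Ico a (H + 2 * a) | T (k + 1) ≠ T k} := by
        exact_mod_cast blr_step T a H h (by omega)
      have h3 : (#{k ∈ Ico a (2 * a) | T (k + (h + 1)) ≠ T k} : ℝ) *
            #{j ∈ Ico a (2 * a) | θ (j + (h + 1)) = θ j} +
          #{k ∈ Ico a (2 * a) | T (k + (h + 1)) = T k} *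
            #{j ∈ Ico a (2 * a) | θ (j + (h + 1)) ≠ θ j} ≤
          2 * #{z ∈ Ico a (H + 2 * a) ×ˢ Ico a (H + 2 * a) |
            T (z.1 + z.2 + 1) ≠ T z.1 * θ z.2} := by
        exact_mod_cast blr_xor T θ a H (h + 1) hT hθ hh
      rw [blr_split a (fun k => T (k + (h + 1))) T, blr_split a (fun j => θ (j + (h + 1))) θ] at h3
      obtain ⟨u, hu⟩ : ∃ u : ℝ, u = #{k ∈ Ico a (2 * a) | T (k + (h + 1)) ≠ T k} := ⟨_, rfl⟩
      obtain ⟨w, hw⟩ : ∃ w : ℝ, w = #{j ∈ Ico a (2 * a) | θ (j + (h + 1)) ≠ θ j} := ⟨_, rfl⟩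
      have hw0 : 0 ≤ w := hw ▸ Nat.cast_nonneg _
      rw [← hu, ← hw] at h3
      rw [← hu] at h2 ⊢
      have h4 : δ * a ≤ 1 / 12 * a := mul_le_mul_of_nonneg_right hδ' ha'.le
      have h5 : 0 ≤ w * (a - 2 * u) := mul_nonneg hw0 (by linarith)
      have h6 : u * a ≤ (2 * δ * a) * a := by nlinarith
      exact le_of_mul_le_mul_right h6 ha'
  have h7 : ∑ j ∈ {j ∈ Ico a H | θ j ≠ 1}, #{k ∈ Ico a (2 * a) | T (k + (j + 1)) = T k} ≤
      #{z ∈ Ico a (H + 2 * a) ×ˢ Ico a (H + 2 * a) | T (z.1 + z.2 + 1) ≠ T z.1 * θ z.2} := by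
    rw [← card_sigma]
    refine card_le_card_of_injOn (fun z => (z.2, z.1)) (fun z hz => ?_) (fun z _ z' _ e => ?_)
    · simp only [coe_sigma, Set.mem_sigma_iff, coe_filter, mem_product, mem_Ico,
        Set.mem_ofPred_eq] at hz ⊢
      refine ⟨⟨by omega, by omega⟩, ?_⟩
      have e1 : θ z.1 = -1 := (hθ z.1).resolve_left hz.1.2
      rw [add_assoc, hz.2.2, e1]
      rcases hT z.2 with h1 | h1 <;> simp [h1]
    · simp only [Prod.mk.injEq] at e
      exact Sigma.ext e.2 (heq_of_eq e.1)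
  have h8 : (#{j ∈ Ico a H | θ j ≠ 1} : ℝ) * (a / 2) ≤
      ∑ j ∈ {j ∈ Ico a H | θ j ≠ 1}, (#{k ∈ Ico a (2 * a) | T (k + (j + 1)) = T k} : ℝ) := by
    rw [← nsmul_eq_mul]
    refine card_nsmul_le_sum _ _ _ fun j hj => ?_
    have h1 := hu (j + 1) (by have := (mem_Ico.1 (mem_filter.1 hj).1).2; omega)
    rw [blr_split a (fun k => T (k + (j + 1))) T]
    have h4 : δ * a ≤ 1 / 12 * a := mul_le_mul_of_nonneg_right hδ' ha'.le
    linarith
  have h9 : ∑ j ∈ {j ∈ Ico a H | θ j ≠ 1},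
      (#{k ∈ Ico a (2 * a) | T (k + (j + 1)) = T k} : ℝ) ≤ δ * (a : ℝ) ^ 2 :=
    le_trans (by exact_mod_cast h7) hF
  have h10 : (#{j ∈ Ico a H | θ j ≠ 1} : ℝ) * a ≤ (2 * δ * a) * a := by nlinarith
  exact le_of_mul_le_mul_right h10 ha'

end Pool.Agent.G42
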