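import Pool.Agent.MP_b5e119_nt.G42.Defs

namespace Pool.Agent.G42

open Finset

theorem gcd_pair (r r' x : ℕ) (hr' : 0 < r') :
    (#{w ∈ Icc 1 x ×ˢ Icc 1 x | r * w.1 = r' * w.2} : ℝ) ≤ x * ((Nat.gcd r r' : ℝ) / r') := by
  obtain ⟨u, m, hc, hu, hm⟩ := Nat.exists_coprime r r'
  obtain ⟨g, hg⟩ : ∃ g, g = Nat.gcd r r' := ⟨_, rfl⟩
  rw [← hg] at hu hm ⊢
  have hg0 : 0 < g := hg ▸ Nat.gcd_pos_of_pos_right _ hr'
  have hm0 : 0 < m := Nat.pos_of_ne_zero (by rintro rfl; omega)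
  have h1 : #{w ∈ Icc 1 x ×ˢ Icc 1 x | r * w.1 = r' * w.2} ≤ #{a ∈ Ioc 0 x | m ∣ a} := by
    refine card_le_card_of_injOn (fun w => w.1) (fun w hw => ?_) (fun w hw w' hw' h => ?_)
    · simp only [coe_filter, mem_product, mem_Icc, Set.mem_ofPred_eq, mem_Ioc] at hw ⊢
      refine ⟨⟨hw.1.1.1, hw.1.1.2⟩, ?_⟩
      have h2 : u * w.1 = m * w.2 := by
        apply Nat.eq_of_mul_eq_mul_left hg0
        have h3 := hw.2
        rw [hu, hm] at h3
        linarith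
      exact hc.symm.dvd_of_dvd_mul_left ⟨w.2, h2⟩
    · simp only [coe_filter, mem_product, mem_Icc, Set.mem_ofPred_eq] at hw hw' h
      refine Prod.ext h (Nat.eq_of_mul_eq_mul_left hr' ?_)
      rw [← hw.2, ← hw'.2, h]
  rw [Nat.Ioc_filter_dvd_card_eq_div] at h1
  have h4 : ((x / m : ℕ) : ℝ) ≤ (x : ℝ) / m := Nat.cast_div_le
  have h5 : (x : ℝ) * ((g : ℝ) / r') = x / m := by
    have hg1 : (g : ℝ) ≠ 0 := by exact_mod_cast hg0.ne'
    have hm1 : (m : ℝ) ≠ 0 := by exact_mod_cast hm0.ne'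
    rw [hm]; push_cast; field_simp
  rw [h5]
  exact le_trans (by exact_mod_cast h1) h4

theorem gcd_prod {ι : Type} (r : ℕ) (s : Finset ι) (t : ι → ℕ) :
    Nat.gcd r (∏ i ∈ s, t i) ∣ ∏ i ∈ s, Nat.gcd r (t i) := by
  classical
  induction s using Finset.induction_on with
  | empty => simp
  | insert a s ha ih =>
    rw [prod_insert ha, prod_insert ha]
    exact (gcd_mul_dvd_mul_gcd r _ _).trans (Nat.mul_dvd_mul_left _ ih)

theorem gcd_card (S : Finset ℕ) (P : ℕ) (hS : ∀ q ∈ S, q.Prime ∧ P ≤ q ∧ q < 2 * P) : #S ≤ P := by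
  have h : S ⊆ Ico P (2 * P) := fun q hq => mem_Ico.2 (hS q hq).2
  have := card_le_card h
  rw [Nat.card_Ico] at this
  omega

theorem gcd_sum (S : Finset ℕ) (P k : ℕ) (hS : ∀ q ∈ S, q.Prime ∧ P ≤ q ∧ q < 2 * P)
    (t : Fin k → ℕ) (ht : ∀ i, t i ∈ S) :
    ∑ q ∈ S, ((Nat.gcd (∏ i, t i) q : ℝ) / q) ≤ k + 1 := by
  have h1 : ∀ q ∈ S, ((Nat.gcd (∏ i, t i) q : ℝ) / q) ≤
      (if q ∈ univ.image t then (1 : ℝ) else 0) + 1 / P := by
    intro q hq
    obtain ⟨hp, h2, h3⟩ := hS q hq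
    have hP : (0 : ℝ) < P := by exact_mod_cast (show 0 < P by omega)
    have hq0 : (0 : ℝ) < q := by exact_mod_cast hp.pos
    split_ifs with h
    · have h4 : (Nat.gcd (∏ i, t i) q : ℝ) ≤ q := by
        exact_mod_cast Nat.gcd_le_right _ hp.pos
      have h5 : (Nat.gcd (∏ i, t i) q : ℝ) / q ≤ 1 := (div_le_one hq0).2 h4
      have h6 : (0 : ℝ) ≤ 1 / P := by positivity
      linarith
    · have h4 : Nat.Coprime q (∏ i, t i) := by
        refine Nat.Coprime.prod_right fun i _ => ?_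
        refine (Nat.coprime_primes hp (hS _ (ht i)).1).2 fun e => h ?_
        exact mem_image.2 ⟨i, mem_univ _, e.symm⟩
      rw [h4.symm.gcd_eq_one, zero_add, Nat.cast_one]
      exact one_div_le_one_div_of_le hP (by exact_mod_cast h2)
  refine (sum_le_sum h1).trans ?_
  rw [sum_add_distrib]
  refine add_le_add ?_ ?_
  · rw [sum_boole]
    have h2 : #{q ∈ S | q ∈ univ.image t} ≤ k := by
      refine (card_le_card fun q hq => (mem_filter.1 hq).2).trans (card_image_le.trans ?_)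
      simp
    exact_mod_cast h2
  · rw [sum_const, nsmul_eq_mul, mul_one_div]
    exact div_le_one_of_le₀ (by exact_mod_cast gcd_card S P hS) (Nat.cast_nonneg _)

theorem gcd_row : GCD_s := by
  intro S P k x hS
  obtain ⟨A, hA⟩ : ∃ A, A = Fintype.piFinset (fun _ : Fin k => S) := ⟨_, rfl⟩
  rw [← hA]
  have h1 : #{z ∈ (A ×ˢ Icc 1 x) ×ˢ (A ×ˢ Icc 1 x) |
      (∏ i, z.1.1 i) * z.1.2 = (∏ i, z.2.1 i) * z.2.2} =
      ∑ t ∈ A, ∑ t' ∈ A, #{w ∈ Icc 1 x ×ˢ Icc 1 x | (∏ i, t i) * w.1 = (∏ i, t' i) * w.2} := by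
    simp only [card_filter, sum_product]
    exact sum_congr rfl fun t _ => sum_comm
  have h2 : ∀ t ∈ A, ∑ t' ∈ A,
      (#{w ∈ Icc 1 x ×ˢ Icc 1 x | (∏ i, t i) * w.1 = (∏ i, t' i) * w.2} : ℝ) ≤
        x * ((k : ℝ) + 1) ^ k := by
    intro t ht
    have h3 : ∀ t' ∈ A,
        (#{w ∈ Icc 1 x ×ˢ Icc 1 x | (∏ i, t i) * w.1 = (∏ i, t' i) * w.2} : ℝ) ≤
          x * ∏ i, ((Nat.gcd (∏ j, t j) (t' i) : ℝ) / t' i) := by
      intro t' ht'
      rw [hA, Fintype.mem_piFinset] at ht'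
      have hpos : 0 < ∏ i, t' i := prod_pos fun i _ => (hS _ (ht' i)).1.pos
      refine (gcd_pair _ _ x hpos).trans (mul_le_mul_of_nonneg_left ?_ (Nat.cast_nonneg _))
      rw [prod_div_distrib, Nat.cast_prod]
      refine div_le_div_of_nonneg_right ?_ (prod_nonneg fun i _ => Nat.cast_nonneg _)
      have h4 := Nat.le_of_dvd (prod_pos fun i _ =>
        Nat.gcd_pos_of_pos_right _ (hS _ (ht' i)).1.pos) (gcd_prod (∏ j, t j) univ t')
      exact_mod_cast h4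
    refine (sum_le_sum h3).trans ?_
    rw [← mul_sum]
    refine mul_le_mul_of_nonneg_left ?_ (Nat.cast_nonneg _)
    rw [hA, Fintype.mem_piFinset] at ht
    have h5 := prod_univ_sum (fun _ : Fin k => S)
      (fun _ q => ((Nat.gcd (∏ j, t j) q : ℝ) / q))
    rw [hA, ← h5, prod_const, card_univ, Fintype.card_fin]
    exact pow_le_pow_left₀ (sum_nonneg fun q _ => by positivity) (gcd_sum S P k hS t ht) k
  have h6 : #A ≤ P ^ k := by
    rw [hA, Fintype.card_piFinset, prod_const, card_univ, Fintype.card_fin]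
    exact Nat.pow_le_pow_left (gcd_card S P hS) k
  have h7 : ((∑ t ∈ A, ∑ t' ∈ A,
      #{w ∈ Icc 1 x ×ˢ Icc 1 x | (∏ i, t i) * w.1 = (∏ i, t' i) * w.2} : ℕ) : ℝ) ≤
        ((x * P ^ k * (k + 1) ^ k : ℕ) : ℝ) := by
    push_cast
    refine (sum_le_sum h2).trans ?_
    rw [sum_const, nsmul_eq_mul]
    have h8 : (#A : ℝ) ≤ (P : ℝ) ^ k := by exact_mod_cast h6
    have h9 : (0 : ℝ) ≤ x * ((k : ℝ) + 1) ^ k := by positivity
    calc (#A : ℝ) * (x * ((k : ℝ) + 1) ^ k) ≤ (P : ℝ) ^ k * (x * ((k : ℝ) + 1) ^ k) :=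
          mul_le_mul_of_nonneg_right h8 h9
      _ = x * (P : ℝ) ^ k * ((k : ℝ) + 1) ^ k := by ring
  rw [h1]
  exact_mod_cast h7

end Pool.Agent.G42
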