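import Pool.Agent.MP_b5e119_nt.G42.ZDefs

namespace Pool.Agent.G42

open Finset Filter Topology Pool.Agent.G60

section

variable (p : ℕ) [Fact p.Prime]

theorem lid_tri (n : ℕ) : leg p n = 0 ∨ leg p n = 1 ∨ leg p n = -1 :=
  quadraticChar_isQuadratic (ZMod p) _

theorem lid_mul (a b : ℕ) : leg p (a * b) = leg p a * leg p b := by
  unfold leg
  rw [Nat.cast_mul, legendreSym.mul]

theorem lid_one : leg p 1 = 1 := by
  unfold leg
  rw [Nat.cast_one, legendreSym.at_one]

theorem lid_pow (a k : ℕ) : leg p (a ^ k) = leg p a ^ k := by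
  induction k with
  | zero => rw [pow_zero, pow_zero, lid_one]
  | succ k ih => rw [pow_succ, pow_succ, lid_mul, ih]

/-- The Legendre symbol as an arithmetic function. -/
noncomputable def lid_chi : ArithmeticFunction ℝ :=
  ⟨fun n => (leg p n : ℝ), by simp [leg]⟩

theorem lid_chi_apply (n : ℕ) : lid_chi p n = (leg p n : ℝ) := rfl

theorem lid_rr (n : ℕ) :
    rr p n = (lid_chi p * (ArithmeticFunction.zeta : ArithmeticFunction ℝ)) n := by
  rw [ArithmeticFunction.coe_mul_zeta_apply]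
  rfl

theorem lid_nonneg (n : ℕ) : 0 ≤ rr p n := by
  rcases Nat.eq_zero_or_pos n with rfl | hn
  · simp [rr]
  have h1 : (lid_chi p).IsMultiplicative :=
    ⟨by rw [lid_chi_apply, lid_one, Int.cast_one], fun {a b} _ => by
      rw [lid_chi_apply, lid_chi_apply, lid_chi_apply, lid_mul, Int.cast_mul]⟩
  have h2 := h1.mul (ArithmeticFunction.isMultiplicative_zeta.natCast (R := ℝ))
  rw [lid_rr, h2.multiplicative_factorization _ hn.ne']
  refine Finset.prod_nonneg fun q hq => ?_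
  have hq' : q.Prime := Nat.prime_of_mem_primeFactors hq
  refine le_of_le_of_eq ?_ (lid_rr p (q ^ n.factorization q))
  rw [rr, Nat.sum_divisors_prime_pow hq']
  simp only [lid_pow, Int.cast_pow]
  rcases lid_tri p q with h | h | h
  · rw [h]; exact sum_nonneg fun i _ => by positivity
  · rw [h]; exact sum_nonneg fun i _ => by positivity
  · rw [h, Int.cast_neg, Int.cast_one, neg_one_geom_sum]
    split_ifs <;> norm_num

theorem lid_Lr (e : ℕ) : 0 ≤ Lr p e := by
  refine mul_nonneg ArithmeticFunction.vonMangoldt_nonneg ?_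
  rcases lid_tri p e with h | h | h <;> rw [h] <;> norm_num

theorem lid_der (f g : ArithmeticFunction ℝ) : (f * g).pmul ArithmeticFunction.log =
    f.pmul ArithmeticFunction.log * g + f * g.pmul ArithmeticFunction.log := by
  ext n
  simp only [ArithmeticFunction.pmul_apply, ArithmeticFunction.add_apply,
    ArithmeticFunction.mul_apply, ArithmeticFunction.log_apply, sum_mul, ← sum_add_distrib]
  refine sum_congr rfl fun y hy => ?_
  obtain ⟨h1, h2⟩ := Nat.mem_divisorsAntidiagonal.1 hy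
  have h3 : y.1 * y.2 ≠ 0 := h1 ▸ h2
  rw [← h1, Nat.cast_mul, Real.log_mul (Nat.cast_ne_zero.2 (left_ne_zero_of_mul h3))
    (Nat.cast_ne_zero.2 (right_ne_zero_of_mul h3))]
  ring

theorem lid_tw (f g : ArithmeticFunction ℝ) :
    (lid_chi p).pmul (f * g) = (lid_chi p).pmul f * (lid_chi p).pmul g := by
  ext n
  simp only [ArithmeticFunction.pmul_apply, ArithmeticFunction.mul_apply, mul_sum]
  refine sum_congr rfl fun y hy => ?_
  obtain ⟨h1, _⟩ := Nat.mem_divisorsAntidiagonal.1 hy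
  rw [← h1, lid_chi_apply, lid_chi_apply, lid_chi_apply, lid_mul, Int.cast_mul]
  ring

theorem lid_conv (n : ℕ) :
    rr p n * Real.log n = ∑ y ∈ n.divisorsAntidiagonal, rr p y.1 * Lr p y.2 := by
  have h1 : (lid_chi p * (ArithmeticFunction.zeta : ArithmeticFunction ℝ)).pmul
      ArithmeticFunction.log = (lid_chi p * (ArithmeticFunction.zeta : ArithmeticFunction ℝ)) *
        (ArithmeticFunction.vonMangoldt + (lid_chi p).pmul ArithmeticFunction.vonMangoldt) := by
    have e1 : (lid_chi p).pmul ArithmeticFunction.log =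
        (lid_chi p).pmul ArithmeticFunction.vonMangoldt * lid_chi p := by
      rw [← ArithmeticFunction.vonMangoldt_mul_zeta, lid_tw, ArithmeticFunction.pmul_zeta]
    rw [lid_der, e1, ArithmeticFunction.zeta_pmul, ← ArithmeticFunction.vonMangoldt_mul_zeta]
    ring
  have h2 := congrArg (fun f : ArithmeticFunction ℝ => f n) h1
  simp only [ArithmeticFunction.pmul_apply, ArithmeticFunction.log_apply] at h2
  rw [lid_rr, h2, ArithmeticFunction.mul_apply]
  refine sum_congr rfl fun y _ => ?_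
  rw [← lid_rr, ArithmeticFunction.add_apply, ArithmeticFunction.pmul_apply, lid_chi_apply, Lr]
  ring

theorem lid_sub {x y : ℕ} (h : x ≤ y) : ZZ p y - ZZ p x = ∑ n ∈ Ioc x y, rr p n / n := by
  have e : ∀ t : ℕ, Icc 1 t = Ioc 0 t := fun t => by
    ext a
    simp only [mem_Icc, mem_Ioc]
    omega
  unfold ZZ
  rw [e, e, ← sum_Ioc_consecutive _ (Nat.zero_le x) h]
  ring

end

theorem lid_row : LID_s := by
  intro p _
  refine ⟨lid_nonneg p, by simp [rr, lid_one], fun z x₀ x₁ hz h0 h1 => ?_⟩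
  have hF : ∀ y : ℕ × ℕ, 0 ≤ rr p y.1 / y.1 * (Lr p y.2 / y.2) := fun y =>
    mul_nonneg (div_nonneg (lid_nonneg p _) (Nat.cast_nonneg _))
      (div_nonneg (lid_Lr p _) (Nat.cast_nonneg _))
  have s1 : Real.log x₀ * (ZZ p x₁ - ZZ p x₀) ≤
      ∑ n ∈ Ioc x₀ x₁, ∑ y ∈ n.divisorsAntidiagonal, rr p y.1 / y.1 * (Lr p y.2 / y.2) := by
    rw [lid_sub p h1, mul_sum]
    refine sum_le_sum fun n hn => ?_
    have hn' := (mem_Ioc.1 hn).1
    have e : ∑ y ∈ n.divisorsAntidiagonal, rr p y.1 / y.1 * (Lr p y.2 / y.2) =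
        Real.log n * (rr p n / n) := by
      rw [← mul_div_assoc, mul_comm, lid_conv, sum_div]
      refine sum_congr rfl fun y hy => ?_
      rw [← (Nat.mem_divisorsAntidiagonal.1 hy).1, Nat.cast_mul, div_mul_div_comm]
    rw [e]
    refine mul_le_mul_of_nonneg_right (Real.log_le_log ?_ ?_)
      (div_nonneg (lid_nonneg p _) (Nat.cast_nonneg _))
    · exact Nat.cast_pos.2 (by omega)
    · exact Nat.cast_le.2 hn'.le
  have hd : (Ioc x₀ x₁ : Set ℕ).PairwiseDisjoint Nat.divisorsAntidiagonal := by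
    intro a _ b _ hab
    refine disjoint_left.2 fun y ha hb => hab ?_
    rw [← (Nat.mem_divisorsAntidiagonal.1 ha).1, (Nat.mem_divisorsAntidiagonal.1 hb).1]
  have hsub : (Ioc x₀ x₁).biUnion Nat.divisorsAntidiagonal ⊆
      Ioc (x₀ / z) x₁ ×ˢ Ico 1 z ∪ Icc 1 x₁ ×ˢ Icc z x₁ := by
    intro y hy
    obtain ⟨n, hn, hy⟩ := mem_biUnion.1 hy
    obtain ⟨e1, e2⟩ := Nat.mem_divisorsAntidiagonal.1 hy
    obtain ⟨n1, n2⟩ := mem_Ioc.1 hn
    have h3 : y.1 * y.2 ≠ 0 := e1 ▸ e2
    have p1 := Nat.pos_of_ne_zero (left_ne_zero_of_mul h3)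
    have p2 := Nat.pos_of_ne_zero (right_ne_zero_of_mul h3)
    have q1 : y.1 ≤ x₁ := (Nat.le_mul_of_pos_right _ p2).trans (e1 ▸ n2)
    have q2 : y.2 ≤ x₁ := (Nat.le_mul_of_pos_left _ p1).trans (e1 ▸ n2)
    rw [mem_union, mem_product, mem_product, mem_Ioc, mem_Ico, mem_Icc, mem_Icc]
    by_cases hlt : y.2 < z
    · refine Or.inl ⟨⟨(Nat.div_lt_iff_lt_mul hz).2 ?_, q1⟩, p2, hlt⟩
      exact (e1 ▸ n1 : x₀ < y.1 * y.2).trans_le (Nat.mul_le_mul_left _ hlt.le)
    · exact Or.inr ⟨⟨p1, q1⟩, Nat.not_lt.1 hlt, q2⟩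
  have hdis : Disjoint (Ioc (x₀ / z) x₁ ×ˢ Ico 1 z) (Icc 1 x₁ ×ˢ Icc z x₁) := by
    refine disjoint_left.2 fun y ha hb => ?_
    have a1 := (mem_Ico.1 (mem_product.1 ha).2).2
    have a2 := (mem_Icc.1 (mem_product.1 hb).2).1
    omega
  refine s1.trans ?_
  rw [← sum_biUnion (by simpa using hd)]
  refine (sum_le_sum_of_subset_of_nonneg hsub fun y _ _ => hF y).trans (le_of_eq ?_)
  rw [sum_union hdis, lid_sub p ((Nat.div_le_self _ _).trans h1), mul_comm, sum_mul_sum,
    sum_product, mul_comm, ZZ, sum_mul_sum, sum_product]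

end Pool.Agent.G42
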