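import Pool.Agent.MP_b5e119_nt.G42.ZDefs

/-! Row MER: Mertens' upper bound and the reduction to split primes. -/

namespace Pool.Agent.G42

open Finset Filter Topology Pool.Agent.G60

theorem mer_a (z : ℕ) : ∑ e ∈ Ioc 0 z, ArithmeticFunction.vonMangoldt e * ((z / e : ℕ) : ℝ) =
    ∑ n ∈ Ioc 0 z, Real.log n := by
  have h1 : ∀ n ∈ Ioc 0 z, Real.log n =
      ∑ e ∈ Ioc 0 z, if e ∣ n then ArithmeticFunction.vonMangoldt e else 0 := by
    intro n hn
    rw [mem_Ioc] at hn
    rw [← ArithmeticFunction.vonMangoldt_sum, ← sum_filter]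
    refine sum_congr ?_ fun _ _ => rfl
    ext d
    simp only [Nat.mem_divisors, mem_filter, mem_Ioc]
    constructor
    · rintro ⟨hd, h0⟩
      exact ⟨⟨Nat.pos_of_dvd_of_pos hd hn.1, (Nat.le_of_dvd hn.1 hd).trans hn.2⟩, hd⟩
    · rintro ⟨_, hd⟩
      exact ⟨hd, hn.1.ne'⟩
  rw [sum_congr rfl h1, sum_comm]
  refine sum_congr rfl fun e _ => ?_
  rw [← sum_filter, sum_const, Nat.Ioc_filter_dvd_card_eq_div, nsmul_eq_mul, mul_comm]

theorem mer_b (z : ℕ) (hz : 0 < z) :
    ∑ e ∈ Ioc 0 z, ArithmeticFunction.vonMangoldt e / (e : ℝ) ≤ Real.log z + (Real.log 4 + 4) := by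
  have hz' : (0 : ℝ) < z := by exact_mod_cast hz
  have h1 : ∑ n ∈ Ioc 0 z, Real.log n ≤ z * Real.log z := by
    calc ∑ n ∈ Ioc 0 z, Real.log n ≤ ∑ _n ∈ Ioc 0 z, Real.log z := by
          refine sum_le_sum fun n hn => ?_
          rw [mem_Ioc] at hn
          exact Real.log_le_log (by exact_mod_cast hn.1) (by exact_mod_cast hn.2)
      _ = z * Real.log z := by simp
  have h2 : ∑ e ∈ Ioc 0 z, ArithmeticFunction.vonMangoldt e ≤ (Real.log 4 + 4) * z := by
    have h := Chebyshev.psi_le_const_mul_self hz'.le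
    unfold Chebyshev.psi at h
    rwa [Nat.floor_natCast] at h
  have h3 : (z : ℝ) * ∑ e ∈ Ioc 0 z, ArithmeticFunction.vonMangoldt e / (e : ℝ) ≤
      ∑ e ∈ Ioc 0 z, ArithmeticFunction.vonMangoldt e * ((z / e : ℕ) : ℝ) +
        ∑ e ∈ Ioc 0 z, ArithmeticFunction.vonMangoldt e := by
    rw [mul_sum, ← sum_add_distrib]
    refine sum_le_sum fun e he => ?_
    rw [mem_Ioc] at he
    have he' : (0 : ℝ) < e := by exact_mod_cast he.1
    have h4 : (z : ℝ) ≤ e * (((z / e : ℕ) : ℝ) + 1) := by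
      have h5 : z ≤ e * (z / e + 1) := (Nat.lt_mul_div_succ z he.1).le
      exact_mod_cast h5
    have h6 : (z : ℝ) / e ≤ ((z / e : ℕ) : ℝ) + 1 := by
      rw [div_le_iff₀ he']; linarith
    have h7 : 0 ≤ ArithmeticFunction.vonMangoldt e := ArithmeticFunction.vonMangoldt_nonneg
    calc (z : ℝ) * (ArithmeticFunction.vonMangoldt e / (e : ℝ))
        = ArithmeticFunction.vonMangoldt e * ((z : ℝ) / e) := by ring
      _ ≤ ArithmeticFunction.vonMangoldt e * (((z / e : ℕ) : ℝ) + 1) :=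
          mul_le_mul_of_nonneg_left h6 h7
      _ = _ := by ring
  rw [mer_a] at h3
  have h8 : (z : ℝ) * ∑ e ∈ Ioc 0 z, ArithmeticFunction.vonMangoldt e / (e : ℝ) ≤
      z * (Real.log z + (Real.log 4 + 4)) := by linarith
  exact le_of_mul_le_mul_left h8 hz'

theorem mer_c : ∃ D : ℝ, 0 ≤ D ∧ ∀ s : Finset ℕ,
    ∑ n ∈ s, (if n.Prime then 0 else ArithmeticFunction.vonMangoldt n) / (n : ℝ) ≤ D := by
  have h := ArithmeticFunction.vonMangoldt.summable_residueClass_non_primes_div (0 : ZMod 1)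
  have h1 : ∀ n : ℕ, ArithmeticFunction.vonMangoldt.residueClass (0 : ZMod 1) n =
      ArithmeticFunction.vonMangoldt n := by
    intro n
    exact Set.indicator_of_mem (s := {n : ℕ | (n : ZMod 1) = 0})
      (show ((n : ℕ) : ZMod 1) = 0 from Subsingleton.elim _ _) _
  simp only [h1] at h
  have h0 : ∀ n : ℕ, 0 ≤ (if n.Prime then 0 else ArithmeticFunction.vonMangoldt n) / (n : ℝ) := by
    intro n
    refine div_nonneg ?_ (Nat.cast_nonneg n)
    split_ifs
    · exact le_rfl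
    · exact ArithmeticFunction.vonMangoldt_nonneg
  exact ⟨_, tsum_nonneg h0, fun s => h.sum_le_tsum s fun n _ => h0 n⟩

theorem mer_d (p : ℕ) [Fact p.Prime] (e : ℕ) :
    Lr p e / e ≤ 2 * (ArithmeticFunction.vonMangoldt e / (e : ℝ)) := by
  have h1 : (leg p e : ℝ) ≤ 1 := by
    have h2 : leg p e ≤ 1 := by
      unfold leg
      rcases legendreSym.eq_one_or_neg_one p (a := (e : ℤ)) |> fun h =>
        (em (((e : ℤ) : ZMod p) = 0)).imp id h with h | h | h
      · rw [(legendreSym.eq_zero_iff p _).2 h]; norm_num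
      · rw [h]
      · rw [h]; norm_num
    exact_mod_cast h2
  have h7 : 0 ≤ ArithmeticFunction.vonMangoldt e := ArithmeticFunction.vonMangoldt_nonneg
  unfold Lr
  rw [← mul_div_assoc]
  refine div_le_div_of_nonneg_right ?_ (Nat.cast_nonneg e)
  nlinarith

theorem mer_e (p : ℕ) [Fact p.Prime] (e : ℕ) (he : e < p) : Lr p e / e ≤
    2 * ((if e.Prime then 0 else ArithmeticFunction.vonMangoldt e) / (e : ℝ)) +
      2 * (if e.Prime ∧ leg p e = 1 then Real.log e / e else 0) := by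
  by_cases hp : e.Prime
  · have hne : (((e : ℕ) : ℤ) : ZMod p) ≠ 0 := by
      rw [Int.cast_natCast, Ne, ZMod.natCast_eq_zero_iff]
      intro h
      exact absurd (Nat.le_of_dvd hp.pos h) (not_le.2 he)
    rcases legendreSym.eq_one_or_neg_one p hne with h | h
    · have h' : leg p e = 1 := h
      have h3 := mer_d p e
      rw [ArithmeticFunction.vonMangoldt_apply_prime hp] at h3
      rw [if_pos hp, if_pos ⟨hp, h'⟩, zero_div]
      linarith
    · have h' : leg p e = -1 := h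
      have h4 : ¬(e.Prime ∧ leg p e = 1) := by
        rintro ⟨_, h5⟩
        rw [h'] at h5
        exact absurd h5 (by norm_num)
      rw [if_pos hp, if_neg h4]
      unfold Lr
      rw [h']
      simp
  · have h4 : ¬(e.Prime ∧ leg p e = 1) := fun h => hp h.1
    rw [if_neg hp, if_neg h4]
    have h3 := mer_d p e
    linarith

theorem mer_row : MER_s := by
  obtain ⟨D, hD, hs⟩ := mer_c
  have h4 : 0 ≤ Real.log 4 := Real.log_nonneg (by norm_num)
  refine ⟨2 * (Real.log 4 + 4) + 2 * D, by positivity, fun p _ z hz => ⟨?_, fun x hx => ?_⟩⟩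
  · have h1 : ∑ e ∈ Ico 1 z, Lr p e / e ≤
        ∑ e ∈ Ico 1 z, 2 * (ArithmeticFunction.vonMangoldt e / (e : ℝ)) :=
      sum_le_sum fun e _ => mer_d p e
    have h2 : ∑ e ∈ Ico 1 z, ArithmeticFunction.vonMangoldt e / (e : ℝ) ≤
        ∑ e ∈ Ioc 0 z, ArithmeticFunction.vonMangoldt e / (e : ℝ) := by
      refine sum_le_sum_of_subset_of_nonneg (fun e he => ?_) fun e _ _ =>
        div_nonneg ArithmeticFunction.vonMangoldt_nonneg (Nat.cast_nonneg e)
      rw [mem_Ico] at he
      rw [mem_Ioc]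
      exact ⟨he.1, he.2.le⟩
    rw [← mul_sum] at h1
    have h3 := mer_b z hz
    linarith
  · have h1 := sum_le_sum (s := Icc z x) fun e he =>
      mer_e p e (lt_of_le_of_lt (mem_Icc.1 he).2 hx)
    rw [sum_add_distrib, ← mul_sum, ← mul_sum, ← sum_filter] at h1
    have h2 := hs (Icc z x)
    linarith

end Pool.Agent.G42
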