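import Pool.Agent.MP_b5e119_nt.G42.ZDefs

namespace Pool.Agent.G42

open Finset Filter Topology Pool.Agent.G60

theorem scb_pos (p m : ℕ) (hp : 0 < p) (hm : m + 1 ≤ Nat.log 2 p) : 2 ^ m ≤ p - 1 := by
  have h1 : 2 ^ Nat.log 2 p ≤ p := Nat.pow_log_le_self 2 (by omega)
  have h2 : 2 ^ (m + 1) ≤ 2 ^ Nat.log 2 p := Nat.pow_le_pow_right (by norm_num) hm
  have h3 : 0 < 2 ^ m := by positivity
  rw [pow_succ] at h2
  omega

theorem scb_sign (G : ℕ → ℤ) (p m : ℕ) (hG : CM G p) :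
    ∀ n ∈ Icc 1 (YY p m), G n = 1 ∨ G n = -1 := by
  intro n hn
  obtain ⟨h1, h2⟩ := mem_Icc.1 hn
  have h3 : YY p m ≤ p - 1 := Nat.div_le_self _ _
  exact hG.1 n h1 (by omega)

theorem scb_row (hDYA : DYA_s) (hMAJ : MAJ_s) (hPAIR : PAIR_s) : SCB_s := by
  obtain ⟨i₀, hD⟩ := hDYA
  refine ⟨2560000, 2 ^ (200 * (i₀ + 1)), by norm_num, fun G p k hp hG hk => ?_⟩
  have hl : 200 * (i₀ + 1) ≤ Nat.log 2 p := Nat.le_log_of_pow_le (by norm_num) hp
  have hp0 : 0 < p := lt_of_lt_of_le (by positivity) hp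
  have ha : aa p = Nat.log 2 p / 200 := rfl
  have hYpos : ∀ m, m + 1 ≤ Nat.log 2 p → 0 < YY p m := fun m hm =>
    Nat.div_pos (scb_pos p m hp0 hm) (by positivity)
  have hYdiv : ∀ j, YY p (k + j) = YY p k / 2 ^ j := fun j => by
    unfold YY; rw [Nat.div_div_eq_div_mul, pow_add]
  have hmaj : ∀ m, YY p m ≤ 2 * #{n ∈ Icc 1 (YY p m) | G n = TT G p m} := fun m => by
    have := ((hMAJ (Icc 1 (YY p m)) G).2 (scb_sign G p m hG)).1
    rwa [Nat.card_Icc, Nat.add_sub_cancel] at this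
  have hY0 : 0 < YY p k := hYpos k (by omega)
  have hY0' : (0 : ℝ) < YY p k := by exact_mod_cast hY0
  set E : ℕ := #{u ∈ Icc 1 (YY p k) | G u ≠ TT G p k} with hE
  have hee : ee G p k = (E : ℝ) / YY p k := rfl
  constructor
  · intro hne
    have h1 := hmaj (k + 1)
    have h2 : #{n ∈ Icc 1 (YY p (k + 1)) | G n = TT G p (k + 1)} ≤ E := by
      refine card_le_card fun n hn => ?_
      obtain ⟨a1, a2⟩ := mem_filter.1 hn
      obtain ⟨a3, a4⟩ := mem_Icc.1 a1
      refine mem_filter.2 ⟨mem_Icc.2 ⟨a3, le_trans a4 ?_⟩, by rw [a2]; exact hne⟩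
      rw [hYdiv 1]
      exact Nat.div_le_self _ _
    have h3 := hYpos (k + 1) (by omega)
    have h4 := hYdiv 1
    have h5 : YY p k ≤ 5 * E := by omega
    rw [hee, ← mul_div_assoc, le_div_iff₀ hY0', one_mul]
    exact_mod_cast h5
  · have hP := hPAIR G p (aa p) (87 * aa p) k (TT G p k) hG
    rw [← hE] at hP
    have hfail : ∀ j ∈ {j ∈ Ico (aa p) (87 * aa p) | TT G p (k + j + 1) ≠ TT G p k * th G j},
        YY p k ≤ 16 * Nat.log 2 p *
          #{z ∈ PB j ×ˢ Icc 1 (YY p (k + j + 1)) | G z.1 * G z.2 ≠ TT G p k} := by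
      intro j hj
      obtain ⟨b1, hne⟩ := mem_filter.1 hj
      obtain ⟨b2, b3⟩ := mem_Ico.1 b1
      have c1 : 2 ^ j ≤ j * #(PB j) := (hD j (by omega)).1
      have c2 : #(PB j) ≤ 2 * #{q ∈ PB j | G q = th G j} := by
        refine ((hMAJ (PB j) G).2 fun q hq => ?_).1
        obtain ⟨d1, d2⟩ := mem_filter.1 hq
        have d3 := (mem_Ico.1 d1).2
        have d4 := scb_pos p (j + 1) hp0 (by omega)
        exact hG.1 q d2.pos (by omega)
      have c3 := hmaj (k + j + 1)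
      have c4 : #{q ∈ PB j | G q = th G j} *
          #{n ∈ Icc 1 (YY p (k + j + 1)) | G n = TT G p (k + j + 1)} ≤
          #{z ∈ PB j ×ˢ Icc 1 (YY p (k + j + 1)) | G z.1 * G z.2 ≠ TT G p k} := by
        rw [← card_product]
        refine card_le_card fun z hz => ?_
        obtain ⟨d1, d2⟩ := mem_product.1 hz
        obtain ⟨d3, d4⟩ := mem_filter.1 d1
        obtain ⟨d5, d6⟩ := mem_filter.1 d2
        refine mem_filter.2 ⟨mem_product.2 ⟨d3, d5⟩, fun h => hne ?_⟩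
        rw [d4, d6] at h
        have d7 : th G j = 1 ∨ th G j = -1 := (hMAJ (PB j) G).1
        rw [← h]
        rcases d7 with d7 | d7 <;> rw [d7] <;> ring
      have c5 := hYpos (k + j + 1) (by omega)
      have c6 : YY p k < 2 ^ (j + 1) * (YY p (k + j + 1) + 1) := by
        rw [add_assoc, hYdiv (j + 1)]
        exact Nat.lt_mul_div_succ _ (by positivity)
      set Y' := YY p (k + j + 1)
      set n1 := #{q ∈ PB j | G q = th G j}
      set n2 := #{n ∈ Icc 1 Y' | G n = TT G p (k + j + 1)}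
      set bd := #{z ∈ PB j ×ˢ Icc 1 Y' | G z.1 * G z.2 ≠ TT G p k}
      calc YY p k ≤ 2 ^ (j + 1) * (Y' + 1) := c6.le
        _ ≤ 2 ^ (j + 1) * (2 * Y') := Nat.mul_le_mul_left _ (by omega)
        _ = 4 * (2 ^ j * Y') := by ring
        _ ≤ 4 * ((j * (2 * n1)) * (2 * n2)) :=
          Nat.mul_le_mul_left _ (Nat.mul_le_mul (le_trans c1 (Nat.mul_le_mul_left _ c2)) c3)
        _ = 16 * j * (n1 * n2) := by ring
        _ ≤ 16 * Nat.log 2 p * bd :=
          Nat.mul_le_mul (Nat.mul_le_mul_left _ (by omega)) c4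
    have h1 := card_nsmul_le_sum _ _ _ hfail
    rw [smul_eq_mul, ← mul_sum] at h1
    have h2 := sum_le_sum_of_subset (f := fun j =>
      #{z ∈ PB j ×ˢ Icc 1 (YY p (k + j + 1)) | G z.1 * G z.2 ≠ TT G p k})
      (filter_subset (fun j => TT G p (k + j + 1) ≠ TT G p k * th G j) (Ico (aa p) (87 * aa p)))
    set F := #{j ∈ Ico (aa p) (87 * aa p) | TT G p (k + j + 1) ≠ TT G p k * th G j}
    set S := ∑ j ∈ Ico (aa p) (87 * aa p),
      #{z ∈ PB j ×ˢ Icc 1 (YY p (k + j + 1)) | G z.1 * G z.2 ≠ TT G p k}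
    have h3 : F * YY p k ≤ 16 * Nat.log 2 p * S := le_trans h1 (Nat.mul_le_mul_left _ h2)
    have h4 : Nat.log 2 p ≤ 400 * aa p := by omega
    have h5 : aa p * (F * YY p k) ≤ aa p * (2560000 * E * aa p) := by
      calc aa p * (F * YY p k) ≤ aa p * (16 * Nat.log 2 p * S) := Nat.mul_le_mul_left _ h3
        _ = 16 * Nat.log 2 p * (aa p * S) := by ring
        _ ≤ 16 * Nat.log 2 p * (Nat.log 2 p * E) := Nat.mul_le_mul_left _ hP
        _ ≤ 16 * (400 * aa p) * ((400 * aa p) * E) :=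
          Nat.mul_le_mul (Nat.mul_le_mul_left _ h4) (Nat.mul_le_mul_right _ h4)
        _ = _ := by ring
    have h6 : F * YY p k ≤ 2560000 * E * aa p := Nat.le_of_mul_le_mul_left h5 (by omega)
    rw [hee, ← mul_div_assoc, div_mul_eq_mul_div, le_div_iff₀ hY0']
    exact_mod_cast h6

end Pool.Agent.G42
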