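import Pool.Agent.MP_b5e119_nt.G42.ZDefs

namespace Pool.Agent.G42

open Finset Filter Topology Pool.Agent.G60

theorem tlb_per (p : ℕ) [Fact p.Prime] (hp : 2 < p) (n : ℕ) :
    ∑ m ∈ range (n + p), (leg p m : ℝ) = ∑ m ∈ range n, (leg p m : ℝ) := by
  induction n with
  | zero =>
    have h : ∑ m ∈ range p, leg p m = ∑ a : ZMod p, quadraticChar (ZMod p) a := by
      refine sum_nbij' (fun m => (m : ZMod p)) (fun a => a.val) (fun _ _ => mem_univ _)
        (fun a _ => mem_range.2 (ZMod.val_lt a)) (fun m hm => ZMod.val_cast_of_lt (mem_range.1 hm))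
        (fun a _ => ZMod.natCast_zmod_val a) fun m _ => ?_
      simp [leg, legendreSym]
    rw [quadraticChar_sum_zero (by rw [ZMod.ringChar_zmod_n]; omega)] at h
    rw [zero_add, sum_range_zero]
    exact_mod_cast h
  | succ n ih =>
    rw [show n + 1 + p = n + p + 1 by ring, sum_range_succ, sum_range_succ, ih]
    simp [leg, legendreSym]

theorem tlb_le (p : ℕ) [Fact p.Prime] (hp : 2 < p) (n : ℕ) :
    |∑ m ∈ range n, (leg p m : ℝ)| ≤ p := by
  induction n using Nat.strong_induction_on with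
  | _ n ih =>
    rcases lt_or_ge n p with h | h
    · refine (abs_sum_le_sum_abs _ _).trans ((sum_le_card_nsmul _ _ 1 fun m _ => ?_).trans ?_)
      · have := quadraticChar_isQuadratic (ZMod p) (((m : ℕ) : ℤ) : ZMod p)
        rw [leg, legendreSym]
        rcases this with e | e | e <;> rw [e] <;> norm_num
      · rw [card_range, nsmul_one]
        exact_mod_cast h.le
    · obtain ⟨k, rfl⟩ := Nat.exists_eq_add_of_le' h
      rw [tlb_per p hp]
      exact ih k (by omega)

theorem tlb_row : TLB_s := by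
  intro p _ β U V hp hβ hU hV
  obtain ⟨S, hS⟩ : ∃ S : ℕ → ℝ, ∀ V, S V =
    ∑ m ∈ range (V + 1), (leg p m : ℝ) - ∑ m ∈ range (U + 1), (leg p m : ℝ) := ⟨_, fun _ => rfl⟩
  have s1 : ∀ V, |S V| ≤ 2 * p := fun V => by
    have := tlb_le p hp (V + 1)
    have := tlb_le p hp (U + 1)
    rw [hS]
    exact (abs_sub _ _).trans (by linarith)
  have key : |∑ n ∈ Icc 1 V, (leg p n : ℝ) * (n : ℝ) ^ (-β) -
      ∑ n ∈ Icc 1 U, (leg p n : ℝ) * (n : ℝ) ^ (-β) - S V * (V : ℝ) ^ (-β)| ≤
      2 * p * ((U : ℝ) ^ (-β) - (V : ℝ) ^ (-β)) := by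
    induction V, hV using Nat.le_induction with
    | base => simp [hS]
    | succ V hV ih =>
      have d : ((V + 1 : ℕ) : ℝ) ^ (-β) ≤ (V : ℝ) ^ (-β) :=
        Real.rpow_le_rpow_of_nonpos (by exact_mod_cast hU.trans_le hV) (by simp) (by linarith)
      have e : S (V + 1) = S V + leg p (V + 1) := by rw [hS, hS, sum_range_succ]; ring
      have k : |S V * ((V : ℝ) ^ (-β) - ((V + 1 : ℕ) : ℝ) ^ (-β))| ≤
          2 * p * ((V : ℝ) ^ (-β) - ((V + 1 : ℕ) : ℝ) ^ (-β)) := by
        rw [abs_mul, abs_of_nonneg (sub_nonneg.2 d)]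
        exact mul_le_mul_of_nonneg_right (s1 V) (sub_nonneg.2 d)
      rw [sum_Icc_succ_top (by omega), e]
      rw [abs_le] at ih k ⊢
      constructor <;> linarith [ih.1, ih.2, k.1, k.2]
  have k : |S V * (V : ℝ) ^ (-β)| ≤ 2 * p * (V : ℝ) ^ (-β) := by
    have : 0 ≤ (V : ℝ) ^ (-β) := by positivity
    rw [abs_mul, abs_of_nonneg this]
    exact mul_le_mul_of_nonneg_right (s1 V) this
  rw [abs_le] at key k ⊢
  constructor <;> linarith [key.1, key.2, k.1, k.2]

end Pool.Agent.G42
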