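import Pool.Agent.MP_b5e119_nt.G42.ZDefs

namespace Pool.Agent.G42

open Finset Filter Topology Pool.Agent.G60

theorem topw_one [I : Sg] (hO : G94.ODP_s) (hS : G94.STRP_s) (hU : UNIQ_s) (hZ : ZND_s)
    (η : ℝ) (hη : 0 < η) : ∃ c : ℝ, 0 < c ∧ ∃ p₀ : ℕ, ∀ (p : ℕ) [Fact p.Prime], p₀ ≤ p →
      ∀ e : ℤ, (e = 1 ∨ e = -1) →
        (∀ χ : DirichletCharacter ℂ p, χ ≠ 1 → χ ^ 2 = 1 → χ (-1) = (Sg.s : ℤ) →
          ∀ σ : ℝ, 1 - η / Real.log p ≤ σ → σ < 1 → DirichletCharacter.LFunction χ σ ≠ 0) →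
        c * p ≤ cnt p e (-Sg.s * e) := by
  obtain ⟨ε, ε0, p1, hz⟩ := hZ η hη
  obtain ⟨δ, p2, δ0, hs⟩ := hS ε ε0
  obtain ⟨c, p3, c0, ho⟩ := hO δ δ0
  refine ⟨c, c0, p1 + p2 + p3 + 3, fun p hp h e he H => ?_⟩
  by_contra k
  obtain ⟨σ, hσ, hE, hl⟩ := hs p (by omega) (ho p (by omega) e he (not_le.1 k).le)
  obtain ⟨χ, n1, s2, hχ, -⟩ := hU p (by omega)
  obtain ⟨t, t1, t2, t3⟩ := hz p (by omega) χ σ n1 hχ hσ hE
  refine H χ n1 s2 ?_ t t1 t2 t3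
  have e1 : ((p - 1 : ℕ) : ZMod p) = -1 := by
    rw [Nat.cast_sub (by omega : 1 ≤ p)]
    simp
  rw [← e1, hχ, hl]

theorem topw_row (hO : ∀ [Sg], G94.ODP_s) (hS : ∀ [Sg], G94.STRP_s) (hU : UNIQ_s) (hZ : ZND_s) :
    TOPW_s := by
  intro η hη
  obtain ⟨c1, c10, p1, h1⟩ := @topw_one ⟨1, Or.inl rfl⟩ (@hO ⟨1, Or.inl rfl⟩) (@hS ⟨1, Or.inl rfl⟩)
    hU hZ η hη
  obtain ⟨c2, c20, p2, h2⟩ := @topw_one ⟨-1, Or.inr rfl⟩ (@hO ⟨-1, Or.inr rfl⟩) (@hS ⟨-1, Or.inr rfl⟩)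
    hU hZ η hη
  refine ⟨min c1 c2, lt_min c10 c20, p1 + p2, fun p hp h e e' he he' H => ?_⟩
  have P0 : (0 : ℝ) ≤ p := Nat.cast_nonneg p
  have A : e' = -1 * e → min c1 c2 * p ≤ cnt p e e' := fun k => by
    have m : -(e * e') = 1 := by rcases he with rfl | rfl <;> simp [k]
    have := h1 p (by omega) e he fun χ a b d => H χ a b (by
      rw [d]
      show ((1 : ℤ) : ℂ) = _
      rw [← m, Int.cast_neg])
    exact (mul_le_mul_of_nonneg_right (min_le_left _ _) P0).trans (k ▸ this)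
  have B : e' = - -1 * e → min c1 c2 * p ≤ cnt p e e' := fun k => by
    have m : -(e * e') = -1 := by rcases he with rfl | rfl <;> simp [k]
    have := h2 p (by omega) e he fun χ a b d => H χ a b (by
      rw [d]
      show ((-1 : ℤ) : ℂ) = _
      rw [← m, Int.cast_neg])
    exact (mul_le_mul_of_nonneg_right (min_le_right _ _) P0).trans (k ▸ this)
  rcases he with rfl | rfl <;> rcases he' with rfl | rfl
  · exact B (by norm_num)
  · exact A (by norm_num)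
  · exact A (by norm_num)
  · exact B (by norm_num)

end Pool.Agent.G42
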