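import Pool.Agent.MP_b5e119_nt.G42.Defs
import Pool.Agent.MP_b5e119_nt.G94.Defs

/-! Statements of the rows of campaign h42w, third part: closeness of `λ` to the Legendre symbol
forces a real zero near `1`. -/

namespace Pool.Agent.G42

open Finset Filter Topology Pool.Agent.G60

noncomputable section

def PB (j : ℕ) : Finset ℕ := {q ∈ Ico (2 ^ j) (2 ^ (j + 1)) | q.Prime}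

def YY (p k : ℕ) : ℕ := (p - 1) / 2 ^ k

/-- A sign function that is completely multiplicative below `p`. -/
def CM (G : ℕ → ℤ) (p : ℕ) : Prop := (∀ n, 0 < n → n < p → G n = 1 ∨ G n = -1) ∧
  ∀ a b, 0 < a → 0 < b → a * b < p → G (a * b) = G a * G b

/-- The majority sign of `G` on `s`. -/
def mj (s : Finset ℕ) (G : ℕ → ℤ) : ℤ := if #s ≤ 2 * #{n ∈ s | G n = 1} then 1 else -1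

def TT (G : ℕ → ℤ) (p k : ℕ) : ℤ := mj (Icc 1 (YY p k)) G

def th (G : ℕ → ℤ) (j : ℕ) : ℤ := mj (PB j) G

def ee (G : ℕ → ℤ) (p k : ℕ) : ℝ := (#{u ∈ Icc 1 (YY p k) | G u ≠ TT G p k} : ℝ) / YY p k

def dd (G : ℕ → ℤ) (j : ℕ) : ℝ := (#{q ∈ PB j | G q ≠ th G j} : ℝ) / #(PB j)

/-- The unit of scale. -/
def aa (p : ℕ) : ℕ := Nat.log 2 p / 200

def rr (p : ℕ) [Fact p.Prime] (n : ℕ) : ℝ := ∑ d ∈ n.divisors, (leg p d : ℝ)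

def ZZ (p : ℕ) [Fact p.Prime] (x : ℕ) : ℝ := ∑ n ∈ Icc 1 x, rr p n / n

def Lr (p : ℕ) [Fact p.Prime] (e : ℕ) : ℝ := ArithmeticFunction.vonMangoldt e * (1 + (leg p e : ℝ))

def MAJ_s : Prop := ∀ (s : Finset ℕ) (G : ℕ → ℤ), (mj s G = 1 ∨ mj s G = -1) ∧
  ((∀ n ∈ s, G n = 1 ∨ G n = -1) → #s ≤ 2 * #{n ∈ s | G n = mj s G} ∧
    ∀ τ : ℤ, #{n ∈ s | G n ≠ mj s G} ≤ #{n ∈ s | G n ≠ τ})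

def PAIR_s : Prop := ∀ (G : ℕ → ℤ) (p a b k : ℕ) (τ : ℤ), CM G p →
  a * ∑ j ∈ Ico a b, #{z ∈ PB j ×ˢ Icc 1 (YY p (k + j + 1)) | G z.1 * G z.2 ≠ τ} ≤
    Nat.log 2 p * #{u ∈ Icc 1 (YY p k) | G u ≠ τ}

def SCA_s : Prop := ∃ (C : ℝ) (p₀ : ℕ), 0 < C ∧ ∀ (G : ℕ → ℤ) (p : ℕ) (σ : ℤ) (ε : ℝ), p₀ ≤ p →
  CM G p → (σ = 1 ∨ σ = -1) → (#{u ∈ Icc 1 (p - 1) | G u ≠ σ} : ℝ) ≤ ε * p →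
    ∑ k ∈ Ico (aa p) (87 * aa p), ee G p k ≤ C * ε * aa p ∧
      ∑ j ∈ Ico (aa p) (87 * aa p), dd G j ≤ C * ε * aa p

def SCB_s : Prop := ∃ (C : ℝ) (p₀ : ℕ), 0 < C ∧ ∀ (G : ℕ → ℤ) (p k : ℕ), p₀ ≤ p → CM G p →
  k < 87 * aa p → (TT G p (k + 1) ≠ TT G p k → 1 ≤ 5 * ee G p k) ∧
    (#{j ∈ Ico (aa p) (87 * aa p) | TT G p (k + j + 1) ≠ TT G p k * th G j} : ℝ) ≤
      C * ee G p k * aa p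

def BLR_s : Prop := ∀ (T θ : ℕ → ℤ) (a H : ℕ) (δ : ℝ), (∀ k, T k = 1 ∨ T k = -1) →
  (∀ j, θ j = 1 ∨ θ j = -1) → 0 < a → 0 ≤ δ → δ ≤ 1 / 12 →
  (#{z ∈ Ico a (H + 2 * a) ×ˢ Ico a (H + 2 * a) | T (z.1 + z.2 + 1) ≠ T z.1 * θ z.2} : ℝ) ≤
    δ * (a : ℝ) ^ 2 →
  (#{k ∈ Ico a (H + 2 * a) | T (k + 1) ≠ T k} : ℝ) ≤ δ * a →
    (#{j ∈ Ico a H | θ j ≠ 1} : ℝ) ≤ 2 * δ * a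

def SPT_s : Prop := ∀ ε' : ℝ, 0 < ε' → ∃ ε : ℝ, 0 < ε ∧ ∃ p₀ : ℕ, ∀ (G : ℕ → ℤ) (p : ℕ) (σ : ℤ),
  p₀ ≤ p → CM G p → (σ = 1 ∨ σ = -1) → (#{u ∈ Icc 1 (p - 1) | G u ≠ σ} : ℝ) ≤ ε * p →
    ∑ q ∈ Ico (2 ^ aa p) (2 ^ (85 * aa p)) with (q.Prime ∧ G q ≠ 1), Real.log q / q ≤ ε' * aa p

def LID_s : Prop := ∀ (p : ℕ) [Fact p.Prime], (∀ n, 0 ≤ rr p n) ∧ rr p 1 = 1 ∧
  ∀ z x₀ x₁ : ℕ, 0 < z → z ≤ x₀ → x₀ ≤ x₁ → Real.log x₀ * (ZZ p x₁ - ZZ p x₀) ≤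
    (∑ e ∈ Ico 1 z, Lr p e / e) * (ZZ p x₁ - ZZ p (x₀ / z)) + (∑ e ∈ Icc z x₁, Lr p e / e) * ZZ p x₁

def MER_s : Prop := ∃ C : ℝ, 0 < C ∧ ∀ (p : ℕ) [Fact p.Prime] (z : ℕ), 0 < z →
  ∑ e ∈ Ico 1 z, Lr p e / e ≤ 2 * Real.log z + C ∧ ∀ x : ℕ, x < p →
    ∑ e ∈ Icc z x, Lr p e / e ≤
      C + 2 * ∑ q ∈ Icc z x with (q.Prime ∧ leg p q = 1), Real.log q / q

def RAA_s : Prop := ∃ κ : ℝ, 0 < κ ∧ ∃ p₀ : ℕ, ∀ (p : ℕ) [Fact p.Prime], p₀ ≤ p → ∀ L : ℝ,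
  Tendsto (fun N : ℕ => ∑ n ∈ Icc 1 N, (leg p n : ℝ) / n) atTop (𝓝 L) → ∀ y : ℕ,
    (p : ℝ) ^ (0.33 : ℝ) ≤ y → y ≤ p → |∑ n ∈ Icc 1 y, rr p n - y * L| ≤ y * (p : ℝ) ^ (-κ)

def RAS_s : Prop := ∃ κ : ℝ, 0 < κ ∧ ∃ p₀ : ℕ, ∀ (p : ℕ) [Fact p.Prime], p₀ ≤ p → ∀ L : ℝ,
  Tendsto (fun N : ℕ => ∑ n ∈ Icc 1 N, (leg p n : ℝ) / n) atTop (𝓝 L) → ∀ y y' : ℕ,
    (p : ℝ) ^ (0.33 : ℝ) ≤ y → y ≤ y' → y' ≤ p →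
      |ZZ p y' - ZZ p y - L * Real.log ((y' : ℝ) / y)| ≤ (p : ℝ) ^ (-κ)

def ZB_s : Prop := ∀ β : ℝ, 1 / 2 ≤ β → β < 1 → ∃ c : ℝ, -(1 / (1 - β)) ≤ c ∧ c ≤ 0 ∧
  ∀ y : ℝ, 1 ≤ y → |∑ m ∈ Icc 1 ⌊y⌋₊, (m : ℝ) ^ (-β) - y ^ (1 - β) / (1 - β) - c| ≤ 2 * y ^ (-β)

/-- Tail of a character series at a real point. -/
def TLB_s : Prop := ∀ (p : ℕ) [Fact p.Prime] (β : ℝ) (U V : ℕ), 2 < p → 0 < β → 0 < U → U ≤ V →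
  |∑ n ∈ Icc 1 V, (leg p n : ℝ) * (n : ℝ) ^ (-β) - ∑ n ∈ Icc 1 U, (leg p n : ℝ) * (n : ℝ) ^ (-β)| ≤
    2 * p * (U : ℝ) ^ (-β)

def HEC_s : Prop := ∀ η : ℝ, 0 < η → ∃ C : ℝ, 0 < C ∧ ∃ p₀ : ℕ, ∀ (p : ℕ) [Fact p.Prime], p₀ ≤ p →
  ∀ L L' : ℝ, Tendsto (fun N : ℕ => ∑ n ∈ Icc 1 N, (leg p n : ℝ) / n) atTop (𝓝 L) →
    Tendsto (fun N : ℕ => ∑ n ∈ Icc 1 N, (leg p n : ℝ) * (n : ℝ) ^ (-(1 - η / Real.log p)))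
      atTop (𝓝 L') → 0 ≤ L' → ZZ p p ≤ C * L * Real.log p

def LFN_s : Prop := ∀ (p : ℕ) [Fact p.Prime] (χ : Ch p) (σ : ℝ), χ ≠ 1 →
  (∀ n : ℕ, χ (n : ZMod p) = (leg p n : ℂ)) → 1 / 2 ≤ σ → σ ≤ 2 → ∃ L : ℝ,
    DirichletCharacter.LFunction χ σ = L ∧
      Tendsto (fun N : ℕ => ∑ n ∈ Icc 1 N, (leg p n : ℝ) * (n : ℝ) ^ (-σ)) atTop (𝓝 L)

def POL_s : Prop := ∀ (p : ℕ) [Fact p.Prime] (χ : Ch p) (β : ℝ), χ ≠ 1 →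
  (∀ n : ℕ, χ (n : ZMod p) = (leg p n : ℂ)) → 1 / 2 ≤ β → β < 1 →
  (∀ σ : ℝ, β ≤ σ → σ < 1 → DirichletCharacter.LFunction χ σ ≠ 0) →
    0 ≤ (DirichletCharacter.LFunction χ β).re

def ZND_s : Prop := ∀ η : ℝ, 0 < η → ∃ ε : ℝ, 0 < ε ∧ ∃ p₀ : ℕ, ∀ (p : ℕ) [Fact p.Prime], p₀ ≤ p →
  ∀ (χ : Ch p) (s : ℤ), χ ≠ 1 → (∀ n : ℕ, χ (n : ZMod p) = (leg p n : ℂ)) → (s = 1 ∨ s = -1) →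
    (Ex p s : ℝ) ≤ ε * p →
      ∃ σ : ℝ, 1 - η / Real.log p ≤ σ ∧ σ < 1 ∧ DirichletCharacter.LFunction χ σ = 0

def TOPW_s : Prop := ∀ η : ℝ, 0 < η → ∃ c : ℝ, 0 < c ∧ ∃ p₀ : ℕ, ∀ (p : ℕ) [Fact p.Prime], p₀ ≤ p →
  ∀ e e' : ℤ, (e = 1 ∨ e = -1) → (e' = 1 ∨ e' = -1) →
    (∀ χ : DirichletCharacter ℂ p, χ ≠ 1 → χ ^ 2 = 1 → χ (-1) = -(e * e' : ℤ) →
      ∀ σ : ℝ, 1 - η / Real.log p ≤ σ → σ < 1 → DirichletCharacter.LFunction χ σ ≠ 0) →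
    c * p ≤ cnt p e e'

end

end Pool.Agent.G42
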