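import Pool.Agent.MP_b5e119_nt.G60.BUR1
import Pool.Agent.MP_b5e119_nt.G60.BUR2
import Pool.Agent.MP_b5e119_nt.G60.BURG
import Pool.Agent.MP_b5e119_nt.G60.MOM
import Pool.Agent.MP_b5e119_nt.G60.TAIL
import Pool.Agent.MP_b5e119_nt.G94.Main
import Pool.Agent.MP_b5e119_nt.G42.BLR
import Pool.Agent.MP_b5e119_nt.G42.HEC
import Pool.Agent.MP_b5e119_nt.G42.LFN
import Pool.Agent.MP_b5e119_nt.G42.LID
import Pool.Agent.MP_b5e119_nt.G42.MAJ
import Pool.Agent.MP_b5e119_nt.G42.MER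
import Pool.Agent.MP_b5e119_nt.G42.PAIR
import Pool.Agent.MP_b5e119_nt.G42.POL
import Pool.Agent.MP_b5e119_nt.G42.RAA
import Pool.Agent.MP_b5e119_nt.G42.RAS
import Pool.Agent.MP_b5e119_nt.G42.SCA
import Pool.Agent.MP_b5e119_nt.G42.SCB
import Pool.Agent.MP_b5e119_nt.G42.SPT
import Pool.Agent.MP_b5e119_nt.G42.TLB
import Pool.Agent.MP_b5e119_nt.G42.TOPW
import Pool.Agent.MP_b5e119_nt.G42.ZB
import Pool.Agent.MP_b5e119_nt.G42.ZND

/-! Assembly of the third part. -/

namespace Pool.Agent.G42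

open Pool.Agent.G60

theorem bur2 : BUR2_s := bur2_row sec_row uniq_row

theorem spt : SPT_s :=
  spt_row dya_row maj_row (sca_row dya_row maj_row pair_row) (scb_row dya_row maj_row pair_row)
    blr_row

theorem ras : RAS_s :=
  ras_row (raa_row hyp_row (burg_row mom_row (bur1_row ene_row) bur2) tail_row bur2)

theorem znd : ZND_s :=
  znd_row spt lid_row mer_row ras (hec_row hyp_row lid_row zb_row tlb_row) lfn_row (pol_row lfn_row)

theorem topw : TOPW_s :=
  topw_row Pool.Agent.G94.odp Pool.Agent.G94.strp uniq_row znd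

end Pool.Agent.G42
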